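import Pool.Agent.H65.MS.FinA

/-!
# MS AA: almost all residues

Let `1/3 + ε < 1/B` (`B > 0`, `B < 3`), `c` from `ms_main θ ε`, `x0 C` its threshold for `C`.
Scales: `X_j = 2^j`.  For `a ∈ (2^i, 2^(i+1)]` and `i+1 ≤ j`, `j ≤ B (i+1) + 1` let `F_i` be the family of the singletons `{a}`, `a ∈ (2^i, 2^(i+1)]`, `a0 = H = 2^i`,
and let `g(j)` be the largest `C ≤ j` with `x0 C ≤ 2^j` (`0` if there is none).  If `x0 (g j) ≤ 2^j` and `H = 2^i ≥ (2^j)^(1/3+ε)` then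
`E_{i,j} = {a ∈ (2^i, 2^(i+1)] : ∑_{q ≤ 2^(jθ), (a,q)=1} ME (2^j) q a > 2^j/(log 2^j)^(g j)}` has at most `2^i 2^(-cj) ≤ 2^(i (1-c))` elements (`ms_main`, `MM_all`,
`mE_singleton`).  `E` = union of the `E_{i,j}` with `x0 (g j) ≤ 2^j` and `H = 2^i ≥ (2^j)^(1/3+ε)`; for given `i` there are at most `3i + 1` such `j` (`j (1/3+ε) ≤ i`).  So
`#(E ∩ [1,X]) ≤ ∑_{i ≤ log_2 X} (3i+1) 2^(i(1-c)) ≤ X^(1-c/2)` for `X ≥ X0`.
If `a ∉ E` is large, `a ≤ x ≤ a^B`: take `2^i < a ≤ 2^(i+1)`, `2^(j-1) < x ≤ 2^j`; then `j ≥ i+1`, `2^j < 2x ≤ 2 a^B ≤ 2 2^(B(i+1))`, so `(2^j)^(1/3+ε) ≤ 2^i` for large `i`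
(`B (1/3+ε) < 1`), `g j ≥ C + 1` for large `j`, hence by monotonicity in `x` (`ME_mono`, `x^θ ≤ 2^(jθ)` if `θ ≥ 0`; if `θ < 0` the set of `q` is empty)
the sum is at most `2^j/(log 2^j)^(C+1) ≤ 2x/(log x)^(C+1) ≤ x/(log x)^C`.
-/

set_option autoImplicit false

namespace Pool.Agent.H65.MS

open Finset
open Pool.Agent.H80.KF (ME)

private noncomputable def AA_F (i : ℕ) : Finset (Finset ℕ) := (Ioc (2 ^ i) (2 ^ i + 2 ^ i)).image (fun a => {a})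

private noncomputable def AA_E (θ ε : ℝ) (g : ℕ → ℕ) (i j : ℕ) : Finset ℕ := by
  classical
  exact (Ioc (2 ^ i) (2 ^ i + 2 ^ i)).filter
    (fun a => ({a} : Finset ℕ) ∈ Bad (2 ^ j) (g j) (MM θ ε (2 ^ j) (2 ^ i)) (AA_F i))

private theorem AA_card (θ ε : ℝ) (g : ℕ → ℕ) (i j : ℕ) :
    (AA_E θ ε g i j).card ≤ (Bad (2 ^ j) (g j) (MM θ ε (2 ^ j) (2 ^ i)) (AA_F i)).card := by
  apply Finset.card_le_card_of_injOn (fun a => ({a} : Finset ℕ))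
  · intro a ha
    unfold AA_E at ha
    simp only [Finset.coe_filter, Set.mem_ofPred_eq] at ha
    exact ha.2
  · intro a _ b _ h
    simpa using h

private theorem AA_main (θ ε c : ℝ) (g : ℕ → ℕ) (i j x0 : ℕ) (hx0 : x0 ≤ 2 ^ j) (hij : 2 ^ i ≤ 2 ^ j)
    (h : ∀ x : ℕ, x0 ≤ x → ∀ a0 H : ℕ, a0 ≤ x → H ≤ x →
      ∀ F : Finset (Finset ℕ), (∀ A ∈ F, A ⊆ Ioc a0 (a0 + H)) →
        (∀ A ∈ F, ∀ B ∈ F, A ≠ B → Disjoint A B) →
        ((Bad x (g j) (MM θ ε x H) F).card : ℝ) ≤ H * (x : ℝ) ^ (-c)) :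
    ((AA_E θ ε g i j).card : ℝ) ≤ (2 : ℝ) ^ i * ((2 : ℝ) ^ j) ^ (-c) := by
  have h1 := h (2 ^ j) hx0 (2 ^ i) (2 ^ i) hij hij (AA_F i) (fun A hA => by
      unfold AA_F at hA
      obtain ⟨a, ha, rfl⟩ := Finset.mem_image.1 hA
      exact Finset.singleton_subset_iff.2 ha) (fun A hA B hB hne => by
      unfold AA_F at hA hB
      obtain ⟨a, ha, rfl⟩ := Finset.mem_image.1 hA
      obtain ⟨b, hb, rfl⟩ := Finset.mem_image.1 hB
      rw [Finset.disjoint_singleton]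
      rintro rfl
      exact hne rfl)
  have h2 : ((AA_E θ ε g i j).card : ℝ) ≤ ((Bad (2 ^ j) (g j) (MM θ ε (2 ^ j) (2 ^ i)) (AA_F i)).card : ℝ) := by
    exact_mod_cast AA_card θ ε g i j
  refine h2.trans (h1.trans (le_of_eq ?_))
  push_cast
  rfl

/-- the exceptional set -/
private def AA_set (θ ε : ℝ) (g x0 : ℕ → ℕ) : Set ℕ :=
  {a | ∃ i j : ℕ, (x0 (g j) ≤ 2 ^ j ∧ ((2 : ℝ) ^ j) ^ (1 / 3 + ε) ≤ (2 : ℝ) ^ i ∧ i ≤ j) ∧ a ∈ AA_E θ ε g i j}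

private theorem AA_jle {ε : ℝ} (hε : 0 < ε) {i j : ℕ} (h : ((2 : ℝ) ^ j) ^ (1 / 3 + ε) ≤ (2 : ℝ) ^ i) : j ≤ 3 * i := by
  rw [← Real.rpow_natCast, ← Real.rpow_natCast, ← Real.rpow_mul (by norm_num),
    Real.rpow_le_rpow_left_iff (by norm_num)] at h
  have hj : (0 : ℝ) ≤ j := Nat.cast_nonneg j
  have h1 : (j : ℝ) ≤ 3 * i := by nlinarith
  exact_mod_cast h1

private theorem AA_count (θ ε c : ℝ) (g x0 : ℕ → ℕ) (hε : 0 < ε) (hc0 : 0 < c) (hc1 : c ≤ 1 / 2)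
    (h : ∀ i j : ℕ, x0 (g j) ≤ 2 ^ j → i ≤ j →
      ((AA_E θ ε g i j).card : ℝ) ≤ (2 : ℝ) ^ i * ((2 : ℝ) ^ j) ^ (-c)) (X : ℕ) (hX : 1 ≤ X) :
    ((AA_set θ ε g x0 ∩ Set.Icc 1 X).ncard : ℝ) ≤
      ((Nat.log 2 X : ℝ) + 1) * (3 * (Nat.log 2 X : ℝ) + 1) * (X : ℝ) ^ (1 - c) := by
  classical
  set l := Nat.log 2 X with hl
  set T : Finset ℕ := (range (l + 1)).biUnion (fun i => (range (3 * l + 1)).biUnion (fun j =>
    if x0 (g j) ≤ 2 ^ j ∧ i ≤ j then AA_E θ ε g i j else ∅)) with hT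
  have hsub : AA_set θ ε g x0 ∩ Set.Icc 1 X ⊆ (T : Set ℕ) := by
    rintro a ⟨⟨i, j, ⟨h1, h2, h3⟩, h4⟩, h5⟩
    have h6 : 2 ^ i < a := by
      unfold AA_E at h4
      rw [Finset.mem_filter, Finset.mem_Ioc] at h4
      exact h4.1.1
    have h7 : i ≤ l := Nat.le_log_of_pow_le (by norm_num) (h6.le.trans h5.2)
    have h8 := AA_jle hε h2
    rw [hT, Finset.mem_coe, Finset.mem_biUnion]
    refine ⟨i, Finset.mem_range.2 (by omega), ?_⟩
    rw [Finset.mem_biUnion]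
    refine ⟨j, Finset.mem_range.2 (by omega), ?_⟩
    rw [if_pos ⟨h1, h3⟩]
    exact h4
  have h1 : ((AA_set θ ε g x0 ∩ Set.Icc 1 X).ncard : ℝ) ≤ (T.card : ℝ) := by
    have := Set.ncard_le_ncard hsub (Finset.finite_toSet T)
    rw [Set.ncard_coe_finset] at this
    exact_mod_cast this
  have hX0 : (1 : ℝ) ≤ X := by exact_mod_cast hX
  have h2 : ∀ i ∈ range (l + 1), ∀ j ∈ range (3 * l + 1),
      (((if x0 (g j) ≤ 2 ^ j ∧ i ≤ j then AA_E θ ε g i j else ∅) : Finset ℕ).card : ℝ) ≤ (X : ℝ) ^ (1 - c) := by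
    intro i hi j _
    rw [Finset.mem_range] at hi
    split_ifs with h3
    · refine (h i j h3.1 h3.2).trans ?_
      have h4 : ((2 : ℝ) ^ j) ^ (-c) ≤ ((2 : ℝ) ^ i) ^ (-c) := by
        apply Real.rpow_le_rpow_of_nonpos (by positivity) _ (by linarith)
        exact pow_le_pow_right₀ (by norm_num) h3.2
      have h5 : (2 : ℝ) ^ i * ((2 : ℝ) ^ i) ^ (-c) = ((2 : ℝ) ^ i) ^ (1 - c) := by
        rw [sub_eq_add_neg, Real.rpow_add (by positivity), Real.rpow_one]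
      have h6 : ((2 : ℝ) ^ i) ≤ X := by
        have : 2 ^ i ≤ X := (Nat.pow_le_pow_right (by norm_num) (by omega)).trans (Nat.pow_log_le_self 2 (by omega))
        exact_mod_cast this
      calc (2 : ℝ) ^ i * ((2 : ℝ) ^ j) ^ (-c) ≤ (2 : ℝ) ^ i * ((2 : ℝ) ^ i) ^ (-c) :=
            mul_le_mul_of_nonneg_left h4 (by positivity)
        _ = ((2 : ℝ) ^ i) ^ (1 - c) := h5
        _ ≤ (X : ℝ) ^ (1 - c) := Real.rpow_le_rpow (by positivity) h6 (by linarith)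
    · simp
      positivity
  have h3 : (T.card : ℝ) ≤ ∑ i ∈ range (l + 1), ∑ j ∈ range (3 * l + 1),
      (((if x0 (g j) ≤ 2 ^ j ∧ i ≤ j then AA_E θ ε g i j else ∅) : Finset ℕ).card : ℝ) := by
    have h4 : T.card ≤ ∑ i ∈ range (l + 1), ∑ j ∈ range (3 * l + 1),
      ((if x0 (g j) ≤ 2 ^ j ∧ i ≤ j then AA_E θ ε g i j else ∅) : Finset ℕ).card := by
      rw [hT]
      refine Finset.card_biUnion_le.trans (Finset.sum_le_sum (fun i _ => ?_))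
      exact Finset.card_biUnion_le
    exact_mod_cast h4
  refine h1.trans (h3.trans ?_)
  calc ∑ i ∈ range (l + 1), ∑ j ∈ range (3 * l + 1),
      (((if x0 (g j) ≤ 2 ^ j ∧ i ≤ j then AA_E θ ε g i j else ∅) : Finset ℕ).card : ℝ)
      ≤ ∑ i ∈ range (l + 1), ∑ j ∈ range (3 * l + 1), (X : ℝ) ^ (1 - c) :=
        Finset.sum_le_sum (fun i hi => Finset.sum_le_sum (fun j hj => h2 i hi j hj))
    _ = ((l : ℝ) + 1) * (3 * (l : ℝ) + 1) * (X : ℝ) ^ (1 - c) := by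
        rw [Finset.sum_const, Finset.sum_const, Finset.card_range, Finset.card_range, nsmul_eq_mul, nsmul_eq_mul]
        push_cast
        ring

private theorem AA_asym (c : ℝ) (hc : 0 < c) : ∃ X0 : ℕ, ∀ X : ℕ, X0 ≤ X →
    ((Nat.log 2 X : ℝ) + 1) * (3 * (Nat.log 2 X : ℝ) + 1) ≤ (X : ℝ) ^ (c / 2) := by
  have h1 : (fun x : ℝ => Real.log x) =o[Filter.atTop] (fun x : ℝ => x ^ (c / 4)) :=
    isLittleO_log_rpow_atTop (by positivity)
  have h2 := h1.def (show (0 : ℝ) < 1 / 8 by norm_num)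
  have h3 := (tendsto_natCast_atTop_atTop (R := ℝ)).eventually h2
  have h4 : ∀ᶠ x : ℕ in Filter.atTop, (1 : ℝ) ≤ Real.log x :=
    (Real.tendsto_log_atTop.comp (tendsto_natCast_atTop_atTop (R := ℝ))).eventually (Filter.eventually_ge_atTop 1)
  obtain ⟨X0, hX0⟩ := Filter.eventually_atTop.1 (h3.and (h4.and (Filter.eventually_ge_atTop 1)))
  refine ⟨X0, fun X hX => ?_⟩
  obtain ⟨h5, h6, h7⟩ := hX0 X hX
  have hX1 : (1 : ℝ) ≤ X := by exact_mod_cast h7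
  rw [Real.norm_of_nonneg (by linarith), Real.norm_of_nonneg (by positivity)] at h5
  have hl : (Nat.log 2 X : ℝ) ≤ 2 * Real.log X := by
    have h8 : ((2 : ℝ) ^ (Nat.log 2 X)) ≤ X := by
      exact_mod_cast Nat.pow_log_le_self 2 (by omega)
    have h9 := Real.log_le_log (by positivity) h8
    rw [Real.log_pow] at h9
    have := Real.log_two_gt_d9
    have h10 : (0 : ℝ) ≤ Nat.log 2 X := Nat.cast_nonneg _
    nlinarith
  have h11 : (0 : ℝ) ≤ Nat.log 2 X := Nat.cast_nonneg _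
  have hsq : (X : ℝ) ^ (c / 2) = (X : ℝ) ^ (c / 4) * (X : ℝ) ^ (c / 4) := by
    rw [← Real.rpow_add (by linarith)]
    congr 1
    ring
  rw [hsq]
  apply mul_le_mul
  · linarith
  · linarith
  · positivity
  · positivity

private theorem AA_fin (θ : ℝ) (C j k a x : ℕ) (hj : x ≤ 2 ^ j) (hj2 : 2 ^ j ≤ 2 * x) (hk : C + 1 ≤ k) (hx : 2 ≤ Real.log x)
    (h : ∑ q ∈ Icc 1 ⌊(((2 ^ j : ℕ) : ℝ)) ^ θ⌋₊, mE (2 ^ j) q {a} ≤ ((2 ^ j : ℕ) : ℝ) / Real.log ((2 ^ j : ℕ) : ℝ) ^ k) :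
    ∑ q ∈ (Icc 1 ⌊(x : ℝ) ^ θ⌋₊).filter (fun q => Nat.Coprime a q), ME x q (a : ZMod q)
        ≤ x / Real.log x ^ C := by
  have hx0 : (1 : ℝ) < x := by
    by_contra hc
    push Not at hc
    have := Real.log_nonpos (Nat.cast_nonneg x) hc
    linarith
  have hR : 0 ≤ (x : ℝ) / Real.log x ^ C := by positivity
  rcases lt_or_ge θ 0 with hθ | hθ
  · have h1 : ⌊(x : ℝ) ^ θ⌋₊ = 0 := by
      rw [Nat.floor_eq_zero]
      exact Real.rpow_lt_one_of_one_lt_of_neg hx0 hθ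
    rw [h1]
    simpa using hR
  · have hxj : (x : ℝ) ≤ ((2 ^ j : ℕ) : ℝ) := by exact_mod_cast hj
    have hsub : Icc 1 ⌊(x : ℝ) ^ θ⌋₊ ⊆ Icc 1 ⌊(((2 ^ j : ℕ) : ℝ)) ^ θ⌋₊ :=
      Finset.Icc_subset_Icc_right (Nat.floor_le_floor (Real.rpow_le_rpow (by linarith) hxj hθ))
    have h1 : ∑ q ∈ (Icc 1 ⌊(x : ℝ) ^ θ⌋₊).filter (fun q => Nat.Coprime a q), ME x q (a : ZMod q) ≤
        ∑ q ∈ Icc 1 ⌊(((2 ^ j : ℕ) : ℝ)) ^ θ⌋₊, mE (2 ^ j) q {a} := by
      rw [Finset.sum_filter]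
      refine le_trans (Finset.sum_le_sum (fun q _ => ?_))
        (Finset.sum_le_sum_of_subset_of_nonneg hsub (fun q _ _ => mE_nonneg (2 ^ j) q {a}))
      rw [mE_singleton]
      split_ifs with h2
      · exact ME_mono x (2 ^ j) q hj _
      · exact le_rfl
    refine h1.trans (h.trans ?_)
    have hlog : Real.log x ≤ Real.log ((2 ^ j : ℕ) : ℝ) := Real.log_le_log (by linarith) hxj
    have hL0 : 0 < Real.log x := by linarith
    have h2 : Real.log x ^ (C + 1) ≤ Real.log ((2 ^ j : ℕ) : ℝ) ^ k := by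
      calc Real.log x ^ (C + 1) ≤ Real.log ((2 ^ j : ℕ) : ℝ) ^ (C + 1) := pow_le_pow_left₀ hL0.le hlog _
        _ ≤ Real.log ((2 ^ j : ℕ) : ℝ) ^ k := pow_le_pow_right₀ (by linarith) hk
    have h3 : ((2 ^ j : ℕ) : ℝ) ≤ 2 * x := by exact_mod_cast hj2
    calc ((2 ^ j : ℕ) : ℝ) / Real.log ((2 ^ j : ℕ) : ℝ) ^ k ≤ ((2 ^ j : ℕ) : ℝ) / Real.log x ^ (C + 1) :=
          div_le_div_of_nonneg_left (by positivity) (by positivity) h2
      _ ≤ (2 * x) / Real.log x ^ (C + 1) := div_le_div_of_nonneg_right h3 (by positivity)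
      _ ≤ x / Real.log x ^ C := by
          rw [pow_succ, div_le_div_iff₀ (by positivity) (by positivity)]
          have h4 : 0 < Real.log x ^ C := by positivity
          have h5 : 0 ≤ (x : ℝ) * Real.log x ^ C := by positivity
          nlinarith

theorem almost_all (θ B : ℝ) (hθ : θ < 1) (hB0 : 0 < B) (hB : B < 3) : ∃ (c : ℝ) (E : Set ℕ), 0 < c ∧
    (∃ X0 : ℕ, ∀ X : ℕ, X0 ≤ X → ((E ∩ Set.Icc 1 X).ncard : ℝ) ≤ (X : ℝ) ^ (1 - c)) ∧
    ∀ C : ℕ, ∃ a1 : ℕ, ∀ a : ℕ, a1 ≤ a → a ∉ E → ∀ x : ℕ, a ≤ x → (x : ℝ) ≤ (a : ℝ) ^ B →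
      ∑ q ∈ (Icc 1 ⌊(x : ℝ) ^ θ⌋₊).filter (fun q => Nat.Coprime a q), ME x q (a : ZMod q)
        ≤ x / Real.log x ^ C := by
  obtain ⟨ε, hε, hBε⟩ : ∃ ε : ℝ, 0 < ε ∧ B * (1 / 3 + ε) < 1 := by
    refine ⟨(1 - B / 3) / (2 * B), ?_, ?_⟩
    · apply div_pos <;> linarith
    · have : B * (1 / 3 + (1 - B / 3) / (2 * B)) = B / 3 + (1 - B / 3) / 2 := by field_simp
      rw [this]
      linarith
  obtain ⟨c0, hc0, hmain⟩ := ms_main θ ε hθ hε
  choose x0 hx0 using hmain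
  set g : ℕ → ℕ := fun j => Nat.findGreatest (fun C => x0 C ≤ 2 ^ j) j with hg
  set c1 := min c0 (1 / 2) with hc1
  have hc1p : 0 < c1 := lt_min hc0 (by norm_num)
  have hEij : ∀ i j : ℕ, x0 (g j) ≤ 2 ^ j → i ≤ j →
      ((AA_E θ ε g i j).card : ℝ) ≤ (2 : ℝ) ^ i * ((2 : ℝ) ^ j) ^ (-c1) := by
    intro i j h1 h2
    have h3 := AA_main θ ε c0 g i j (x0 (g j)) h1 (Nat.pow_le_pow_right (by norm_num) h2) (hx0 (g j))
    refine h3.trans (mul_le_mul_of_nonneg_left ?_ (by positivity))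
    apply Real.rpow_le_rpow_of_exponent_le (one_le_pow₀ (by norm_num))
    have : c1 ≤ c0 := min_le_left _ _
    linarith
  refine ⟨c1 / 2, AA_set θ ε g x0, by positivity, ?_, ?_⟩
  · obtain ⟨X0, hX0⟩ := AA_asym c1 hc1p
    refine ⟨X0 + 1, fun X hX => ?_⟩
    have h1 := AA_count θ ε c1 g x0 hε hc1p (min_le_right _ _) hEij X (by omega)
    refine h1.trans ?_
    have h2 := hX0 X (by omega)
    have hXp : (0 : ℝ) < X := by exact_mod_cast (by omega : 0 < X)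
    have h3 : (X : ℝ) ^ (1 - c1 / 2) = (X : ℝ) ^ (c1 / 2) * (X : ℝ) ^ (1 - c1) := by
      rw [← Real.rpow_add hXp]
      congr 1
      ring
    rw [h3]
    exact mul_le_mul_of_nonneg_right h2 (by positivity)
  · intro C
    -- threshold for the logarithm and for i
    obtain ⟨i0, hi0⟩ : ∃ i0 : ℕ, ∀ i : ℕ, i0 ≤ i →
        (1 / 3 + ε) * (1 + B * (i + 1)) ≤ i := by
      obtain ⟨i0, hi0⟩ := exists_nat_ge (((1 / 3 + ε) * (1 + B)) / (1 - B * (1 / 3 + ε)))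
      refine ⟨i0, fun i hi => ?_⟩
      have h1 : ((1 / 3 + ε) * (1 + B)) / (1 - B * (1 / 3 + ε)) ≤ i := hi0.trans (by exact_mod_cast hi)
      rw [div_le_iff₀ (by linarith)] at h1
      nlinarith
    obtain ⟨x1, hx1⟩ : ∃ x1 : ℕ, ∀ x : ℕ, x1 ≤ x → (2 : ℝ) ≤ Real.log x :=
      Filter.eventually_atTop.1 ((Real.tendsto_log_atTop.comp (tendsto_natCast_atTop_atTop (R := ℝ))).eventually
        (Filter.eventually_ge_atTop 2))
    refine ⟨2 ^ (i0 + 1) + 2 ^ (C + 2) + x1 + x0 (C + 1) + 2, fun a ha haE x hax hxB => ?_⟩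
    have hp1 : 1 ≤ 2 ^ i0 := Nat.one_le_two_pow
    have hp2 : 1 ≤ 2 ^ (C + 2) := Nat.one_le_two_pow
    have hp3 : 2 ^ (i0 + 1) = 2 * 2 ^ i0 := by ring
    generalize hP1 : 2 ^ i0 = P1 at *
    generalize hP2 : 2 ^ (C + 2) = P2 at *
    rw [hp3] at ha
    set i := Nat.log 2 (a - 1) with hi
    set j := Nat.clog 2 x with hj
    have ha2 : 2 ≤ a := by omega
    have hi1 : 2 ^ i < a := by
      have := Nat.pow_log_le_self 2 (x := a - 1) (by omega)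
      rw [← hi] at this
      omega
    have hi2 : a ≤ 2 ^ (i + 1) := by
      have := Nat.lt_pow_succ_log_self (b := 2) (by norm_num) (a - 1)
      rw [← hi] at this
      omega
    have hj1 : x ≤ 2 ^ j := Nat.le_pow_clog (by norm_num) x
    have hjpos : 0 < j := Nat.clog_pos (by norm_num) (by omega)
    have hj2 : 2 ^ j < 2 * x := by
      have h1 := Nat.pow_pred_clog_lt_self (b := 2) (by norm_num) (x := x) (by omega)
      rw [← hj] at h1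
      have h2 : 2 ^ j = 2 * 2 ^ (j - 1) := by
        obtain ⟨k, hk⟩ : ∃ k, j = k + 1 := ⟨j - 1, by omega⟩
        rw [hk]
        simp [pow_succ]
        ring
      rw [h2]
      have h3 : 2 ^ j.pred < x := h1
      have h4 : j.pred = j - 1 := rfl
      rw [h4] at h3
      omega
    have hij : i ≤ j := by
      have : 2 ^ i < 2 ^ j := by omega
      exact ((Nat.pow_lt_pow_iff_right (by norm_num)).1 this).le
    have hii0 : i0 ≤ i := Nat.le_log_of_pow_le (by norm_num) (by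
      rw [hP1]
      omega)
    have hjC : C + 1 ≤ j := by
      have h1 : 2 ^ (C + 2) < 2 ^ j := by
        rw [hP2]
        omega
      have h2 := (Nat.pow_lt_pow_iff_right (by norm_num)).1 h1
      omega
    have hgC : C + 1 ≤ g j := Nat.le_findGreatest hjC (by omega)
    have hgx : x0 (g j) ≤ 2 ^ j := by
      have := Nat.findGreatest_spec (P := fun C => x0 C ≤ 2 ^ j) hjC (show x0 (C + 1) ≤ 2 ^ j by omega)
      exact this
    have hσ : ((2 : ℝ) ^ j) ^ (1 / 3 + ε) ≤ (2 : ℝ) ^ i := by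
      have h1 : ((2 : ℝ) ^ j) ≤ (2 : ℝ) ^ (1 + B * ((i : ℝ) + 1)) := by
        have h2 : ((2 : ℝ) ^ j) ≤ 2 * x := by exact_mod_cast hj2.le
        have h3 : (a : ℝ) ^ B ≤ (2 : ℝ) ^ (B * ((i : ℝ) + 1)) := by
          have h4 : (a : ℝ) ≤ (2 : ℝ) ^ ((i : ℝ) + 1) := by
            have h5 : (a : ℝ) ≤ (2 : ℝ) ^ (i + 1) := by exact_mod_cast hi2
            rw [← Real.rpow_natCast] at h5
            push_cast at h5
            exact h5
          calc (a : ℝ) ^ B ≤ ((2 : ℝ) ^ ((i : ℝ) + 1)) ^ B := Real.rpow_le_rpow (Nat.cast_nonneg a) h4 hB0.le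
            _ = (2 : ℝ) ^ (B * ((i : ℝ) + 1)) := by
                rw [← Real.rpow_mul (by norm_num)]
                congr 1
                ring
        rw [Real.rpow_add (by norm_num), Real.rpow_one]
        linarith
      calc ((2 : ℝ) ^ j) ^ (1 / 3 + ε) ≤ ((2 : ℝ) ^ (1 + B * ((i : ℝ) + 1))) ^ (1 / 3 + ε) :=
            Real.rpow_le_rpow (by positivity) h1 (by positivity)
        _ = (2 : ℝ) ^ ((1 / 3 + ε) * (1 + B * ((i : ℝ) + 1))) := by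
            rw [← Real.rpow_mul (by norm_num)]
            congr 1
            ring
        _ ≤ (2 : ℝ) ^ (i : ℝ) := Real.rpow_le_rpow_of_exponent_le (by norm_num) (hi0 i hii0)
        _ = (2 : ℝ) ^ i := Real.rpow_natCast _ _
    have haF : ({a} : Finset ℕ) ∈ AA_F i := by
      unfold AA_F
      rw [Finset.mem_image]
      refine ⟨a, Finset.mem_Ioc.2 ⟨hi1, ?_⟩, rfl⟩
      rw [pow_succ] at hi2
      omega
    have hnot : ¬ (({a} : Finset ℕ) ∈ Bad (2 ^ j) (g j) (MM θ ε (2 ^ j) (2 ^ i)) (AA_F i)) := by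
      intro hbad
      apply haE
      refine ⟨i, j, ⟨hgx, hσ, hij⟩, ?_⟩
      unfold AA_E
      rw [Finset.mem_filter, Finset.mem_Ioc]
      refine ⟨⟨hi1, ?_⟩, hbad⟩
      rw [pow_succ] at hi2
      omega
    have hMM : MM θ ε (2 ^ j) (2 ^ i) = Icc 1 ⌊(((2 ^ j : ℕ) : ℝ)) ^ θ⌋₊ :=
      MM_all θ ε hε (2 ^ j) (2 ^ i) (Nat.one_le_pow _ _ (by norm_num)) (by push_cast; exact hσ)
    have hle : ∑ q ∈ Icc 1 ⌊(((2 ^ j : ℕ) : ℝ)) ^ θ⌋₊, mE (2 ^ j) q {a} ≤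
        ((2 ^ j : ℕ) : ℝ) / Real.log ((2 ^ j : ℕ) : ℝ) ^ (g j) := by
      by_contra hc
      push Not at hc
      apply hnot
      unfold Bad
      rw [Finset.mem_filter]
      refine ⟨haF, ?_⟩
      rw [hMM]
      exact hc
    exact AA_fin θ C j (g j) a x hj1 hj2.le hgC (hx1 x (by omega)) hle

end Pool.Agent.H65.MS
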