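import Pool.Agent.H65.MS.SMb
import Pool.Agent.H65.MS.UnfR

/-!
# MS Rg2: selections of residues, range `Q H ≥ x^(1+e)`

Take `ρ1 = min (ρ0 of sm_bound κ e) (1/50)`, `R = ⌊x^ρ1⌋` and return `ρ = ρ1/4`.
For `y ≤ x` let `f n = 1` if `n` is a prime `≤ y`, else `0`; `∑_{n ≤ x} f(n) uu R q a n = ∑_{p ∈ PX y} uu R q a p`.
`|err y q a| ≤ |err y q a - ∑_p uu R q a p| + |∑_p uu R q a p|`.
First term: for every `q` let `s q` be an element of `(S q).filter (Coprime · q)` where `|err - ∑ uu|` is largest (`s q = 1` if there is none);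
`∑_{a ∈ S q, (a,q)=1} |..| ≤ nb |..|_{a = s q}`, so by `unfR ρ1` (with `C`) the first terms contribute at most `nb x/(log x)^C`.
Second term: Cauchy-Schwarz over the at most `nb Q` pairs `(q, a)`, `a ∈ S q ⊆ Ioc a0 (a0+H)`, and `sm_bound` with `A = H`:
`≤ (nb Q)^(1/2) (H x^2/Q x^(-ρ1/2))^(1/2) = x (nb H)^(1/2) x^(-ρ1/4)`.
-/

set_option autoImplicit false

namespace Pool.Agent.H65.MS

open Finset
open Pool.Agent.H91.EHA (err)
open Pool.Agent.H80.KF (uu PX)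

/-- an element of the filtered set with the largest value -/
private theorem Rg2_sel (F : ℕ → ℤ → ℝ) (S : ℕ → Finset ℕ) (nb : ℕ) (hF : ∀ q a, 0 ≤ F q a)
    (hc : ∀ q, (S q).card ≤ nb) :
    ∃ s : ℕ → ℤ, (∀ q, IsCoprime (s q) (q : ℤ)) ∧
      ∀ q, ∑ a ∈ (S q).filter (fun a => Nat.Coprime a q), F q (a : ℤ) ≤ nb * F q (s q) := by
  have h : ∀ q : ℕ, ∃ t : ℤ, IsCoprime t (q : ℤ) ∧
      ∑ a ∈ (S q).filter (fun a => Nat.Coprime a q), F q (a : ℤ) ≤ nb * F q t := by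
    intro q
    rcases ((S q).filter (fun a => Nat.Coprime a q)).eq_empty_or_nonempty with h0 | h1
    · refine ⟨1, isCoprime_one_left, ?_⟩
      rw [h0, Finset.sum_empty]
      exact mul_nonneg (Nat.cast_nonneg _) (hF _ _)
    · obtain ⟨a, ha, hmax⟩ := Finset.exists_max_image _ (fun a : ℕ => F q (a : ℤ)) h1
      refine ⟨(a : ℤ), ?_, ?_⟩
      · rw [Finset.mem_filter] at ha
        exact Nat.isCoprime_iff_coprime.mpr ha.2
      · calc ∑ b ∈ (S q).filter (fun a => Nat.Coprime a q), F q (b : ℤ)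
            ≤ ∑ b ∈ (S q).filter (fun a => Nat.Coprime a q), F q (a : ℤ) :=
              Finset.sum_le_sum (fun b hb => hmax b hb)
          _ = (((S q).filter (fun a => Nat.Coprime a q)).card : ℝ) * F q (a : ℤ) := by
              rw [Finset.sum_const, nsmul_eq_mul]
          _ ≤ nb * F q (a : ℤ) := by
              apply mul_le_mul_of_nonneg_right _ (hF _ _)
              exact_mod_cast (Finset.card_filter_le _ _).trans (hc q)
  choose s hs using h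
  exact ⟨s, fun q => (hs q).1, fun q => (hs q).2⟩

/-- Cauchy-Schwarz over the pairs -/
private theorem Rg2_cs (G : ℕ → ℤ → ℝ) (S : ℕ → Finset ℕ) (nb Q H a0 : ℕ)
    (hS : ∀ q, S q ⊆ Ioc a0 (a0 + H)) (hc : ∀ q, (S q).card ≤ nb) :
    (∑ q ∈ Ioc Q (2 * Q), ∑ a ∈ (S q).filter (fun a => Nat.Coprime a q), |G q (a : ℤ)|) ^ 2
      ≤ (nb * Q : ℝ) * ∑ q ∈ Ioc Q (2 * Q), ∑ a ∈ Ioc a0 (a0 + H), (G q (a : ℤ)) ^ 2 := by
  have h1 : ∑ q ∈ Ioc Q (2 * Q), ∑ a ∈ (S q).filter (fun a => Nat.Coprime a q), |G q (a : ℤ)|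
      = ∑ p ∈ (Ioc Q (2 * Q)).sigma (fun q => (S q).filter (fun a => Nat.Coprime a q)),
          |G p.1 (p.2 : ℤ)| := by
    rw [Finset.sum_sigma]
  rw [h1]
  refine (sq_sum_le_card_mul_sum_sq).trans ?_
  have h2 : ((((Ioc Q (2 * Q)).sigma (fun q => (S q).filter (fun a => Nat.Coprime a q))).card : ℕ) : ℝ)
      ≤ nb * Q := by
    have : ((Ioc Q (2 * Q)).sigma (fun q => (S q).filter (fun a => Nat.Coprime a q))).card
        ≤ nb * Q := by
      rw [Finset.card_sigma]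
      calc ∑ q ∈ Ioc Q (2 * Q), ((S q).filter (fun a => Nat.Coprime a q)).card
          ≤ ∑ q ∈ Ioc Q (2 * Q), nb :=
            Finset.sum_le_sum (fun q _ => (Finset.card_filter_le _ _).trans (hc q))
        _ = nb * Q := by
            rw [Finset.sum_const, Nat.card_Ioc, smul_eq_mul]
            have : 2 * Q - Q = Q := by omega
            rw [this, mul_comm]
    exact_mod_cast this
  have h3 : ∑ p ∈ (Ioc Q (2 * Q)).sigma (fun q => (S q).filter (fun a => Nat.Coprime a q)),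
      |G p.1 (p.2 : ℤ)| ^ 2
      ≤ ∑ q ∈ Ioc Q (2 * Q), ∑ a ∈ Ioc a0 (a0 + H), (G q (a : ℤ)) ^ 2 := by
    rw [Finset.sum_sigma]
    apply Finset.sum_le_sum
    intro q _
    simp only [sq_abs]
    apply Finset.sum_le_sum_of_subset_of_nonneg
    · exact (Finset.filter_subset _ _).trans (hS q)
    · intro i _ _
      positivity
  exact mul_le_mul h2 h3 (Finset.sum_nonneg fun i _ => by positivity) (by positivity)

theorem rg2 (κ e : ℝ) (hκ : 0 < κ) (he : 0 < e) : ∃ ρ : ℝ, 0 < ρ ∧ ∀ C : ℕ, ∃ x0 : ℕ, ∀ x : ℕ,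
    x0 ≤ x → ∀ y Q H a0 nb : ℕ, y ≤ x → 1 ≤ Q → (Q : ℝ) ≤ (x : ℝ) ^ (1 - κ) →
      (x : ℝ) ^ (1 + e) ≤ Q * H → H ≤ x → a0 ≤ x →
      ∀ S : ℕ → Finset ℕ, (∀ q, S q ⊆ Ioc a0 (a0 + H)) → (∀ q, (S q).card ≤ nb) →
      ∑ q ∈ Ioc Q (2 * Q), ∑ a ∈ (S q).filter (fun a => Nat.Coprime a q), |err y q (a : ZMod q)|
        ≤ nb * x / Real.log x ^ C + x * Real.sqrt (nb * H) * (x : ℝ) ^ (-ρ) := by
  obtain ⟨ρ0, hρ0, hsm⟩ := sm_bound κ e hκ he
  set ρ1 : ℝ := min ρ0 (1 / 50) with hρ1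
  have hρ1pos : 0 < ρ1 := lt_min hρ0 (by norm_num)
  refine ⟨ρ1 / 4, by positivity, ?_⟩
  intro C
  obtain ⟨x1, hx1⟩ := hsm ρ1 hρ1pos (min_le_left _ _)
  obtain ⟨x2, hx2⟩ := unfR ρ1 hρ1pos (min_le_right _ _) C
  refine ⟨max x1 (max x2 1), ?_⟩
  intro x hx y Q H a0 nb hy hQ hQx hQH hH ha0 S hS hc
  have hxx1 : x1 ≤ x := (le_max_left _ _).trans hx
  have hxx2 : x2 ≤ x := ((le_max_left _ _).trans (le_max_right _ _)).trans hx
  have hx1' : 1 ≤ x := ((le_max_right _ _).trans (le_max_right _ _)).trans hx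
  set R : ℕ := ⌊(x : ℝ) ^ ρ1⌋₊ with hR
  set G : ℕ → ℤ → ℝ := fun q a => ∑ p ∈ PX y, uu R q a p with hG
  set F : ℕ → ℤ → ℝ := fun q a => |err y q (a : ZMod q) - G q a| with hF
  obtain ⟨s, hs1, hs2⟩ := Rg2_sel F S nb (fun q a => abs_nonneg _) hc
  have hsel := hx2 x Q hxx2 hQ y hy s hs1
  -- first terms
  have hT1 : ∑ q ∈ Ioc Q (2 * Q), ∑ a ∈ (S q).filter (fun a => Nat.Coprime a q), F q (a : ℤ)
      ≤ nb * x / Real.log x ^ C := by
    calc ∑ q ∈ Ioc Q (2 * Q), ∑ a ∈ (S q).filter (fun a => Nat.Coprime a q), F q (a : ℤ)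
        ≤ ∑ q ∈ Ioc Q (2 * Q), nb * F q (s q) := Finset.sum_le_sum (fun q _ => hs2 q)
      _ = nb * ∑ q ∈ Ioc Q (2 * Q), F q (s q) := by rw [Finset.mul_sum]
      _ ≤ nb * (x / Real.log x ^ C) := mul_le_mul_of_nonneg_left hsel (Nat.cast_nonneg _)
      _ = nb * x / Real.log x ^ C := by ring
  -- second terms
  set f : ℕ → ℝ := fun n => if n ∈ PX y then 1 else 0 with hf
  have hPX : PX y ⊆ Icc 1 x := by
    intro p hp
    rw [PX, Finset.mem_filter, Finset.mem_Icc] at hp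
    rw [Finset.mem_Icc]
    exact ⟨hp.1.1, hp.1.2.trans hy⟩
  have hGf : ∀ (q : ℕ) (a : ℤ), ∑ n ∈ Icc 1 x, f n * uu R q a n = G q a := by
    intro q a
    simp only [hf, hG, ite_mul, one_mul, zero_mul]
    rw [← Finset.sum_filter]
    congr 1
    ext n
    rw [Finset.mem_filter]
    exact ⟨fun h => h.2, fun h => ⟨hPX h, h⟩⟩
  have hsm2 := hx1 x hxx1 f (fun n => by
      simp only [hf]; split_ifs <;> simp) (fun n hn => by
      simp only [hf]
      rw [if_neg]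
      intro h
      have := Finset.mem_Icc.mp (hPX h)
      omega) Q H a0 hQ hQx hQH hH ha0
  have hsm3 : ∑ q ∈ Ioc Q (2 * Q), ∑ a ∈ Ioc a0 (a0 + H), (G q (a : ℤ)) ^ 2
      ≤ H * (x : ℝ) ^ 2 / Q * (x : ℝ) ^ (-(ρ1 / 2)) := by
    refine le_trans (le_of_eq ?_) hsm2
    apply Finset.sum_congr rfl
    intro q _
    apply Finset.sum_congr rfl
    intro a _
    rw [← hGf q (a : ℤ)]
  have hcs := Rg2_cs G S nb Q H a0 hS hc
  have hxpos : (0 : ℝ) < x := by exact_mod_cast hx1'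
  have hQpos : (0 : ℝ) < Q := by exact_mod_cast hQ
  have hT2 : ∑ q ∈ Ioc Q (2 * Q), ∑ a ∈ (S q).filter (fun a => Nat.Coprime a q), |G q (a : ℤ)|
      ≤ x * Real.sqrt (nb * H) * (x : ℝ) ^ (-(ρ1 / 4)) := by
    refine (le_abs_self _).trans (abs_le_of_sq_le_sq ?_ (by positivity))
    refine hcs.trans ?_
    refine (mul_le_mul_of_nonneg_left hsm3 (by positivity)).trans (le_of_eq ?_)
    have h4 : (x : ℝ) ^ (-(ρ1 / 2)) = ((x : ℝ) ^ (-(ρ1 / 4))) ^ 2 := by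
      rw [← Real.rpow_natCast, ← Real.rpow_mul hxpos.le]
      congr 1
      push_cast
      ring
    rw [mul_pow, mul_pow, Real.sq_sqrt (by positivity), h4]
    field_simp
  calc ∑ q ∈ Ioc Q (2 * Q), ∑ a ∈ (S q).filter (fun a => Nat.Coprime a q), |err y q (a : ZMod q)|
      ≤ ∑ q ∈ Ioc Q (2 * Q), ∑ a ∈ (S q).filter (fun a => Nat.Coprime a q),
          (F q (a : ℤ) + |G q (a : ℤ)|) := by
        apply Finset.sum_le_sum
        intro q _
        apply Finset.sum_le_sum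
        intro a _
        simp only [hF, Int.cast_natCast]
        have := abs_add_le (err y q (a : ZMod q) - G q (a : ℤ)) (G q (a : ℤ))
        simpa using this
    _ = ∑ q ∈ Ioc Q (2 * Q), ∑ a ∈ (S q).filter (fun a => Nat.Coprime a q), F q (a : ℤ)
        + ∑ q ∈ Ioc Q (2 * Q), ∑ a ∈ (S q).filter (fun a => Nat.Coprime a q), |G q (a : ℤ)| := by
        rw [← Finset.sum_add_distrib]
        apply Finset.sum_congr rfl
        intro q _
        rw [Finset.sum_add_distrib]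
    _ ≤ nb * x / Real.log x ^ C + x * Real.sqrt (nb * H) * (x : ℝ) ^ (-(ρ1 / 4)) :=
        add_le_add hT1 hT2

end Pool.Agent.H65.MS
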