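import Pool.Agent.H65.MS.Rg1
import Pool.Agent.H65.MS.Rg2

/-!
# MS Cmb: selections of residues, all moduli

`MM θ ε x H`: the moduli `q ≤ x^θ` with `q^2 ≤ H x^(1-ε)` or `x^(1+ε) ≤ q H`.
`sel_all`: `ε1 = min ε (min (1/2) (1-θ))`; `MM θ ε ⊆ MM θ ε1`.  Let `ρ` be from `rg2 (κ = 1-θ) (e = ε1/2)`, `c = min ρ (ε1/100)`.
* the `q` with `q^2 ≤ H x^(1-ε1)`: `rg1 θ ε1` with `C+1` (`H ≤ nb x^c`);
* the `q ≤ x^θ` with `x^(1+ε1) ≤ q H` lie in the blocks `(2^i, 2^(i+1)]`, `i ≤ log_2 x` (`q = 1` is impossible because `H ≤ x`); for a block which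
  contains such a `q`: `Q = 2^i < q ≤ x^θ = x^(1-κ)` and `Q H ≥ q H/2 ≥ x^(1+ε1)/2 ≥ x^(1+ε1/2)`: `rg2` with `C + 2`.  Number of blocks `≤ 2 log x + 1`.
  `x (nb H)^(1/2) x^(-ρ) ≤ nb x^(1 + c/2 - ρ) ≤ nb x^(1-ρ/2)`, since `H ≤ nb x^c`.
`MM_all`: for `H ≥ x^(1/3+ε)` every `q ≤ x^θ` belongs to `MM θ ε x H`: otherwise `q^2 > H x^(1-ε)` and `q < x^(1+ε)/H`, so
`x^(2+2ε)/H^2 > H x^(1-ε)`, `H^3 < x^(1+3ε)`.
-/

set_option autoImplicit false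

namespace Pool.Agent.H65.MS

open Finset
open Pool.Agent.H91.EHA (err)

/-- the moduli `q ≤ x^θ` with `q^2 ≤ H x^(1-ε)` or `x^(1+ε) ≤ q H` -/
noncomputable def MM (θ ε : ℝ) (x H : ℕ) : Finset ℕ :=
  (Icc 1 ⌊(x : ℝ) ^ θ⌋₊).filter
    (fun q : ℕ => (q : ℝ) ^ 2 ≤ H * (x : ℝ) ^ (1 - ε) ∨ (x : ℝ) ^ (1 + ε) ≤ q * H)

private theorem Cmb_cube (ε x H : ℝ) (hx : 1 ≤ x) (hH : x ^ (1 / 3 + ε) ≤ H) (q : ℝ) (hq : 0 ≤ q)
    (h1 : H * x ^ (1 - ε) < q ^ 2) (h2 : q * H < x ^ (1 + ε)) : False := by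
  have hx0 : 0 < x := by linarith
  have hp : 0 < x ^ (1 / 3 + ε) := Real.rpow_pos_of_pos hx0 _
  have hH0 : 0 < H := hp.trans_le hH
  have e1 : (q * H) ^ 2 < (x ^ (1 + ε)) ^ 2 :=
    pow_lt_pow_left₀ h2 (by positivity) (by norm_num)
  have e2 : H ^ 2 * (H * x ^ (1 - ε)) < (q * H) ^ 2 := by
    calc H ^ 2 * (H * x ^ (1 - ε)) < H ^ 2 * q ^ 2 := mul_lt_mul_of_pos_left h1 (by positivity)
      _ = (q * H) ^ 2 := by ring
  have e3 : (x ^ (1 / 3 + ε)) ^ 3 ≤ H ^ 3 := pow_le_pow_left₀ hp.le hH 3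
  have e4 : (x ^ (1 / 3 + ε)) ^ 3 * x ^ (1 - ε) = (x ^ (1 + ε)) ^ 2 := by
    rw [← Real.rpow_natCast, ← Real.rpow_natCast, ← Real.rpow_mul hx0.le, ← Real.rpow_mul hx0.le,
      ← Real.rpow_add hx0]
    congr 1
    push_cast
    ring
  have hp2 : 0 < x ^ (1 - ε) := Real.rpow_pos_of_pos hx0 _
  have e5 : (x ^ (1 / 3 + ε)) ^ 3 * x ^ (1 - ε) ≤ H ^ 3 * x ^ (1 - ε) :=
    mul_le_mul_of_nonneg_right e3 hp2.le
  have e6 : H ^ 3 * x ^ (1 - ε) = H ^ 2 * (H * x ^ (1 - ε)) := by ring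
  linarith

theorem MM_all (θ ε : ℝ) (hε : 0 < ε) (x H : ℕ) (hx : 1 ≤ x) (hH : (x : ℝ) ^ (1 / 3 + ε) ≤ H) :
    MM θ ε x H = Icc 1 ⌊(x : ℝ) ^ θ⌋₊ := by
  unfold MM
  refine filter_true_of_mem fun q hq => ?_
  by_contra hcon
  push Not at hcon
  exact Cmb_cube ε x H (by exact_mod_cast hx) hH q (Nat.cast_nonneg _) hcon.1 hcon.2

private theorem Cmb_num (C : ℕ) (ρ ε1 : ℝ) (hρ : 0 < ρ) (hε1 : 0 < ε1) : ∃ x0 : ℕ, ∀ x : ℕ,
    x0 ≤ x → 3 ≤ x ∧ 5 ≤ Real.log x ∧ 3 * Real.log x ^ (C + 2) ≤ (x : ℝ) ^ (ρ / 2) ∧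
      (2 : ℝ) ≤ (x : ℝ) ^ (ε1 / 2) := by
  have h1 : ∀ᶠ x : ℝ in Filter.atTop, 3 * Real.log x ^ (C + 2) ≤ x ^ (ρ / 2) := by
    have := (isLittleO_log_rpow_rpow_atTop ((C + 2 : ℕ) : ℝ) (show 0 < ρ / 2 by linarith)).def
      (show (0 : ℝ) < 1 / 3 by norm_num)
    filter_upwards [this, Filter.eventually_ge_atTop 1] with x hx hx1
    rw [Real.norm_of_nonneg (Real.rpow_nonneg (Real.log_nonneg hx1) _),
      Real.norm_of_nonneg (Real.rpow_nonneg (by linarith) _), Real.rpow_natCast] at hx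
    linarith
  have h2 : ∀ᶠ x : ℝ in Filter.atTop, 5 ≤ Real.log x :=
    Real.tendsto_log_atTop.eventually_ge_atTop 5
  have h3 : ∀ᶠ x : ℝ in Filter.atTop, (3 : ℝ) ≤ x := Filter.eventually_ge_atTop 3
  have h4 : ∀ᶠ x : ℝ in Filter.atTop, 2 ≤ x ^ (ε1 / 2) :=
    (tendsto_rpow_atTop (show 0 < ε1 / 2 by linarith)).eventually_ge_atTop 2
  obtain ⟨x0, hx0⟩ := Filter.eventually_atTop.1
    ((tendsto_natCast_atTop_atTop (R := ℝ)).eventually (h1.and (h2.and (h3.and h4))))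
  refine ⟨x0, fun x hx => ?_⟩
  obtain ⟨a1, a2, a3, a4⟩ := hx0 x hx
  exact ⟨by exact_mod_cast a3, a2, a1, a4⟩

private theorem Cmb_sqrt (x nb H c ρ : ℝ) (hx : 1 ≤ x) (hnb : 1 ≤ nb) (hH : H ≤ nb * x ^ c)
    (hc : c ≤ ρ) : x * Real.sqrt (nb * H) * x ^ (-ρ) ≤ nb * x * x ^ (-(ρ / 2)) := by
  have hx0 : 0 < x := by linarith
  have e1 : Real.sqrt (nb * H) ≤ nb * x ^ (c / 2) := by
    rw [show nb * x ^ (c / 2) = Real.sqrt ((nb * x ^ (c / 2)) ^ 2) from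
      (Real.sqrt_sq (by positivity)).symm]
    refine Real.sqrt_le_sqrt ?_
    have : (nb * x ^ (c / 2)) ^ 2 = nb * (nb * x ^ c) := by
      rw [mul_pow, ← Real.rpow_natCast (x ^ (c / 2)), ← Real.rpow_mul hx0.le]
      have : c / 2 * ((2 : ℕ) : ℝ) = c := by push_cast; ring
      rw [this]
      ring
    rw [this]
    exact mul_le_mul_of_nonneg_left hH (by linarith)
  have e2 : x ^ (c / 2) * x ^ (-ρ) ≤ x ^ (-(ρ / 2)) := by
    rw [← Real.rpow_add hx0]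
    exact Real.rpow_le_rpow_of_exponent_le hx (by linarith)
  calc x * Real.sqrt (nb * H) * x ^ (-ρ) ≤ x * (nb * x ^ (c / 2)) * x ^ (-ρ) := by gcongr
    _ = nb * x * (x ^ (c / 2) * x ^ (-ρ)) := by ring
    _ ≤ nb * x * x ^ (-(ρ / 2)) := by gcongr

private theorem Cmb_fin (C : ℕ) (x nb L ρ N : ℝ) (hx : 3 ≤ x) (hnb : 1 ≤ nb) (hL : 5 ≤ L)
    (hLx : 3 * L ^ (C + 2) ≤ x ^ (ρ / 2)) (_hN0 : 0 ≤ N) (hN : N ≤ 2 * L + 1) :
    nb * x / L ^ (C + 1) + N * (nb * x / L ^ (C + 2) + nb * x * x ^ (-(ρ / 2))) ≤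
      nb * x / L ^ C := by
  have hx0 : 0 < x := by linarith
  have hL0 : 0 < L := by linarith
  have hN3 : N ≤ 3 * L := by linarith
  have e1 : x ^ (-(ρ / 2)) ≤ 1 / (3 * L ^ (C + 2)) := by
    rw [Real.rpow_neg hx0.le, ← one_div]
    exact one_div_le_one_div_of_le (by positivity) hLx
  have e2 : nb * x / L ^ (C + 2) + nb * x * x ^ (-(ρ / 2)) ≤ (4 / 3) * (nb * x / L ^ (C + 2)) := by
    have : nb * x * x ^ (-(ρ / 2)) ≤ nb * x * (1 / (3 * L ^ (C + 2))) := by gcongr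
    have e3 : nb * x * (1 / (3 * L ^ (C + 2))) = (1 / 3) * (nb * x / L ^ (C + 2)) := by
      field_simp
    rw [e3] at this
    linarith
  have e4 : N * (nb * x / L ^ (C + 2) + nb * x * x ^ (-(ρ / 2))) ≤
      (3 * L) * ((4 / 3) * (nb * x / L ^ (C + 2))) := by
    have : 0 ≤ nb * x / L ^ (C + 2) + nb * x * x ^ (-(ρ / 2)) := by positivity
    exact mul_le_mul hN3 e2 this (by positivity)
  have e5 : (3 * L) * ((4 / 3) * (nb * x / L ^ (C + 2))) = 4 * (nb * x / L ^ (C + 1)) := by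
    have : L ^ (C + 2) = L ^ (C + 1) * L := by rw [pow_succ]
    rw [this]
    field_simp
  have e6 : nb * x / L ^ C = L * (nb * x / L ^ (C + 1)) := by
    rw [pow_succ]
    field_simp
  rw [e6]
  have e7 : 0 ≤ nb * x / L ^ (C + 1) := by positivity
  have e8 : 5 * (nb * x / L ^ (C + 1)) ≤ L * (nb * x / L ^ (C + 1)) :=
    mul_le_mul_of_nonneg_right hL e7
  linarith

private theorem Cmb_log (x : ℕ) (hx : 3 ≤ x) : ((Nat.log 2 x + 1 : ℕ) : ℝ) ≤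
    2 * Real.log x + 1 := by
  have hx0 : (0 : ℝ) < x := by positivity
  have h1 : (2 : ℝ) ^ Nat.log 2 x ≤ x := by exact_mod_cast Nat.pow_log_le_self 2 (by omega)
  have h2 := Real.log_le_log (by positivity) h1
  rw [Real.log_pow] at h2
  have h3 : (1 / 2 : ℝ) ≤ Real.log 2 := by linarith [Real.log_two_gt_d9]
  have h4 : (Nat.log 2 x : ℝ) * (1 / 2) ≤ (Nat.log 2 x : ℝ) * Real.log 2 :=
    mul_le_mul_of_nonneg_left h3 (Nat.cast_nonneg _)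
  push_cast
  linarith

/-- a sum over large moduli as a sum over dyadic blocks -/
private theorem Cmb_dyadic (x : ℕ) (T : Finset ℕ) (hT : ∀ q ∈ T, 2 ≤ q ∧ q ≤ x) (f : ℕ → ℝ)
    (hf : ∀ q, 0 ≤ f q) (Z : ℝ) (hZ0 : 0 ≤ Z)
    (hZ : ∀ i : ℕ, (∃ q ∈ T, 2 ^ i < q ∧ q ≤ 2 * 2 ^ i) →
      ∑ q ∈ Ioc (2 ^ i) (2 * 2 ^ i), f q ≤ Z) :
    ∑ q ∈ T, f q ≤ ((Nat.log 2 x + 1 : ℕ) : ℝ) * Z := by
  classical
  set g : ℕ → ℕ := fun q => Nat.log 2 (q - 1) with hg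
  have hgr : ∀ q ∈ T, g q ∈ range (Nat.log 2 x + 1) := by
    intro q hq
    rw [mem_range]
    have := Nat.log_mono_right (b := 2) (show q - 1 ≤ x by have := (hT q hq).2; omega)
    rw [hg]
    show Nat.log 2 (q - 1) < Nat.log 2 x + 1
    omega
  have hgb : ∀ q ∈ T, 2 ^ g q < q ∧ q ≤ 2 * 2 ^ g q := by
    intro q hq
    have h2 := (hT q hq).1
    have h3 := Nat.pow_log_le_self 2 (show q - 1 ≠ 0 by omega)
    have h4 := Nat.lt_pow_succ_log_self (b := 2) (by norm_num) (q - 1)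
    rw [pow_succ] at h4
    constructor
    · show 2 ^ Nat.log 2 (q - 1) < q
      omega
    · show q ≤ 2 * 2 ^ Nat.log 2 (q - 1)
      omega
  rw [← sum_fiberwise_of_maps_to hgr]
  calc ∑ i ∈ range (Nat.log 2 x + 1), ∑ q ∈ T with g q = i, f q
      ≤ ∑ i ∈ range (Nat.log 2 x + 1), Z := by
        refine sum_le_sum fun i _ => ?_
        by_cases hi : ∃ q ∈ T, 2 ^ i < q ∧ q ≤ 2 * 2 ^ i
        · refine le_trans (sum_le_sum_of_subset_of_nonneg ?_ fun q _ _ => hf q) (hZ i hi)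
          intro q hq
          obtain ⟨h1, h2⟩ := mem_filter.1 hq
          have := hgb q h1
          rw [h2] at this
          exact mem_Ioc.2 this
        · have : T.filter (fun q => g q = i) = ∅ := by
            refine filter_eq_empty_iff.2 fun q hq h2 => hi ⟨q, hq, ?_⟩
            have := hgb q hq
            rwa [h2] at this
          rw [this, sum_empty]
          exact hZ0
    _ = ((Nat.log 2 x + 1 : ℕ) : ℝ) * Z := by rw [sum_const, card_range, nsmul_eq_mul]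

private theorem Cmb_block (x ε1 κ q Q H : ℝ) (hx : 1 ≤ x) (hq : Q < q) (hq2 : q ≤ 2 * Q)
    (hqθ : q ≤ x ^ (1 - κ)) (hqH : x ^ (1 + ε1) ≤ q * H) (hH : 0 ≤ H)
    (h2 : 2 ≤ x ^ (ε1 / 2)) : Q ≤ x ^ (1 - κ) ∧ x ^ (1 + ε1 / 2) ≤ Q * H := by
  refine ⟨by linarith, ?_⟩
  have hx0 : 0 < x := by linarith
  have e1 : x ^ (1 + ε1) = x ^ (1 + ε1 / 2) * x ^ (ε1 / 2) := by
    rw [← Real.rpow_add hx0]
    congr 1
    ring
  have e2 : q * H ≤ 2 * (Q * H) := by nlinarith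
  have e3 : x ^ (1 + ε1 / 2) * 2 ≤ x ^ (1 + ε1 / 2) * x ^ (ε1 / 2) :=
    mul_le_mul_of_nonneg_left h2 (Real.rpow_nonneg hx0.le _)
  linarith

private theorem Cmb_one (x ε1 q H : ℝ) (hx : 1 < x) (hε1 : 0 < ε1) (hH : H ≤ x)
    (hqH : x ^ (1 + ε1) ≤ q * H) (hq : q ≤ 1) (hH0 : 0 ≤ H) : False := by
  have e1 : x ^ (1 : ℝ) < x ^ (1 + ε1) := Real.rpow_lt_rpow_of_exponent_lt hx (by linarith)
  rw [Real.rpow_one] at e1
  have e2 : q * H ≤ 1 * H := mul_le_mul_of_nonneg_right hq hH0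
  linarith

theorem sel_all (θ ε : ℝ) (hθ : θ < 1) (hε : 0 < ε) : ∃ c : ℝ, 0 < c ∧ ∀ C : ℕ, ∃ x0 : ℕ,
    ∀ x : ℕ, x0 ≤ x → ∀ y H a0 nb : ℕ, y ≤ x → a0 ≤ x → H ≤ x → 1 ≤ nb →
      (H : ℝ) ≤ nb * (x : ℝ) ^ c →
      ∀ S : ℕ → Finset ℕ, (∀ q, S q ⊆ Ioc a0 (a0 + H)) → (∀ q, (S q).card ≤ nb) →
      ∑ q ∈ MM θ ε x H, ∑ a ∈ (S q).filter (fun a => Nat.Coprime a q), |err y q (a : ZMod q)|
          ≤ nb * x / Real.log x ^ C := by
  classical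
  set ε1 : ℝ := min ε (min (1 / 2) (1 - θ)) with hε1
  have h10 : 0 < ε1 := lt_min hε (lt_min (by norm_num) (by linarith))
  have h11 : ε1 ≤ ε := min_le_left _ _
  have h12 : ε1 ≤ 1 / 2 := (min_le_right _ _).trans (min_le_left _ _)
  have h13 : ε1 ≤ 1 - θ := (min_le_right _ _).trans (min_le_right _ _)
  obtain ⟨ρ, hρ, hrg2⟩ := rg2 (1 - θ) (ε1 / 2) (by linarith) (by linarith)
  refine ⟨min ρ (ε1 / 100), lt_min hρ (by linarith), fun C => ?_⟩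
  obtain ⟨x1, hx1⟩ := rg1 θ ε1 hθ h10 h12 h13 (C + 1)
  obtain ⟨x2, hx2⟩ := hrg2 (C + 2)
  obtain ⟨x3, hx3⟩ := Cmb_num C ρ ε1 hρ h10
  refine ⟨max x1 (max x2 x3), fun x hx y H a0 nb hy ha0 hHx hnb hH S hS1 hS2 => ?_⟩
  have hx1' : x1 ≤ x := (le_max_left _ _).trans hx
  have hx2' : x2 ≤ x := ((le_max_left _ _).trans (le_max_right _ _)).trans hx
  have hx3' : x3 ≤ x := ((le_max_right _ _).trans (le_max_right _ _)).trans hx
  obtain ⟨b1, b2, b3, b4⟩ := hx3 x hx3'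
  have hxr : (3 : ℝ) ≤ x := by exact_mod_cast b1
  have hx1r : (1 : ℝ) ≤ x := by linarith
  have hnbr : (1 : ℝ) ≤ nb := by exact_mod_cast hnb
  set f : ℕ → ℝ := fun q => ∑ a ∈ (S q).filter (fun a => Nat.Coprime a q),
    |err y q (a : ZMod q)| with hf
  have hf0 : ∀ q, 0 ≤ f q := fun q => sum_nonneg fun a _ => abs_nonneg _
  set M1 := (Icc 1 ⌊(x : ℝ) ^ θ⌋₊).filter (fun q : ℕ => (q : ℝ) ^ 2 ≤ H * (x : ℝ) ^ (1 - ε1))
    with hM1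
  set M2 := (Icc 1 ⌊(x : ℝ) ^ θ⌋₊).filter (fun q : ℕ => (x : ℝ) ^ (1 + ε1) ≤ q * H) with hM2
  have hsub : MM θ ε x H ⊆ M1 ∪ M2 := by
    intro q hq
    obtain ⟨hq1, hq2⟩ := mem_filter.1 hq
    rw [mem_union]
    rcases hq2 with hq2 | hq2
    · left
      refine mem_filter.2 ⟨hq1, hq2.trans ?_⟩
      have := Real.rpow_le_rpow_of_exponent_le hx1r (show 1 - ε ≤ 1 - ε1 by linarith)
      exact mul_le_mul_of_nonneg_left this (Nat.cast_nonneg _)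
    · right
      refine mem_filter.2 ⟨hq1, le_trans ?_ hq2⟩
      exact Real.rpow_le_rpow_of_exponent_le hx1r (by linarith)
  have hqx : ∀ q ∈ Icc 1 ⌊(x : ℝ) ^ θ⌋₊, (q : ℝ) ≤ (x : ℝ) ^ θ := by
    intro q hq
    exact (Nat.le_floor_iff (Real.rpow_nonneg (by linarith) _)).1 (mem_Icc.1 hq).2
  have hsum1 : ∑ q ∈ M1, f q ≤ nb * x / Real.log x ^ (C + 1) := by
    refine hx1 x hx1' y H a0 nb hy hnb (hH.trans ?_) S hS1 hS2
    have := Real.rpow_le_rpow_of_exponent_le hx1r (min_le_right ρ (ε1 / 100))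
    exact mul_le_mul_of_nonneg_left this (Nat.cast_nonneg _)
  have hsum2 : ∑ q ∈ M2, f q ≤ ((Nat.log 2 x + 1 : ℕ) : ℝ) *
      (nb * x / Real.log x ^ (C + 2) + nb * x * (x : ℝ) ^ (-(ρ / 2))) := by
    refine Cmb_dyadic x M2 ?_ f hf0 _ (by positivity) ?_
    · intro q hq
      obtain ⟨hq1, hq2⟩ := mem_filter.1 hq
      constructor
      · by_contra hcon
        push Not at hcon
        have hq3 : (q : ℝ) ≤ 1 := by exact_mod_cast (by omega : q ≤ 1)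
        exact Cmb_one x ε1 q H (by linarith) h10 (by exact_mod_cast hHx) hq2 hq3
          (Nat.cast_nonneg _)
      · have h5 := hqx q hq1
        have h6 : (x : ℝ) ^ θ ≤ (x : ℝ) ^ (1 : ℝ) :=
          Real.rpow_le_rpow_of_exponent_le hx1r hθ.le
        rw [Real.rpow_one] at h6
        exact_mod_cast h5.trans h6
    · rintro i ⟨q, hq, hqi1, hqi2⟩
      obtain ⟨hq1, hq2⟩ := mem_filter.1 hq
      have hqi1' : (((2 ^ i : ℕ)) : ℝ) < q := by exact_mod_cast hqi1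
      have hqi2' : (q : ℝ) ≤ 2 * ((2 ^ i : ℕ) : ℝ) := by exact_mod_cast hqi2
      obtain ⟨h5, h6⟩ := Cmb_block x ε1 (1 - θ) q ((2 ^ i : ℕ) : ℝ) H hx1r hqi1' hqi2'
        (by rw [sub_sub_cancel]; exact hqx q hq1) hq2 (Nat.cast_nonneg _) b4
      have h7 := hx2 x hx2' y (2 ^ i) H a0 nb hy Nat.one_le_two_pow h5 h6 hHx ha0 S hS1 hS2
      refine h7.trans (add_le_add le_rfl ?_)
      exact Cmb_sqrt x nb H _ ρ hx1r hnbr hH (min_le_left _ _)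
  have hlog := Cmb_log x b1
  have hfin := Cmb_fin C x nb (Real.log x) ρ ((Nat.log 2 x + 1 : ℕ) : ℝ) hxr hnbr b2 b3
    (Nat.cast_nonneg _) hlog
  calc ∑ q ∈ MM θ ε x H, f q ≤ ∑ q ∈ M1 ∪ M2, f q :=
        sum_le_sum_of_subset_of_nonneg hsub fun q _ _ => hf0 q
    _ ≤ ∑ q ∈ M1, f q + ∑ q ∈ M2, f q := by
        rw [← sum_union_inter]
        exact le_add_of_nonneg_right (sum_nonneg fun q _ => hf0 q)
    _ ≤ _ := (add_le_add hsum1 hsum2).trans hfin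

end Pool.Agent.H65.MS
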