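import Pool.Agent.H65.MS.Defs
import Pool.Agent.H92.EH.Ramanujan

/-!
# MS CutA: blocks, `RS` as an exponential sum, geometric sums over Farey differences

* `blk_eq`: for `jY < n ≤ (j+1)Y` (`Y ≥ 1`): `(n-1)/Y = j` (`Nat.div_eq_of_lt_le`).
* `RS_eq`: for `d ≥ 1` the Ramanujan sum `ram d m` (real, definition in `KF.Defs`) is `∑_{c ∈ red d} ee(m c/d)`:
  compare `Pool.Agent.H92.EH.ram_eq` (with `Pool.Agent.H92.EH.e t = ee t`, both are `exp(2 π i t)`) with the definition of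
  `KF.ram` (`Nat.sum_divisorsAntidiagonal'` turns the sum over pairs into the sum over divisors; the filter is an `if`).
* `abs_ram_le'`: `|ram d m| ≤ #red d ≤ d`.  `abs_RS_le`: `∑_{d ≤ R} d ≤ R^2`.
* `abs_gc_le`: `|fs| ≤ (1/Y) ∑_{m ∈ blk} |f m| |RS| ≤ R^2`, `#blk = Y`.
* `geo`: for distinct fractions `c/d ≠ c'/d'`, `d, d' ≤ R`, the distance of `θ = c/d - c'/d'` to every integer is `≥ 1/R^2`
  (`farey_spacing`), so `|∑_{u < n ≤ v} ee(n θ)| ≤ 2/|ee θ - 1| = 1/|sin π θ| ≤ R^2/2 ≤ R^2` (geometric series; `|sin π θ| ≥ 2 ‖θ‖`).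
* `geo2`: the same for `θ = q c/d`, `d ∤ q`, `c ∈ red d`: the distance to every integer is `≥ 1/d`.
  (Both follow from `geo0`: if `δ ≤ |θ - k|` for all integers `k`, `0 < δ`, then the sum is at most `1/δ`.)
-/

set_option autoImplicit false

namespace Pool.Agent.H65.MS

open Finset
open Pool.Agent.H91.PK (ee)
open Pool.Agent.H92.EH (red)
open Pool.Agent.H80.KF (ram uu)

private theorem CutA_e_ee (t : ℝ) : Pool.Agent.H92.EH.e t = ee t := by
  unfold Pool.Agent.H92.EH.e ee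
  congr 1
  push_cast
  ring

theorem blk_eq (Y j n : ℕ) (hY : 1 ≤ Y) (hn : n ∈ Ioc (j * Y) (j * Y + Y)) :
    blk Y n = Ioc (j * Y) (j * Y + Y) := by
  rw [mem_Ioc] at hn
  have h1 : (n - 1) / Y = j := by
    apply Nat.div_eq_of_lt_le
    · omega
    · rw [add_mul, one_mul]
      omega
  unfold blk
  rw [h1]

theorem card_blk (Y n : ℕ) : (blk Y n).card = Y := by
  unfold blk
  rw [Nat.card_Ioc]
  omega

theorem ram_ee (d : ℕ) (hd : 1 ≤ d) (m : ℤ) :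
    ((ram d m : ℝ) : ℂ) = ∑ c ∈ red d, ee ((m : ℝ) * ((c : ℝ) / d)) := by
  have h1 : ∑ c ∈ red d, ee ((m : ℝ) * ((c : ℝ) / d)) = Pool.Agent.H92.EH.ram d m := by
    unfold Pool.Agent.H92.EH.ram
    refine Finset.sum_congr rfl fun c _ => ?_
    rw [CutA_e_ee]
  rw [h1, Pool.Agent.H92.EH.ram_eq d (by omega) m]
  rw [Nat.sum_divisorsAntidiagonal' (f := fun a b : ℕ =>
    ((ArithmeticFunction.moebius a : ℤ) : ℂ) * (if ((b : ℕ) : ℤ) ∣ m then (b : ℂ) else 0))]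
  unfold ram
  rw [Finset.sum_filter]
  push_cast
  refine Finset.sum_congr rfl fun x _ => ?_
  split_ifs
  · push_cast
    ring
  · simp

theorem abs_ram_le' (d : ℕ) (hd : 1 ≤ d) (m : ℤ) : |ram d m| ≤ (d : ℝ) := by
  have h1 : |ram d m| = ‖((ram d m : ℝ) : ℂ)‖ := by
    rw [Complex.norm_real, Real.norm_eq_abs]
  rw [h1, ram_ee d hd m]
  refine (norm_sum_le _ _).trans ?_
  simp only [Pool.Agent.H91.PK.LSa_norm_ee, sum_const, nsmul_eq_mul, mul_one]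
  rw [Pool.Agent.H92.EH.card_red]
  exact_mod_cast Nat.totient_le d

theorem RS_eq (R : ℕ) (m : ℤ) :
    ((RS R m : ℝ) : ℂ) = ∑ d ∈ Icc 1 R, ∑ c ∈ red d, ee ((m : ℝ) * ((c : ℝ) / d)) := by
  unfold RS
  rw [Complex.ofReal_sum]
  refine Finset.sum_congr rfl fun d hd => ?_
  rw [mem_Icc] at hd
  exact ram_ee d hd.1 m

theorem abs_RS_le (R : ℕ) (m : ℤ) : |RS R m| ≤ (R : ℝ) ^ 2 := by
  unfold RS
  refine (Finset.abs_sum_le_sum_abs _ _).trans ?_
  have h1 : ∀ d ∈ Icc 1 R, |ram d m| ≤ (R : ℝ) := by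
    intro d hd
    rw [mem_Icc] at hd
    refine (abs_ram_le' d hd.1 m).trans ?_
    exact_mod_cast hd.2
  refine (Finset.sum_le_sum h1).trans ?_
  rw [Finset.sum_const, Nat.card_Icc, nsmul_eq_mul]
  apply le_of_eq
  rw [Nat.add_sub_cancel]
  ring

theorem abs_gc_le (R Y : ℕ) (hY : 1 ≤ Y) (f : ℕ → ℝ) (hf : ∀ n, |f n| ≤ 1) (n : ℕ) :
    |gc R Y f n| ≤ 1 + (R : ℝ) ^ 2 := by
  have hY0 : (0 : ℝ) < Y := by exact_mod_cast hY
  have h1 : |fs R Y f n| ≤ (R : ℝ) ^ 2 := by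
    unfold fs
    rw [abs_mul, abs_of_nonneg (by positivity : (0 : ℝ) ≤ 1 / (Y : ℝ))]
    have h2 : |∑ m ∈ blk Y n, f m * RS R ((m : ℤ) - n)| ≤ (Y : ℝ) * (R : ℝ) ^ 2 := by
      refine (Finset.abs_sum_le_sum_abs _ _).trans ?_
      have h3 : ∀ m ∈ blk Y n, |f m * RS R ((m : ℤ) - n)| ≤ (R : ℝ) ^ 2 := by
        intro m _
        rw [abs_mul]
        calc |f m| * |RS R ((m : ℤ) - n)| ≤ 1 * (R : ℝ) ^ 2 :=
              mul_le_mul (hf m) (abs_RS_le R _) (abs_nonneg _) (by norm_num)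
          _ = (R : ℝ) ^ 2 := one_mul _
      refine (Finset.sum_le_sum h3).trans ?_
      rw [Finset.sum_const, card_blk, nsmul_eq_mul]
    calc 1 / (Y : ℝ) * |∑ m ∈ blk Y n, f m * RS R ((m : ℤ) - n)|
        ≤ 1 / (Y : ℝ) * ((Y : ℝ) * (R : ℝ) ^ 2) := mul_le_mul_of_nonneg_left h2 (by positivity)
      _ = (R : ℝ) ^ 2 := by field_simp
  unfold gc
  calc |f n - fs R Y f n| ≤ |f n| + |fs R Y f n| := abs_sub _ _
    _ ≤ 1 + (R : ℝ) ^ 2 := add_le_add (hf n) h1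

private theorem CutA_ee_int (k : ℤ) : ee (k : ℝ) = 1 := by
  unfold ee
  rw [← Complex.exp_int_mul_two_pi_mul_I k]
  congr 1
  push_cast
  ring

private theorem CutA_ee_nat (n : ℕ) (θ : ℝ) : ee ((n : ℝ) * θ) = ee θ ^ n := by
  induction n with
  | zero => simp [ee]
  | succ n ih =>
    rw [pow_succ, ← ih, ← Pool.Agent.H91.PK.LSa_ee_add]
    congr 1
    push_cast
    ring

private theorem CutA_sub_one (θ δ : ℝ) (h : ∀ k : ℤ, δ ≤ |θ - k|) : 4 * δ ≤ ‖ee θ - 1‖ := by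
  obtain ⟨t, ht⟩ : ∃ t : ℝ, t = θ - round θ := ⟨_, rfl⟩
  have h1 : ee θ = ee t := by
    have : θ = t + ((round θ : ℤ) : ℝ) := by rw [ht]; ring
    rw [this, Pool.Agent.H91.PK.LSa_ee_add, CutA_ee_int, mul_one]
  have h2 : |t| ≤ 1 / 2 := by rw [ht]; exact abs_sub_round θ
  have h3 : δ ≤ |t| := by rw [ht]; exact h (round θ)
  have h4 : ee t = Complex.exp (Complex.I * ((2 * Real.pi * t : ℝ) : ℂ)) := by
    unfold ee
    congr 1
    push_cast
    ring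
  rw [h1, h4, Complex.norm_exp_I_mul_ofReal_sub_one]
  have h5 : 2 * Real.pi * t / 2 = Real.pi * t := by ring
  rw [h5, Real.norm_eq_abs, abs_mul, abs_of_pos (by norm_num : (0 : ℝ) < 2)]
  have hpi := Real.pi_pos
  have h6 : |Real.sin (Real.pi * t)| = Real.sin (Real.pi * |t|) := by
    rcases le_total 0 t with h0 | h0
    · rw [abs_of_nonneg h0]
      apply abs_of_nonneg
      apply Real.sin_nonneg_of_nonneg_of_le_pi (by positivity)
      rw [abs_of_nonneg h0] at h2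
      nlinarith
    · rw [abs_of_nonpos h0, mul_neg, Real.sin_neg]
      apply abs_of_nonpos
      apply Real.sin_nonpos_of_nonpos_of_neg_pi_le
      · nlinarith
      · rw [abs_of_nonpos h0] at h2
        nlinarith
  rw [h6]
  have h7 : 2 / Real.pi * (Real.pi * |t|) ≤ Real.sin (Real.pi * |t|) := by
    apply Real.mul_le_sin (by positivity)
    nlinarith
  have h8 : 2 / Real.pi * (Real.pi * |t|) = 2 * |t| := by
    field_simp
  rw [h8] at h7
  linarith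

theorem geo0 (θ δ : ℝ) (hδ : 0 < δ) (h : ∀ k : ℤ, δ ≤ |θ - k|) (u v : ℕ) :
    ‖∑ n ∈ Ioc u v, ee ((n : ℝ) * θ)‖ ≤ 1 / δ := by
  have h1 := CutA_sub_one θ δ h
  have h2 : 0 < ‖ee θ - 1‖ := by linarith
  have hIoc : Ioc u v = Ico (u + 1) (v + 1) := by
    ext n
    rw [mem_Ioc, mem_Ico]
    omega
  have h3 : ∑ n ∈ Ioc u v, ee ((n : ℝ) * θ) =
      ee θ ^ (u + 1) * ∑ i ∈ range (v + 1 - (u + 1)), ee θ ^ i := by
    rw [hIoc, Finset.sum_Ico_eq_sum_range, Finset.mul_sum]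
    refine Finset.sum_congr rfl fun i _ => ?_
    rw [CutA_ee_nat, pow_add]
  obtain ⟨n, hn⟩ : ∃ n, n = v + 1 - (u + 1) := ⟨_, rfl⟩
  rw [← hn] at h3
  have hnorm : ‖ee θ‖ = 1 := Pool.Agent.H91.PK.LSa_norm_ee θ
  rw [h3, norm_mul, norm_pow, hnorm, one_pow, one_mul]
  have h4 : (∑ i ∈ range n, ee θ ^ i) * (ee θ - 1) = ee θ ^ n - 1 := geom_sum_mul _ _
  have h5 : ‖∑ i ∈ range n, ee θ ^ i‖ * ‖ee θ - 1‖ ≤ 2 := by
    rw [← norm_mul, h4]
    refine (norm_sub_le _ _).trans ?_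
    rw [norm_pow, hnorm, one_pow, norm_one]
    norm_num
  have h6 : ‖∑ i ∈ range n, ee θ ^ i‖ * (4 * δ) ≤ 2 :=
    (mul_le_mul_of_nonneg_left h1 (norm_nonneg _)).trans h5
  rw [le_div_iff₀ hδ]
  linarith

theorem geo (R d d' c c' : ℕ) (hd : d ∈ Icc 1 R) (hd' : d' ∈ Icc 1 R) (hc : c ∈ red d)
    (hc' : c' ∈ red d') (hne : ¬ (d = d' ∧ c = c')) (u v : ℕ) :
    ‖∑ n ∈ Ioc u v, ee ((n : ℝ) * ((c : ℝ) / d - (c' : ℝ) / d'))‖ ≤ (R : ℝ) ^ 2 := by
  rw [mem_Icc] at hd hd'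
  have hR : (0 : ℝ) < R := by
    have : 0 < R := by omega
    exact_mod_cast this
  have h1 := geo0 ((c : ℝ) / d - (c' : ℝ) / d') (1 / (R : ℝ) ^ 2) (by positivity) ?_ u v
  · rw [one_div_one_div] at h1
    exact h1
  · intro k
    refine le_trans ?_ (Pool.Agent.H92.EH.farey_spacing (by omega) (by omega) hc hc' hne k)
    have e1 : (0 : ℝ) < d := by exact_mod_cast hd.1
    have e2 : (0 : ℝ) < d' := by exact_mod_cast hd'.1
    have e3 : (d : ℝ) ≤ R := by exact_mod_cast hd.2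
    have e4 : (d' : ℝ) ≤ R := by exact_mod_cast hd'.2
    apply one_div_le_one_div_of_le (by positivity)
    calc (d : ℝ) * d' ≤ R * R := mul_le_mul e3 e4 e2.le hR.le
      _ = (R : ℝ) ^ 2 := by ring

theorem geo2 (q d c : ℕ) (hd : 1 ≤ d) (hc : c ∈ red d) (hq : ¬ d ∣ q) (u v : ℕ) :
    ‖∑ n ∈ Ioc u v, ee ((n : ℝ) * ((q : ℝ) * ((c : ℝ) / d)))‖ ≤ d := by
  have hd0 : (0 : ℝ) < d := by exact_mod_cast hd
  have h1 := geo0 ((q : ℝ) * ((c : ℝ) / d)) (1 / (d : ℝ)) (by positivity) ?_ u v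
  · rw [one_div_one_div] at h1
    exact h1
  · intro k
    have h2 : (q : ℝ) * ((c : ℝ) / d) - k = (((q : ℤ) * c - k * d : ℤ) : ℝ) / d := by
      push_cast
      field_simp
    rw [h2, abs_div, abs_of_pos hd0]
    apply div_le_div_of_nonneg_right _ hd0.le
    have h3 : (q : ℤ) * c - k * d ≠ 0 := by
      intro h0
      apply hq
      rw [Pool.Agent.H92.EH.mem_red] at hc
      have h4 : (d : ℤ) ∣ (q : ℤ) * c := ⟨k, by linarith⟩
      have h5 : d ∣ q * c := by exact_mod_cast h4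
      exact (Nat.Coprime.dvd_of_dvd_mul_right hc.2.symm h5)
    have h6 : (1 : ℤ) ≤ |(q : ℤ) * c - k * d| := Int.one_le_abs h3
    exact_mod_cast h6

end Pool.Agent.H65.MS
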