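import Pool.Agent.H65.MS.CutA

/-!
# MS CutB: the cut function is orthogonal to the small frequencies

Let `|f| ≤ 1`, `d ≤ R`, `c ∈ red d`, `e_{c/d}(n) = ee(n (c/d))`.
* `blk_sum`: on a block `b = (jY, (j+1)Y]`, by `blk_eq` and `RS_eq`,
  `∑_{n ∈ b} fs(n) ee(n c/d) = (1/Y) ∑_{m ∈ b} f(m) ∑_{d' ≤ R} ∑_{c' ∈ red d'} ee(m c'/d') ∑_{n ∈ b} ee(n (c/d - c'/d'))`.
  The pair `(d', c') = (d, c)` gives `(1/Y) ∑ f(m) ee(m c/d) Y`, which cancels `∑_{n ∈ b} f(n) ee(n c/d)`; the other at most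
  `∑_{d' ≤ R} φ(d') ≤ R^2` pairs give at most `(1/Y) Y R^2 R^2 = R^4` (`geo`).
* `par_sum`: `u ≤ J Y`: the `j < u/Y ≤ J` full blocks cost `R^4` each, the last incomplete block at most
  `Y (1 + R^2)` (`abs_gc_le`).
-/

set_option autoImplicit false

namespace Pool.Agent.H65.MS

open Finset
open Pool.Agent.H91.PK (ee)
open Pool.Agent.H92.EH (red)

private def CutB_Fr (R : ℕ) : Finset (Σ _ : ℕ, ℕ) := (Icc 1 R).sigma red

private theorem CutB_card (R : ℕ) : ((CutB_Fr R).card : ℝ) ≤ (R : ℝ) ^ 2 := by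
  unfold CutB_Fr
  rw [Finset.card_sigma]
  push_cast
  calc ∑ d ∈ Icc 1 R, ((red d).card : ℝ) ≤ ∑ d ∈ Icc 1 R, (R : ℝ) := by
        apply Finset.sum_le_sum
        intro d hd
        rw [Finset.mem_Icc] at hd
        have h1 : (red d).card ≤ d := by
          unfold red
          exact (Finset.card_filter_le _ _).trans (by simp)
        exact_mod_cast h1.trans hd.2
    _ = (R : ℝ) ^ 2 := by
        rw [Finset.sum_const, Nat.card_Icc, nsmul_eq_mul]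
        simp [sq]

/-- the value of a fraction -/
private noncomputable def CutB_v (α : Σ _ : ℕ, ℕ) : ℝ := (α.2 : ℝ) / α.1

private theorem CutB_RS (R : ℕ) (m : ℤ) :
    ((RS R m : ℝ) : ℂ) = ∑ α ∈ CutB_Fr R, ee ((m : ℝ) * CutB_v α) := by
  rw [RS_eq]
  unfold CutB_Fr
  rw [Finset.sum_sigma]
  rfl

private theorem CutB_fs (R Y j : ℕ) (hY : 1 ≤ Y) (f : ℕ → ℝ) (θ : ℝ) :
    ∑ n ∈ Ioc (j * Y) (j * Y + Y), ((fs R Y f n : ℝ) : ℂ) * ee ((n : ℝ) * θ) =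
      (1 / (Y : ℂ)) * ∑ α ∈ CutB_Fr R,
        (∑ m ∈ Ioc (j * Y) (j * Y + Y), (f m : ℂ) * ee ((m : ℝ) * CutB_v α)) *
          ∑ n ∈ Ioc (j * Y) (j * Y + Y), ee ((n : ℝ) * (θ - CutB_v α)) := by
  have h1 : ∀ n ∈ Ioc (j * Y) (j * Y + Y), ((fs R Y f n : ℝ) : ℂ) * ee ((n : ℝ) * θ) =
      (1 / (Y : ℂ)) * ∑ α ∈ CutB_Fr R, ∑ m ∈ Ioc (j * Y) (j * Y + Y),
        (f m : ℂ) * ee ((m : ℝ) * CutB_v α) * ee ((n : ℝ) * (θ - CutB_v α)) := by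
    intro n hn
    unfold fs
    rw [blk_eq Y j n hY hn]
    push_cast
    rw [mul_assoc, Finset.sum_mul, Finset.sum_comm]
    congr 1
    refine Finset.sum_congr rfl fun m _ => ?_
    rw [CutB_RS, Finset.mul_sum, Finset.sum_mul]
    refine Finset.sum_congr rfl fun α _ => ?_
    rw [mul_assoc, mul_assoc, ← Pool.Agent.H91.PK.LSa_ee_add, ← Pool.Agent.H91.PK.LSa_ee_add]
    congr 2
    push_cast
    ring
  rw [Finset.sum_congr rfl h1, ← Finset.mul_sum]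
  congr 1
  rw [Finset.sum_comm]
  refine Finset.sum_congr rfl fun α _ => ?_
  rw [Finset.sum_mul, Finset.sum_comm]
  refine Finset.sum_congr rfl fun m _ => ?_
  rw [Finset.mul_sum]

private theorem CutB_ee_zero : ee 0 = 1 := by
  unfold ee
  simp

theorem blk_sum (R Y j : ℕ) (hY : 1 ≤ Y) (f : ℕ → ℝ) (hf : ∀ n, |f n| ≤ 1) (d c : ℕ)
    (hd : d ∈ Icc 1 R) (hc : c ∈ red d) :
    ‖∑ n ∈ Ioc (j * Y) (j * Y + Y), (gc R Y f n : ℂ) * ee ((n : ℝ) * ((c : ℝ) / d))‖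
      ≤ (R : ℝ) ^ 4 := by
  have hY0 : (Y : ℂ) ≠ 0 := by
    have : Y ≠ 0 := by omega
    exact_mod_cast this
  have hYr : (0 : ℝ) < Y := by exact_mod_cast hY
  obtain ⟨b, hb⟩ : ∃ b : Finset ℕ, b = Ioc (j * Y) (j * Y + Y) := ⟨_, rfl⟩
  obtain ⟨G, hG⟩ : ∃ G : (Σ _ : ℕ, ℕ) → ℂ, ∀ α, G α = ∑ m ∈ b, (f m : ℂ) * ee ((m : ℝ) * CutB_v α) :=
    ⟨_, fun _ => rfl⟩
  obtain ⟨S, hS⟩ : ∃ S : (Σ _ : ℕ, ℕ) → ℂ, ∀ α, S α =
      ∑ n ∈ b, ee ((n : ℝ) * ((c : ℝ) / d - CutB_v α)) := ⟨_, fun _ => rfl⟩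
  have h1 := CutB_fs R Y j hY f ((c : ℝ) / d)
  rw [← hb] at h1 ⊢
  simp only [← hG, ← hS] at h1
  have hα0 : (⟨d, c⟩ : Σ _ : ℕ, ℕ) ∈ CutB_Fr R := by
    unfold CutB_Fr
    rw [Finset.mem_sigma]
    exact ⟨hd, hc⟩
  have hcardb : b.card = Y := by rw [hb, Nat.card_Ioc]; omega
  have hS0 : S ⟨d, c⟩ = Y := by
    rw [hS]
    have : ∀ n ∈ b, ee ((n : ℝ) * ((c : ℝ) / d - CutB_v ⟨d, c⟩)) = 1 := by
      intro n _
      unfold CutB_v
      simp only [sub_self, mul_zero]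
      exact CutB_ee_zero
    rw [Finset.sum_congr rfl this, Finset.sum_const, hcardb, nsmul_eq_mul, mul_one]
  have hsum : ∑ n ∈ b, (gc R Y f n : ℂ) * ee ((n : ℝ) * ((c : ℝ) / d)) =
      -((1 / (Y : ℂ)) * ∑ α ∈ (CutB_Fr R).erase ⟨d, c⟩, G α * S α) := by
    have e1 : ∀ n ∈ b, (gc R Y f n : ℂ) * ee ((n : ℝ) * ((c : ℝ) / d)) =
        (f n : ℂ) * ee ((n : ℝ) * ((c : ℝ) / d)) - ((fs R Y f n : ℝ) : ℂ) * ee ((n : ℝ) * ((c : ℝ) / d)) := by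
      intro n _
      unfold gc
      push_cast
      ring
    rw [Finset.sum_congr rfl e1, Finset.sum_sub_distrib, h1, ← Finset.add_sum_erase _ _ hα0, hS0]
    have e2 : G ⟨d, c⟩ = ∑ n ∈ b, (f n : ℂ) * ee ((n : ℝ) * ((c : ℝ) / d)) := hG _
    rw [← e2]
    field_simp
    ring
  rw [hsum, norm_neg, norm_mul]
  have hYn : ‖(1 / (Y : ℂ))‖ = 1 / (Y : ℝ) := by
    rw [norm_div, norm_one, Complex.norm_natCast]
  rw [hYn]
  have hterm : ∀ α ∈ (CutB_Fr R).erase ⟨d, c⟩, ‖G α * S α‖ ≤ Y * (R : ℝ) ^ 2 := by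
    rintro ⟨d', c'⟩ hα
    rw [Finset.mem_erase] at hα
    obtain ⟨hne, hα⟩ := hα
    unfold CutB_Fr at hα
    rw [Finset.mem_sigma] at hα
    obtain ⟨hd', hc'⟩ := hα
    rw [norm_mul]
    apply mul_le_mul _ _ (norm_nonneg _) hYr.le
    · rw [hG]
      refine (norm_sum_le _ _).trans ?_
      have e3 : ∀ m ∈ b, ‖(f m : ℂ) * ee ((m : ℝ) * CutB_v ⟨d', c'⟩)‖ ≤ 1 := by
        intro m _
        rw [norm_mul, Pool.Agent.H91.PK.LSa_norm_ee, mul_one, Complex.norm_real]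
        exact hf m
      refine (Finset.sum_le_sum e3).trans (le_of_eq ?_)
      rw [Finset.sum_const, hcardb, nsmul_eq_mul, mul_one]
    · rw [hS, hb]
      refine geo R d d' c c' hd hd' hc hc' ?_ _ _
      rintro ⟨rfl, rfl⟩
      exact hne rfl
  have hsum2 : ‖∑ α ∈ (CutB_Fr R).erase ⟨d, c⟩, G α * S α‖ ≤ (R : ℝ) ^ 2 * (Y * (R : ℝ) ^ 2) := by
    refine (norm_sum_le _ _).trans ((Finset.sum_le_sum hterm).trans ?_)
    rw [Finset.sum_const, nsmul_eq_mul]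
    apply mul_le_mul_of_nonneg_right _ (by positivity)
    refine le_trans ?_ (CutB_card R)
    exact_mod_cast Finset.card_erase_le
  calc 1 / (Y : ℝ) * ‖∑ α ∈ (CutB_Fr R).erase ⟨d, c⟩, G α * S α‖
      ≤ 1 / (Y : ℝ) * ((R : ℝ) ^ 2 * (Y * (R : ℝ) ^ 2)) :=
        mul_le_mul_of_nonneg_left hsum2 (by positivity)
    _ = (R : ℝ) ^ 4 := by
        field_simp

private theorem CutB_full (R Y : ℕ) (hY : 1 ≤ Y) (f : ℕ → ℝ) (hf : ∀ n, |f n| ≤ 1) (d c : ℕ)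
    (hd : d ∈ Icc 1 R) (hc : c ∈ red d) (k : ℕ) :
    ‖∑ n ∈ Ioc 0 (k * Y), (gc R Y f n : ℂ) * ee ((n : ℝ) * ((c : ℝ) / d))‖ ≤ k * (R : ℝ) ^ 4 := by
  induction k with
  | zero => simp
  | succ k ih =>
    have e1 : (k + 1) * Y = k * Y + Y := by ring
    rw [e1, ← Finset.sum_Ioc_consecutive _ (Nat.zero_le (k * Y)) (Nat.le_add_right (k * Y) Y)]
    refine (norm_add_le _ _).trans ?_
    have h2 := blk_sum R Y k hY f hf d c hd hc
    push_cast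
    linarith

theorem par_sum (R Y J : ℕ) (hY : 1 ≤ Y) (f : ℕ → ℝ) (hf : ∀ n, |f n| ≤ 1) (d c : ℕ)
    (hd : d ∈ Icc 1 R) (hc : c ∈ red d) (u : ℕ) (hu : u ≤ J * Y) :
    ‖∑ n ∈ Icc 1 u, (gc R Y f n : ℂ) * ee ((n : ℝ) * ((c : ℝ) / d))‖
      ≤ J * (R : ℝ) ^ 4 + Y * (1 + (R : ℝ) ^ 2) := by
  have e0 : Icc 1 u = Ioc 0 u := by
    ext n
    rw [mem_Icc, mem_Ioc]
    omega
  have hk : u / Y * Y ≤ u := Nat.div_mul_le_self u Y
  have hk2 : u < u / Y * Y + Y := by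
    have h1 := Nat.div_add_mod u Y
    have h2 := Nat.mod_lt u (show 0 < Y by omega)
    have h3 : Y * (u / Y) = u / Y * Y := Nat.mul_comm _ _
    omega
  rw [e0, ← Finset.sum_Ioc_consecutive _ (Nat.zero_le (u / Y * Y)) hk]
  refine (norm_add_le _ _).trans (add_le_add ?_ ?_)
  · refine (CutB_full R Y hY f hf d c hd hc (u / Y)).trans ?_
    apply mul_le_mul_of_nonneg_right _ (by positivity)
    have : u / Y ≤ J := Nat.div_le_of_le_mul (by rw [Nat.mul_comm]; exact hu)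
    exact_mod_cast this
  · refine (norm_sum_le _ _).trans ?_
    have h1 : ∀ n ∈ Ioc (u / Y * Y) u, ‖(gc R Y f n : ℂ) * ee ((n : ℝ) * ((c : ℝ) / d))‖ ≤
        1 + (R : ℝ) ^ 2 := by
      intro n _
      rw [norm_mul, Pool.Agent.H91.PK.LSa_norm_ee, mul_one, Complex.norm_real]
      exact abs_gc_le R Y hY f hf n
    refine (Finset.sum_le_sum h1).trans ?_
    rw [Finset.sum_const, Nat.card_Ioc, nsmul_eq_mul]
    apply mul_le_mul_of_nonneg_right _ (by positivity)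
    have : u - u / Y * Y ≤ Y := by omega
    exact_mod_cast this

end Pool.Agent.H65.MS
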