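import Pool.Agent.H65.MS.CutA
import Pool.Agent.H91.PK.LSa

/-!
# MS CutC: the second moment of the cut function

Let `b = (jY, (j+1)Y]`, `A(c/d) = ∑_{m ∈ b} f(m) ee(m c/d)` for `d ≤ R`, `c ∈ red d` (at most `R^2` fractions).
For `n ∈ b`: `Y fs(n) = ∑_{(d,c)} A(c/d) ee(-n c/d)` (`blk_eq`, `RS_eq`).  So
`Y^2 ∑_{n ∈ b} fs(n)^2 = ∑_{(d,c),(d',c')} A(c/d) conj(A(c'/d')) ∑_{n ∈ b} ee(n (c'/d' - c/d))`
`≤ Y ∑ |A|^2 + R^2 (∑ |A|)^2 ≤ (Y + R^4) ∑ |A|^2 ≤ 2 Y ∑ |A|^2` (diagonal; `geo`; Cauchy-Schwarz with at most `R^2` fractions; `R^4 ≤ Y`).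
`additive_ls` (with `K0 = jY`, `K = Y`, `a = f`; its index set `(Icc 1 r).filter (Coprime b r)` is `red r` up to `r = 1`: `b = 1` instead of `0`, the
same value of `ee(n b/r)`) gives `∑ |A|^2 ≤ (R^2 + π Y) ∑_{m ∈ b} f(m)^2 ≤ 4.2 Y ∑_{m ∈ b} f(m)^2`.
So `∑_{n ∈ b} fs(n)^2 ≤ 8.4 ∑_{m ∈ b} f(m)^2 ≤ 8.4 Y` and, by `(u-v)^2 ≤ 2u^2+2v^2`, `∑_{n ∈ b} gc(n)^2 ≤ 2 Y + 16.8 Y ≤ 20 Y`.
Sum over the `J` blocks.
-/

set_option autoImplicit false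

namespace Pool.Agent.H65.MS

open Finset
open Pool.Agent.H91.PK (ee)
open Pool.Agent.H92.EH (red)
open Pool.Agent.H76.EHB (S2)

private theorem CutC_ee_add (s t : ℝ) : ee (s + t) = ee s * ee t := by
  unfold ee
  rw [← Complex.exp_add]
  congr 1
  push_cast
  ring

private theorem CutC_ee_nat (m : ℕ) : ee (m : ℝ) = 1 := by
  unfold ee
  rw [Complex.exp_eq_one_iff]
  exact ⟨m, by push_cast; ring⟩

private theorem CutC_ee_zero : ee 0 = 1 := by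
  have := CutC_ee_nat 0
  simpa using this

private theorem CutC_conj_ee (t : ℝ) : (starRingEnd ℂ) (ee t) = ee (-t) := by
  unfold ee
  rw [← Complex.exp_conj]
  congr 1
  simp only [map_mul, Complex.conj_ofReal, Complex.conj_I, map_ofNat]
  push_cast
  ring

private theorem CutC_norm_ee (t : ℝ) : ‖ee t‖ = 1 := Pool.Agent.H91.PK.LSa_norm_ee t

private def CutC_Fr (R : ℕ) : Finset (Σ _ : ℕ, ℕ) := (Icc 1 R).sigma red

private theorem CutC_card (R : ℕ) : ((CutC_Fr R).card : ℝ) ≤ (R : ℝ) ^ 2 := by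
  unfold CutC_Fr
  rw [Finset.card_sigma]
  push_cast
  calc ∑ d ∈ Icc 1 R, ((red d).card : ℝ) ≤ ∑ d ∈ Icc 1 R, (R : ℝ) := by
        apply Finset.sum_le_sum
        intro d hd
        rw [Finset.mem_Icc] at hd
        have h1 : (red d).card ≤ d := by
          unfold red
          exact (Finset.card_filter_le _ _).trans (by simp)
        exact_mod_cast h1.trans hd.2
    _ = (R : ℝ) ^ 2 := by
        rw [Finset.sum_const, Nat.card_Icc, nsmul_eq_mul]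
        simp [sq]

private noncomputable def CutC_A (Y j : ℕ) (f : ℕ → ℝ) (α : Σ _ : ℕ, ℕ) : ℂ :=
  ∑ m ∈ Ioc (j * Y) (j * Y + Y), (f m : ℂ) * ee ((m : ℝ) * ((α.2 : ℝ) / α.1))

private theorem CutC_ls (R Y j : ℕ) (f : ℕ → ℝ) :
    ∑ α ∈ CutC_Fr R, ‖CutC_A Y j f α‖ ^ 2 ≤ ((R : ℝ) ^ 2 + Real.pi * Y) * ∑ m ∈ Ioc (j * Y) (j * Y + Y), f m ^ 2 := by
  have h := Pool.Agent.H91.PK.additive_ls R (j * Y) Y (fun m => (f m : ℂ))
  have e1 : ∑ n ∈ Ioc (j * Y) (j * Y + Y), ‖(f n : ℂ)‖ ^ 2 = ∑ m ∈ Ioc (j * Y) (j * Y + Y), f m ^ 2 := by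
    refine Finset.sum_congr rfl (fun m _ => ?_)
    rw [Complex.norm_real, Real.norm_eq_abs, sq_abs]
  rw [e1] at h
  refine le_trans (le_of_eq ?_) h
  unfold CutC_Fr
  rw [Finset.sum_sigma]
  refine Finset.sum_congr rfl (fun d hd => ?_)
  rw [Finset.mem_Icc] at hd
  rcases Nat.lt_or_ge d 2 with h2 | h2
  · have hd1 : d = 1 := by omega
    subst hd1
    have e2 : red 1 = {0} := by decide
    have e3 : (Icc 1 1).filter (fun b => Nat.Coprime b 1) = {1} := by decide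
    rw [e2, e3, Finset.sum_singleton, Finset.sum_singleton]
    congr 2
    unfold CutC_A
    refine Finset.sum_congr rfl (fun m _ => ?_)
    congr 1
    simp only [Nat.cast_zero, Nat.cast_one, div_one, mul_zero, mul_one]
    rw [CutC_ee_zero, CutC_ee_nat]
  · have e2 : red d = (Icc 1 d).filter (fun b => Nat.Coprime b d) := by
      ext c
      rw [Pool.Agent.H92.EH.mem_red, Finset.mem_filter, Finset.mem_Icc]
      constructor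
      · rintro ⟨h3, h4⟩
        refine ⟨⟨?_, h3.le⟩, h4⟩
        rcases Nat.eq_zero_or_pos c with h5 | h5
        · subst h5
          rw [Nat.coprime_zero_left] at h4
          omega
        · exact h5
      · rintro ⟨⟨h3, h4⟩, h5⟩
        refine ⟨lt_of_le_of_ne h4 ?_, h5⟩
        rintro rfl
        rw [Nat.coprime_self] at h5
        omega
    rw [e2]
    refine Finset.sum_congr rfl (fun c _ => ?_)
    congr 2
    unfold CutC_A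
    refine Finset.sum_congr rfl (fun m _ => ?_)
    congr 2
    ring

private theorem CutC_fs (R Y j : ℕ) (hY : 1 ≤ Y) (f : ℕ → ℝ) (n : ℕ) (hn : n ∈ Ioc (j * Y) (j * Y + Y)) :
    (((Y : ℝ) * fs R Y f n : ℝ) : ℂ) =
      ∑ α ∈ CutC_Fr R, CutC_A Y j f α * ee (-((n : ℝ) * ((α.2 : ℝ) / α.1))) := by
  have hY0 : (Y : ℝ) ≠ 0 := by positivity
  unfold fs
  rw [blk_eq Y j n hY hn, ← mul_assoc, mul_one_div_cancel hY0, one_mul]
  push_cast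
  have e1 : ∀ m ∈ Ioc (j * Y) (j * Y + Y), (f m : ℂ) * ((RS R ((m : ℤ) - n) : ℝ) : ℂ) =
      ∑ α ∈ CutC_Fr R, (f m : ℂ) * ee ((m : ℝ) * ((α.2 : ℝ) / α.1)) * ee (-((n : ℝ) * ((α.2 : ℝ) / α.1))) := by
    intro m _
    rw [RS_eq]
    unfold CutC_Fr
    rw [Finset.sum_sigma, Finset.mul_sum]
    refine Finset.sum_congr rfl (fun d _ => ?_)
    rw [Finset.mul_sum]
    refine Finset.sum_congr rfl (fun c _ => ?_)
    rw [mul_assoc, ← CutC_ee_add]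
    congr 2
    push_cast
    ring
  rw [Finset.sum_congr rfl e1, Finset.sum_comm]
  refine Finset.sum_congr rfl (fun α _ => ?_)
  unfold CutC_A
  rw [Finset.sum_mul]

private theorem CutC_G (R Y j : ℕ) (α β : Σ _ : ℕ, ℕ) (hα : α ∈ CutC_Fr R) (hβ : β ∈ CutC_Fr R) :
    ‖∑ n ∈ Ioc (j * Y) (j * Y + Y), ee ((n : ℝ) * ((β.2 : ℝ) / β.1 - (α.2 : ℝ) / α.1))‖ ≤
      (if α = β then (Y : ℝ) else 0) + (R : ℝ) ^ 2 := by
  unfold CutC_Fr at hα hβ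
  rw [Finset.mem_sigma] at hα hβ
  split_ifs with h
  · subst h
    refine le_trans (norm_sum_le _ _) ?_
    have : ∀ n ∈ Ioc (j * Y) (j * Y + Y), ‖ee ((n : ℝ) * ((α.2 : ℝ) / α.1 - (α.2 : ℝ) / α.1))‖ = 1 :=
      fun n _ => CutC_norm_ee _
    rw [Finset.sum_congr rfl this, Finset.sum_const, Nat.card_Ioc]
    simp
  · rw [zero_add]
    refine geo R β.1 α.1 β.2 α.2 hβ.1 hα.1 hβ.2 hα.2 ?_ _ _
    rintro ⟨h1, h2⟩
    apply h
    exact Sigma.ext h1.symm (heq_of_eq h2.symm)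

private theorem CutC_sum (R Y j : ℕ) (hY : 1 ≤ Y) (f : ℕ → ℝ) :
    ∑ n ∈ Ioc (j * Y) (j * Y + Y), ((Y : ℝ) * fs R Y f n) ^ 2 ≤
      ((Y : ℝ) + (R : ℝ) ^ 4) * ∑ α ∈ CutC_Fr R, ‖CutC_A Y j f α‖ ^ 2 := by
  set A := CutC_A Y j f with hA
  have e1 : ((∑ n ∈ Ioc (j * Y) (j * Y + Y), ((Y : ℝ) * fs R Y f n) ^ 2 : ℝ) : ℂ) =
      ∑ α ∈ CutC_Fr R, ∑ β ∈ CutC_Fr R, A α * (starRingEnd ℂ) (A β) *
        ∑ n ∈ Ioc (j * Y) (j * Y + Y), ee ((n : ℝ) * ((β.2 : ℝ) / β.1 - (α.2 : ℝ) / α.1)) := by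
    have e2 : ∀ n ∈ Ioc (j * Y) (j * Y + Y), ((((Y : ℝ) * fs R Y f n) ^ 2 : ℝ) : ℂ) =
        ∑ α ∈ CutC_Fr R, ∑ β ∈ CutC_Fr R, A α * (starRingEnd ℂ) (A β) *
          ee ((n : ℝ) * ((β.2 : ℝ) / β.1 - (α.2 : ℝ) / α.1)) := by
      intro n hn
      have h1 := CutC_fs R Y j hY f n hn
      have h2 : (((Y : ℝ) * fs R Y f n : ℝ) : ℂ) =
          (starRingEnd ℂ) (((Y : ℝ) * fs R Y f n : ℝ) : ℂ) := (Complex.conj_ofReal _).symm
      rw [Complex.ofReal_pow, sq]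
      nth_rewrite 2 [h2]
      rw [h1, map_sum, Finset.sum_mul_sum]
      refine Finset.sum_congr rfl (fun α _ => Finset.sum_congr rfl (fun β _ => ?_))
      rw [map_mul, CutC_conj_ee]
      have h3 : (n : ℝ) * ((β.2 : ℝ) / β.1 - (α.2 : ℝ) / α.1) =
          -((n : ℝ) * ((α.2 : ℝ) / α.1)) + -(-((n : ℝ) * ((β.2 : ℝ) / β.1))) := by ring
      rw [h3, CutC_ee_add]
      ring
    rw [Complex.ofReal_sum, Finset.sum_congr rfl e2, Finset.sum_comm]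
    refine Finset.sum_congr rfl (fun α _ => ?_)
    rw [Finset.sum_comm]
    refine Finset.sum_congr rfl (fun β _ => ?_)
    rw [Finset.mul_sum]
  have e3 : ∑ n ∈ Ioc (j * Y) (j * Y + Y), ((Y : ℝ) * fs R Y f n) ^ 2 ≤
      ∑ α ∈ CutC_Fr R, ∑ β ∈ CutC_Fr R, ‖A α‖ * ‖A β‖ * ((if α = β then (Y : ℝ) else 0) + (R : ℝ) ^ 2) := by
    have h0 : 0 ≤ ∑ n ∈ Ioc (j * Y) (j * Y + Y), ((Y : ℝ) * fs R Y f n) ^ 2 :=
      Finset.sum_nonneg (fun _ _ => sq_nonneg _)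
    have h1 : ∑ n ∈ Ioc (j * Y) (j * Y + Y), ((Y : ℝ) * fs R Y f n) ^ 2 =
        ‖((∑ n ∈ Ioc (j * Y) (j * Y + Y), ((Y : ℝ) * fs R Y f n) ^ 2 : ℝ) : ℂ)‖ := by
      rw [Complex.norm_real, Real.norm_of_nonneg h0]
    rw [h1, e1]
    refine (norm_sum_le _ _).trans (Finset.sum_le_sum (fun α hα => ?_))
    refine (norm_sum_le _ _).trans (Finset.sum_le_sum (fun β hβ => ?_))
    rw [norm_mul, norm_mul, RCLike.norm_conj]
    exact mul_le_mul_of_nonneg_left (CutC_G R Y j α β hα hβ) (by positivity)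
  refine e3.trans ?_
  have e4 : ∑ α ∈ CutC_Fr R, ∑ β ∈ CutC_Fr R, ‖A α‖ * ‖A β‖ * ((if α = β then (Y : ℝ) else 0) + (R : ℝ) ^ 2) =
      (Y : ℝ) * ∑ α ∈ CutC_Fr R, ‖A α‖ ^ 2 + (R : ℝ) ^ 2 * (∑ α ∈ CutC_Fr R, ‖A α‖) ^ 2 := by
    have h1 : ∀ α ∈ CutC_Fr R, ∑ β ∈ CutC_Fr R, ‖A α‖ * ‖A β‖ * ((if α = β then (Y : ℝ) else 0) + (R : ℝ) ^ 2) =
        (Y : ℝ) * ‖A α‖ ^ 2 + (R : ℝ) ^ 2 * (‖A α‖ * ∑ β ∈ CutC_Fr R, ‖A β‖) := by
      intro α hα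
      have h2 : ∀ β ∈ CutC_Fr R, ‖A α‖ * ‖A β‖ * ((if α = β then (Y : ℝ) else 0) + (R : ℝ) ^ 2) =
          (if α = β then ‖A α‖ * ‖A β‖ * (Y : ℝ) else 0) + (R : ℝ) ^ 2 * (‖A α‖ * ‖A β‖) := by
        intro β _
        split_ifs <;> ring
      rw [Finset.sum_congr rfl h2, Finset.sum_add_distrib, Finset.sum_ite_eq, if_pos hα, ← Finset.mul_sum,
        ← Finset.mul_sum]
      ring
    rw [Finset.sum_congr rfl h1, Finset.sum_add_distrib, ← Finset.mul_sum, ← Finset.mul_sum, ← Finset.sum_mul]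
    ring
  rw [e4, add_mul]
  have h5 : (∑ α ∈ CutC_Fr R, ‖A α‖) ^ 2 ≤ (R : ℝ) ^ 2 * ∑ α ∈ CutC_Fr R, ‖A α‖ ^ 2 := by
    refine (sq_sum_le_card_mul_sum_sq).trans ?_
    exact mul_le_mul_of_nonneg_right (CutC_card R) (Finset.sum_nonneg (fun _ _ => sq_nonneg _))
  have h6 := mul_le_mul_of_nonneg_left h5 (sq_nonneg (R : ℝ))
  have h7 : (R : ℝ) ^ 2 * ((R : ℝ) ^ 2 * ∑ α ∈ CutC_Fr R, ‖A α‖ ^ 2) =
      (R : ℝ) ^ 4 * ∑ α ∈ CutC_Fr R, ‖A α‖ ^ 2 := by ring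
  rw [h7] at h6
  linarith

private theorem CutC_num {Y r2 r4 S T F : ℝ} (hY : 1 ≤ Y) (h2 : r2 ≤ Y) (h4 : r4 ≤ Y) (hS : 0 ≤ S) (hF : 0 ≤ F)
    (h : Y ^ 2 * T ≤ (Y + r4) * S) (hls : S ≤ (r2 + Real.pi * Y) * F) : T ≤ 9 * F := by
  have hpi : Real.pi ≤ 3.15 := by
    have := Real.pi_lt_d2
    linarith
  have hY0 : 0 < Y := by linarith
  have h5 : (r2 + Real.pi * Y) ≤ 4.2 * Y := by
    have := mul_le_mul_of_nonneg_right hpi hY0.le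
    linarith
  have h6 : S ≤ 4.2 * Y * F := hls.trans (mul_le_mul_of_nonneg_right h5 hF)
  have h7 : (Y + r4) * S ≤ 2 * Y * (4.2 * Y * F) := by
    calc (Y + r4) * S ≤ (2 * Y) * S := mul_le_mul_of_nonneg_right (by linarith) hS
      _ ≤ 2 * Y * (4.2 * Y * F) := mul_le_mul_of_nonneg_left h6 (by linarith)
  have h8 : Y ^ 2 * T ≤ Y ^ 2 * (8.4 * F) := by
    refine (h.trans h7).trans (le_of_eq ?_)
    ring
  have h9 := le_of_mul_le_mul_left h8 (by positivity)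
  linarith

/-- near orthogonality and the large sieve on one block -/
theorem fs_sq (R Y j : ℕ) (hR : 1 ≤ R) (hY : R ^ 4 ≤ Y) (f : ℕ → ℝ) :
    ∑ n ∈ Ioc (j * Y) (j * Y + Y), fs R Y f n ^ 2
      ≤ 9 * ∑ n ∈ Ioc (j * Y) (j * Y + Y), f n ^ 2 := by
  have hY1 : 1 ≤ Y := le_trans (Nat.one_le_pow _ _ hR) hY
  have hR2 : R ^ 2 ≤ Y := le_trans (Nat.pow_le_pow_right hR (by norm_num)) hY
  have h1 := CutC_sum R Y j hY1 f
  have h2 := CutC_ls R Y j f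
  have h3 : ∑ n ∈ Ioc (j * Y) (j * Y + Y), ((Y : ℝ) * fs R Y f n) ^ 2 =
      (Y : ℝ) ^ 2 * ∑ n ∈ Ioc (j * Y) (j * Y + Y), fs R Y f n ^ 2 := by
    rw [Finset.mul_sum]
    refine Finset.sum_congr rfl (fun n _ => ?_)
    ring
  rw [h3] at h1
  refine CutC_num (Y := (Y : ℝ)) (r2 := (R : ℝ) ^ 2) (r4 := (R : ℝ) ^ 4) (by exact_mod_cast hY1) (by exact_mod_cast hR2)
    (by exact_mod_cast hY) (Finset.sum_nonneg (fun _ _ => sq_nonneg _)) (Finset.sum_nonneg (fun _ _ => sq_nonneg _)) h1 h2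

theorem S2_gc (R Y J : ℕ) (hR : 1 ≤ R) (hY : R ^ 4 ≤ Y) (f : ℕ → ℝ) (hf : ∀ n, |f n| ≤ 1) :
    S2 (gc R Y f) (J * Y) ≤ 20 * ((J : ℝ) * Y) := by
  unfold S2
  have e0 : ∀ N : ℕ, Icc 1 N = Ioc 0 N := by
    intro N
    ext n
    rw [Finset.mem_Icc, Finset.mem_Ioc]
    omega
  rw [e0]
  induction J with
  | zero => simp
  | succ J ih =>
    have h1 : (J + 1) * Y = J * Y + Y := by ring
    rw [h1, ← Finset.sum_Ioc_consecutive _ (Nat.zero_le (J * Y)) (Nat.le_add_right _ Y)]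
    have h2 := fs_sq R Y J hR hY f
    have h3 : ∑ n ∈ Ioc (J * Y) (J * Y + Y), f n ^ 2 ≤ Y := by
      calc ∑ n ∈ Ioc (J * Y) (J * Y + Y), f n ^ 2 ≤ ∑ n ∈ Ioc (J * Y) (J * Y + Y), (1 : ℝ) := by
            apply Finset.sum_le_sum
            intro n _
            rw [← sq_abs]
            exact pow_le_one₀ (abs_nonneg _) (hf n)
        _ = Y := by
            rw [Finset.sum_const, Nat.card_Ioc]
            simp
    have h4 : ∑ n ∈ Ioc (J * Y) (J * Y + Y), gc R Y f n ^ 2 ≤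
        2 * ∑ n ∈ Ioc (J * Y) (J * Y + Y), f n ^ 2 + 2 * ∑ n ∈ Ioc (J * Y) (J * Y + Y), fs R Y f n ^ 2 := by
      rw [Finset.mul_sum, Finset.mul_sum, ← Finset.sum_add_distrib]
      apply Finset.sum_le_sum
      intro n _
      unfold gc
      nlinarith [sq_nonneg (f n + fs R Y f n)]
    push_cast
    linarith

end Pool.Agent.H65.MS
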