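import Pool.Agent.H65.MS.CutA

/-!
# MS CutD: the cut function in residue classes

Block `b = (jY, (j+1)Y]`, `q ≥ 1`.  For an integer `m` and `d ≤ R`,
`T_d(m) = ∑_{n ∈ b, n ≡ a (q)} ram d (m - n)`:
* if `d ∣ q`: `n ≡ a (d)`, so `ram d (m-n) = ram d (m-a)` (`ram d` is periodic mod `d`: definition of `KF.ram`, `d' ∣ d`), and the number of
  `n ∈ b` with `n ≡ a (q)` is `Y/q + θ`, `|θ| ≤ 1`: `T_d(m) = (Y/q) ram d (m-a) + O(d)` (`abs_ram_le'`);
* if `d ∤ q`: `T_d(m) = ∑_{c ∈ red d} ee(m c/d) ∑_{n ∈ b, n ≡ a (q)} ee(-n c/d)` and the `n` are `n0 + q k`, `k` in an interval, so the inner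
  sum is at most `d` by `geo2` (and complex conjugation): `|T_d(m)| ≤ d^2`.
So `∑_{n ∈ b, n ≡ a (q)} fs(n) = (1/Y) ∑_{m ∈ b} f(m) ∑_{d ≤ R} T_d(m) = (1/q) ∑_{m ∈ b} f(m) ∑_{d ∣ q, d ≤ R} ram d (m-a) + O(∑_{d ≤ R} d^2)`
and `∑_{d ≤ R} d^2 ≤ R^3`.  Subtract from `∑_{n ∈ b, n ≡ a (q)} f(n)`; the definition of `uu` gives the claim for one block; sum over `J` blocks
(`Icc 1 (J Y)` is the disjoint union of the blocks).
-/

set_option autoImplicit false

namespace Pool.Agent.H65.MS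

open Finset
open Pool.Agent.H91.PK (ee)
open Pool.Agent.H92.EH (red)
open Pool.Agent.H80.KF (ram uu)

/-- the elements of a residue class in an interval -/
private theorem CutD_cls {M : Type} [AddCommMonoid M] (A B q a : ℕ) (hq : 1 ≤ q) (g : ℕ → M) :
    ∑ n ∈ (Ioc A B).filter (fun n => n ≡ a [MOD q]), g n =
      ∑ k ∈ Ioc ((A + q - a % q) / q) ((B + q - a % q) / q), g (a % q + q * k - q) := by
  have hr : a % q < q := Nat.mod_lt _ hq
  set r := a % q with hrd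
  symm
  refine sum_nbij (fun k => r + q * k - q) ?_ ?_ ?_ fun _ _ => rfl
  · intro k hk
    rw [mem_Ioc] at hk
    obtain ⟨h1, h2⟩ := hk
    rw [Nat.div_lt_iff_lt_mul hq, mul_comm] at h1
    rw [Nat.le_div_iff_mul_le hq, mul_comm] at h2
    rw [mem_filter, mem_Ioc]
    have hk1 : 1 ≤ k := by
      rcases Nat.eq_zero_or_pos k with rfl | h
      · omega
      · exact h
    have h3 : q ≤ q * k := Nat.le_mul_of_pos_right q hk1
    refine ⟨⟨by omega, by omega⟩, ?_⟩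
    have h4 : r + q * k - q = r + q * (k - 1) := by
      rw [Nat.mul_sub, mul_one]
      omega
    rw [h4]
    show (r + q * (k - 1)) % q = a % q
    rw [Nat.add_mul_mod_self_left, hrd, Nat.mod_mod]
  · intro k hk k' hk' h
    rw [mem_coe, mem_Ioc] at hk hk'
    have hk1 : 1 ≤ k := (Nat.zero_le _).trans_lt hk.1
    have hk1' : 1 ≤ k' := (Nat.zero_le _).trans_lt hk'.1
    have h3 : q ≤ q * k := Nat.le_mul_of_pos_right q hk1
    have h3' : q ≤ q * k' := Nat.le_mul_of_pos_right q hk1'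
    have h4 : q * k = q * k' := by
      have h5 : r + q * k - q = r + q * k' - q := h
      omega
    exact Nat.eq_of_mul_eq_mul_left hq h4
  · intro n hn
    rw [mem_coe, mem_filter, mem_Ioc] at hn
    obtain ⟨⟨h1, h2⟩, h3⟩ := hn
    have h4 : n % q = r := h3
    have h5 := Nat.div_add_mod n q
    rw [h4] at h5
    refine ⟨n / q + 1, ?_, ?_⟩
    · rw [mem_coe, mem_Ioc, Nat.div_lt_iff_lt_mul hq, Nat.le_div_iff_mul_le hq]
      have h6 : (n / q + 1) * q = q * (n / q) + q := by ring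
      rw [h6]
      omega
    · show r + q * (n / q + 1) - q = n
      have h6 : q * (n / q + 1) = q * (n / q) + q := by ring
      rw [h6]
      omega

/-- `ram d` is periodic -/
private theorem CutD_per (d : ℕ) (x y : ℤ) (h : (d : ℤ) ∣ x - y) : ram d x = ram d y := by
  unfold ram
  refine sum_congr (filter_congr fun e he => ?_) fun _ _ => rfl
  have h1 : (e : ℤ) ∣ d := by exact_mod_cast (Nat.mem_divisors.1 he).1
  have h2 : (e : ℤ) ∣ x - y := h1.trans h
  exact (dvd_iff_dvd_of_dvd_sub h2)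

private theorem CutD_card_red (d : ℕ) : ((red d).card : ℝ) ≤ d := by
  have h : (red d).card ≤ d := by
    unfold Pool.Agent.H92.EH.red
    refine (card_filter_le _ _).trans ?_
    rw [card_range]
  exact_mod_cast h

private theorem CutD_ee_add (s t : ℝ) : ee (s + t) = ee s * ee t := by
  unfold ee
  rw [← Complex.exp_add]
  congr 1
  push_cast
  ring

private theorem CutD_norm_ee (t : ℝ) : ‖ee t‖ = 1 := by
  unfold ee
  rw [Complex.norm_exp]
  have h : (2 * (Real.pi : ℂ) * t * Complex.I).re = 0 := by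
    simp [Complex.mul_re, Complex.mul_im]
  rw [h, Real.exp_zero]

private theorem CutD_conj_ee (t : ℝ) : (starRingEnd ℂ) (ee t) = ee (-t) := by
  unfold ee
  rw [← Complex.exp_conj]
  congr 1
  simp [map_ofNat]

/-- the sum over one class, frequency not of denominator dividing `q` -/
private theorem CutD_osc (A B q a d c : ℕ) (hq : 1 ≤ q) (hd : 1 ≤ d) (hc : c ∈ red d)
    (hdq : ¬ d ∣ q) :
    ‖∑ n ∈ (Ioc A B).filter (fun n => n ≡ a [MOD q]), ee (-((n : ℝ) * ((c : ℝ) / d)))‖ ≤ d := by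
  rw [CutD_cls A B q a hq]
  set r := a % q with hr
  set θ : ℝ := (c : ℝ) / d with hθ
  have h1 : ∀ k ∈ Ioc ((A + q - r) / q) ((B + q - r) / q),
      ee (-(((r + q * k - q : ℕ) : ℝ) * θ)) =
        ee (-(((r : ℝ) - q) * θ)) * (starRingEnd ℂ) (ee ((k : ℝ) * ((q : ℝ) * θ))) := by
    intro k hk
    rw [mem_Ioc] at hk
    have hk1 : 1 ≤ k := (Nat.zero_le _).trans_lt hk.1
    have h3 : q ≤ q * k := Nat.le_mul_of_pos_right q hk1
    have h2 : ((r + q * k - q : ℕ) : ℝ) = (r : ℝ) + q * k - q := by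
      rw [Nat.cast_sub (by omega)]
      push_cast
      ring
    rw [CutD_conj_ee, ← CutD_ee_add, h2]
    congr 1
    ring
  rw [sum_congr rfl h1, ← mul_sum, norm_mul, CutD_norm_ee, one_mul, ← map_sum,
    RCLike.norm_conj]
  exact geo2 q d c hd hc hdq _ _

/-- the number of elements of a class in an interval -/
private theorem CutD_count (A Y q a : ℕ) (hq : 1 ≤ q) :
    |(((Ioc A (A + Y)).filter (fun n => n ≡ a [MOD q])).card : ℝ) - (Y : ℝ) / q| ≤ 1 := by
  have hr : a % q < q := Nat.mod_lt _ hq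
  have h1 : (((Ioc A (A + Y)).filter (fun n => n ≡ a [MOD q])).card : ℝ) =
      (((A + Y + q - a % q) / q - (A + q - a % q) / q : ℕ) : ℝ) := by
    have h2 := CutD_cls (M := ℕ) A (A + Y) q a hq (fun _ => 1)
    rw [sum_const, sum_const, smul_eq_mul, smul_eq_mul, mul_one, mul_one, Nat.card_Ioc] at h2
    rw [h2]
  rw [h1]
  set X := A + q - a % q with hX
  have h3 : A + Y + q - a % q = X + Y := by omega
  rw [h3]
  have hle : X / q ≤ (X + Y) / q := Nat.div_le_div_right (Nat.le_add_right _ _)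
  rw [Nat.cast_sub hle]
  have hq0 : (0 : ℝ) < q := by exact_mod_cast hq
  have e1 : (q : ℝ) * ((X / q : ℕ) : ℝ) ≤ X := by exact_mod_cast Nat.mul_div_le X q
  have e2 : (X : ℝ) < q * (((X / q : ℕ) : ℝ) + 1) := by
    exact_mod_cast Nat.lt_mul_div_succ X hq
  have e3 : (q : ℝ) * (((X + Y) / q : ℕ) : ℝ) ≤ X + Y := by
    exact_mod_cast Nat.mul_div_le (X + Y) q
  have e4 : (X : ℝ) + Y < q * ((((X + Y) / q : ℕ) : ℝ) + 1) := by
    exact_mod_cast Nat.lt_mul_div_succ (X + Y) hq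
  have e5 : (Y : ℝ) = q * ((Y : ℝ) / q) := by field_simp
  rw [abs_le]
  constructor
  · have h6 : (q : ℝ) * (-1) ≤ q * ((((X + Y) / q : ℕ) : ℝ) - ((X / q : ℕ) : ℝ) - (Y : ℝ) / q) := by
      have h7 : (q : ℝ) * ((((X + Y) / q : ℕ) : ℝ) - ((X / q : ℕ) : ℝ) - (Y : ℝ) / q) =
          q * (((X + Y) / q : ℕ) : ℝ) - q * ((X / q : ℕ) : ℝ) - q * ((Y : ℝ) / q) := by ring
      rw [h7, ← e5]
      linarith
    exact le_of_mul_le_mul_left h6 hq0
  · have h6 : (q : ℝ) * ((((X + Y) / q : ℕ) : ℝ) - ((X / q : ℕ) : ℝ) - (Y : ℝ) / q) ≤ q * 1 := by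
      have h7 : (q : ℝ) * ((((X + Y) / q : ℕ) : ℝ) - ((X / q : ℕ) : ℝ) - (Y : ℝ) / q) =
          q * (((X + Y) / q : ℕ) : ℝ) - q * ((X / q : ℕ) : ℝ) - q * ((Y : ℝ) / q) := by ring
      rw [h7, ← e5]
      linarith
    exact le_of_mul_le_mul_left h6 hq0

theorem ram_cls (Y j q a d : ℕ) (hq : 1 ≤ q) (hd : 1 ≤ d) (m : ℤ) :
    |∑ n ∈ (Ioc (j * Y) (j * Y + Y)).filter (fun n => n ≡ a [MOD q]), ram d (m - n)
      - (if d ∣ q then (Y : ℝ) / q * ram d (m - a) else 0)| ≤ (d : ℝ) ^ 2 := by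
  have hd1 : (1 : ℝ) ≤ d := by exact_mod_cast hd
  by_cases hdq : d ∣ q
  · rw [if_pos hdq]
    have h1 : ∀ n ∈ (Ioc (j * Y) (j * Y + Y)).filter (fun n => n ≡ a [MOD q]),
        ram d (m - n) = ram d (m - a) := by
      intro n hn
      have h2 : n ≡ a [MOD q] := (mem_filter.1 hn).2
      have h3 : n ≡ a [MOD d] := h2.of_dvd hdq
      apply CutD_per
      have h4 : (m - (n : ℤ)) - (m - a) = (a : ℤ) - n := by ring
      rw [h4]
      exact (Nat.modEq_iff_dvd.1 h3)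
    rw [sum_congr rfl h1, sum_const, nsmul_eq_mul, ← sub_mul, abs_mul]
    calc _ ≤ 1 * (d : ℝ) := mul_le_mul (CutD_count _ _ _ _ hq) (abs_ram_le' d hd _)
          (abs_nonneg _) zero_le_one
      _ ≤ (d : ℝ) ^ 2 := by nlinarith
  · rw [if_neg hdq, sub_zero]
    have h1 : |∑ n ∈ (Ioc (j * Y) (j * Y + Y)).filter (fun n => n ≡ a [MOD q]), ram d (m - n)| =
        ‖∑ n ∈ (Ioc (j * Y) (j * Y + Y)).filter (fun n => n ≡ a [MOD q]),
          ((ram d (m - n) : ℝ) : ℂ)‖ := by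
      rw [← Complex.ofReal_sum, Complex.norm_real, Real.norm_eq_abs]
    have h2 : ∑ n ∈ (Ioc (j * Y) (j * Y + Y)).filter (fun n => n ≡ a [MOD q]),
          ((ram d (m - n) : ℝ) : ℂ) = ∑ c ∈ red d, ee ((m : ℝ) * ((c : ℝ) / d)) *
          ∑ n ∈ (Ioc (j * Y) (j * Y + Y)).filter (fun n => n ≡ a [MOD q]),
            ee (-((n : ℝ) * ((c : ℝ) / d))) := by
      simp_rw [mul_sum]
      rw [sum_comm]
      refine sum_congr rfl fun n _ => ?_
      rw [ram_ee d hd]
      refine sum_congr rfl fun c _ => ?_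
      rw [← CutD_ee_add]
      congr 1
      push_cast
      ring
    rw [h1, h2]
    refine (norm_sum_le _ _).trans ?_
    calc ∑ c ∈ red d, ‖ee ((m : ℝ) * ((c : ℝ) / d)) *
          ∑ n ∈ (Ioc (j * Y) (j * Y + Y)).filter (fun n => n ≡ a [MOD q]),
            ee (-((n : ℝ) * ((c : ℝ) / d)))‖ ≤ ∑ _c ∈ red d, (d : ℝ) := by
          refine sum_le_sum fun c hc => ?_
          rw [norm_mul, CutD_norm_ee, one_mul]
          exact CutD_osc _ _ q a d c hq hd hc hdq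
      _ = (red d).card * (d : ℝ) := by rw [sum_const, nsmul_eq_mul]
      _ ≤ (d : ℝ) ^ 2 := by
          rw [pow_two]
          exact mul_le_mul_of_nonneg_right (CutD_card_red d) (Nat.cast_nonneg _)

theorem cls_blk (R Y j q a : ℕ) (hY : 1 ≤ Y) (hq : 1 ≤ q) (f : ℕ → ℝ) (hf : ∀ n, |f n| ≤ 1) :
    |∑ n ∈ (Ioc (j * Y) (j * Y + Y)).filter (fun n => n ≡ a [MOD q]), gc R Y f n
      - ∑ n ∈ Ioc (j * Y) (j * Y + Y), f n * uu R q a n| ≤ (R : ℝ) ^ 3 := by
  classical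
  set b := Ioc (j * Y) (j * Y + Y) with hb
  set c := b.filter (fun n => n ≡ a [MOD q]) with hc
  have hY0 : (0 : ℝ) < Y := by exact_mod_cast hY
  have hq0 : (0 : ℝ) < q := by exact_mod_cast hq
  have hbc : (b.card : ℝ) = Y := by
    rw [hb, Nat.card_Ioc]
    congr 1
    omega
  -- the sum of the structured part
  have h1 : ∑ n ∈ c, fs R Y f n =
      (1 / (Y : ℝ)) * ∑ m ∈ b, f m * ∑ d ∈ Icc 1 R, ∑ n ∈ c, ram d ((m : ℤ) - n) := by
    have h2 : ∀ n ∈ c, fs R Y f n = (1 / (Y : ℝ)) * ∑ m ∈ b, f m * RS R ((m : ℤ) - n) := by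
      intro n hn
      unfold fs
      rw [blk_eq Y j n hY (mem_filter.1 hn).1]
    rw [sum_congr rfl h2, ← mul_sum, sum_comm]
    congr 1
    refine sum_congr rfl fun m _ => ?_
    rw [← mul_sum, sum_comm]
    rfl
  have h2 : ∑ m ∈ b, f m * uu R q a m = ∑ n ∈ c, f n -
      (1 / (Y : ℝ)) * ∑ m ∈ b, f m * ∑ d ∈ Icc 1 R,
        (if d ∣ q then (Y : ℝ) / q * ram d ((m : ℤ) - a) else 0) := by
    have h3 : ∀ m ∈ b, f m * uu R q a m = (if m ≡ a [MOD q] then f m else 0) -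
        (1 / (Y : ℝ)) * (f m * ∑ d ∈ Icc 1 R,
          (if d ∣ q then (Y : ℝ) / q * ram d ((m : ℤ) - a) else 0)) := by
      intro m _
      unfold uu
      have h4 : ((q : ℤ) ∣ (m : ℤ) - a) ↔ m ≡ a [MOD q] := by
        rw [Nat.ModEq.comm, Nat.modEq_iff_dvd]
      have h5 : ∑ d ∈ Icc 1 R, (if d ∣ q then (Y : ℝ) / q * ram d ((m : ℤ) - a) else 0) =
          (Y : ℝ) / q * ∑ r ∈ q.divisors.filter (fun r => r ≤ R), ram r ((m : ℤ) - a) := by
        rw [← sum_filter, mul_sum]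
        refine sum_congr ?_ fun _ _ => rfl
        ext d
        rw [mem_filter, mem_filter, mem_Icc, Nat.mem_divisors]
        constructor
        · rintro ⟨⟨_, k2⟩, k3⟩
          exact ⟨⟨k3, by omega⟩, k2⟩
        · rintro ⟨⟨k1, _⟩, k3⟩
          exact ⟨⟨Nat.pos_of_dvd_of_pos k1 hq, k3⟩, k1⟩
      rw [h5]
      by_cases h6 : m ≡ a [MOD q]
      · rw [if_pos h6, if_pos (h4.2 h6)]
        field_simp
      · rw [if_neg h6, if_neg (fun h => h6 (h4.1 h))]
        field_simp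
        ring
    rw [sum_congr rfl h3, sum_sub_distrib, ← mul_sum, hc, sum_filter]
  have h3 : ∑ n ∈ c, gc R Y f n = ∑ n ∈ c, f n - ∑ n ∈ c, fs R Y f n := by
    unfold gc
    rw [sum_sub_distrib]
  have h4 : ∑ n ∈ c, gc R Y f n - ∑ m ∈ b, f m * uu R q a m =
      -((1 / (Y : ℝ)) * ∑ m ∈ b, f m * ∑ d ∈ Icc 1 R, (∑ n ∈ c, ram d ((m : ℤ) - n) -
        (if d ∣ q then (Y : ℝ) / q * ram d ((m : ℤ) - a) else 0))) := by
    rw [h3, h1, h2]
    simp_rw [sum_sub_distrib, mul_sub]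
    rw [sum_sub_distrib]
    ring
  rw [h4, abs_neg, abs_mul, abs_of_pos (by positivity : (0 : ℝ) < 1 / (Y : ℝ))]
  have h5 : |∑ m ∈ b, f m * ∑ d ∈ Icc 1 R, (∑ n ∈ c, ram d ((m : ℤ) - n) -
        (if d ∣ q then (Y : ℝ) / q * ram d ((m : ℤ) - a) else 0))| ≤ Y * (R : ℝ) ^ 3 := by
    refine (abs_sum_le_sum_abs _ _).trans ?_
    calc ∑ m ∈ b, |f m * ∑ d ∈ Icc 1 R, (∑ n ∈ c, ram d ((m : ℤ) - n) -
        (if d ∣ q then (Y : ℝ) / q * ram d ((m : ℤ) - a) else 0))| ≤ ∑ _m ∈ b, (R : ℝ) ^ 3 := by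
          refine sum_le_sum fun m _ => ?_
          rw [abs_mul]
          have h6 : |∑ d ∈ Icc 1 R, (∑ n ∈ c, ram d ((m : ℤ) - n) -
              (if d ∣ q then (Y : ℝ) / q * ram d ((m : ℤ) - a) else 0))| ≤ (R : ℝ) ^ 3 := by
            refine (abs_sum_le_sum_abs _ _).trans ?_
            calc ∑ d ∈ Icc 1 R, |∑ n ∈ c, ram d ((m : ℤ) - n) -
                (if d ∣ q then (Y : ℝ) / q * ram d ((m : ℤ) - a) else 0)|
                ≤ ∑ _d ∈ Icc 1 R, (R : ℝ) ^ 2 := by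
                  refine sum_le_sum fun d hd => ?_
                  rw [mem_Icc] at hd
                  refine (ram_cls Y j q a d hq hd.1 m).trans ?_
                  have h7 : (d : ℝ) ≤ R := by exact_mod_cast hd.2
                  exact pow_le_pow_left₀ (Nat.cast_nonneg _) h7 2
              _ = (R : ℝ) ^ 3 := by
                  rw [sum_const, Nat.card_Icc, nsmul_eq_mul]
                  have h8 : R + 1 - 1 = R := by omega
                  rw [h8]
                  ring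
          calc |f m| * _ ≤ 1 * (R : ℝ) ^ 3 := mul_le_mul (hf m) h6 (abs_nonneg _) zero_le_one
            _ = (R : ℝ) ^ 3 := one_mul _
      _ = Y * (R : ℝ) ^ 3 := by rw [sum_const, nsmul_eq_mul, hbc]
  calc 1 / (Y : ℝ) * _ ≤ 1 / (Y : ℝ) * (Y * (R : ℝ) ^ 3) :=
        mul_le_mul_of_nonneg_left h5 (by positivity)
    _ = (R : ℝ) ^ 3 := by field_simp

theorem cls_sum (R Y J q a : ℕ) (hY : 1 ≤ Y) (hq : 1 ≤ q) (f : ℕ → ℝ) (hf : ∀ n, |f n| ≤ 1) :
    |∑ n ∈ (Icc 1 (J * Y)).filter (fun n => n ≡ a [MOD q]), gc R Y f n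
      - ∑ n ∈ Icc 1 (J * Y), f n * uu R q a n| ≤ J * (R : ℝ) ^ 3 := by
  induction J with
  | zero => simp
  | succ J ih =>
    have h1 : (J + 1) * Y = J * Y + Y := by ring
    have h2 : Icc 1 (J * Y + Y) = Icc 1 (J * Y) ∪ Ioc (J * Y) (J * Y + Y) := by
      ext n
      rw [mem_union, mem_Icc, mem_Icc, mem_Ioc]
      omega
    have h3 : Disjoint (Icc 1 (J * Y)) (Ioc (J * Y) (J * Y + Y)) := by
      rw [disjoint_left]
      intro n h4 h5
      rw [mem_Icc] at h4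
      rw [mem_Ioc] at h5
      omega
    rw [h1, h2, filter_union, sum_union (disjoint_filter_filter h3), sum_union h3]
    have h4 := cls_blk R Y J q a hY hq f hf
    have h5 : ∀ x y z w : ℝ, x + y - (z + w) = (x - z) + (y - w) := fun x y z w => by ring
    rw [h5]
    refine (abs_add_le _ _).trans ?_
    push_cast
    linarith

end Pool.Agent.H65.MS
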