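import Pool.Agent.H80.KF.Mxb
import Pool.Agent.H76.EHB.Basic

/-!
# PROJECT MS (MP_a78e8f_nt): definitions

`ee t = exp(2 π i t)` (`Pool.Agent.H91.PK.ee`), `red d` = reduced residues in `[0, d)`
(`Pool.Agent.H92.EH.red`), `ram d m` = Ramanujan sum, `uu R q a n` = indicator of `n ≡ a mod q`
without the frequencies of denominator `≤ R` (`Pool.Agent.H80.KF`), `err y q b`
(`Pool.Agent.H91.EHA.err`), `ME x q b` = maximum over `y ≤ x` of `|err y q b|` (`KF.Mxb`).

* `blk Y n`: the block `(jY, (j+1)Y]`, `j = (n-1)/Y`, which contains `n ≥ 1`;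
* `RS R m = ∑_{d ≤ R} c_d(m)`;
* `fs R Y f n = (1/Y) ∑_{m ∈ blk Y n} f(m) RS R (m - n)`: the part of `f` with frequencies near the
  fractions of denominator `≤ R`, block by block;
* `gc R Y f = f - fs R Y f` (the cut function);
* `mE x q A`: the maximum over the `a ∈ A` prime to `q` and over `y ≤ x` of `|err y q a|`.
-/

set_option autoImplicit false

namespace Pool.Agent.H65.MS

open Finset
open Pool.Agent.H91.EHA (err)
open Pool.Agent.H80.KF (ram uu ME)

/-- the block `(jY, (j+1)Y]` with `j = (n-1)/Y` -/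
def blk (Y n : ℕ) : Finset ℕ := Ioc ((n - 1) / Y * Y) ((n - 1) / Y * Y + Y)

/-- `∑_{d ≤ R} c_d(m)` -/
noncomputable def RS (R : ℕ) (m : ℤ) : ℝ := ∑ d ∈ Icc 1 R, ram d m

/-- the structured part -/
noncomputable def fs (R Y : ℕ) (f : ℕ → ℝ) (n : ℕ) : ℝ :=
  (1 / (Y : ℝ)) * ∑ m ∈ blk Y n, f m * RS R ((m : ℤ) - n)

/-- the cut function -/
noncomputable def gc (R Y : ℕ) (f : ℕ → ℝ) (n : ℕ) : ℝ := f n - fs R Y f n

/-- the maximum over `a ∈ A` prime to `q` of the largest error up to `x` (`0` if there is none) -/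
noncomputable def mE (x q : ℕ) (A : Finset ℕ) : ℝ :=
  ⨆ a : {a : ℕ // a ∈ A ∧ Nat.Coprime a q}, ME x q ((a : ℕ) : ZMod q)

end Pool.Agent.H65.MS
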