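import Pool.Agent.H65.MS.Tri

/-!
# MS Exc: from selections of residues to exceptional sets

Let `F'` be the family of the violating sets `A ∈ F`, `nb = #F'`, and suppose `nb > Z`.  For `A ∈ F'` and `q ∈ M` let `r A q ∈ A` be prime to `q` with
`mE x q A = ME x q (r A q)` (`mE_cases`); if `mE x q A = 0` no residue is needed (put the pair `(A, q)` aside).
`S q = {r A q : A ∈ F', (A, q) not aside}`: `#S q ≤ nb`, and `A ↦ r A q` is injective because the sets are pairwise disjoint.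
`L = log x`, `G = ⌈L^(C+4)⌉`.  By `grid` (`KF.Mxa`): `ME x q b ≤ ∑_{j ≤ G} |err (j x/G) q b| + (x/G + 1)/φ(q)` (`Finset.sup'_le`).  So
`nb x/L^C < ∑_{A ∈ F'} ∑_{q ∈ M} mE x q A ≤ ∑_{j ≤ G} ∑_{q ∈ M} ∑_{a ∈ S q} |err (j x/G) q a| + nb (x/G + 1) ∑_{q ≤ x} 1/φ(q)`
`≤ (G+1) nb x/L^(2C+6) + nb (x/L^(C+4) + 1) 4 L^2 ≤ nb x (3/L^2 + 8/L^2)/L^C < nb x/L^C` for large `x`
(`phi_inv_sum`; hypothesis `h` with `y = j x/G ≤ x`).  Contradiction.
-/

set_option autoImplicit false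

namespace Pool.Agent.H65.MS

open Finset
open Pool.Agent.H91.EHA (err)
open Pool.Agent.H80.KF (ME grid phi_inv_sum)

/-- `Bad`: the members of `F` which violate the bound `x/(log x)^C` for the moduli `M` -/
noncomputable def Bad (x C : ℕ) (M : Finset ℕ) (F : Finset (Finset ℕ)) : Finset (Finset ℕ) := by
  classical
  exact F.filter (fun A => (x : ℝ) / Real.log x ^ C < ∑ q ∈ M, mE x q A)

private theorem exc_num (C : ℕ) : ∃ x0 : ℕ, ∀ x : ℕ, x0 ≤ x →
    3 ≤ x ∧ 4 ≤ Real.log x ∧ Real.log x ^ (C + 4) ≤ x := by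
  have h1 : ∀ᶠ x : ℝ in Filter.atTop, |Real.log x ^ (C + 4)| ≤ 1 * |x| := by
    have := (Real.isLittleO_pow_log_id_atTop (n := C + 4)).def one_pos
    simpa [Real.norm_eq_abs] using this
  have h2 : ∀ᶠ x : ℝ in Filter.atTop, 4 ≤ Real.log x :=
    Real.tendsto_log_atTop.eventually_ge_atTop 4
  have h3 : ∀ᶠ x : ℝ in Filter.atTop, (3 : ℝ) ≤ x := Filter.eventually_ge_atTop 3
  have h4 := tendsto_natCast_atTop_atTop (R := ℝ) |>.eventually (h1.and (h2.and h3))
  obtain ⟨x0, hx0⟩ := Filter.eventually_atTop.1 h4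
  refine ⟨x0, fun x hx => ?_⟩
  obtain ⟨a1, a2, a3⟩ := hx0 x hx
  refine ⟨by exact_mod_cast a3, a2, ?_⟩
  rw [one_mul, abs_of_nonneg (show (0 : ℝ) ≤ (x : ℝ) by positivity)] at a1
  exact (le_abs_self _).trans a1

private theorem exc_ineq (C : ℕ) (x L G : ℝ) (hx : 3 ≤ x) (hL : 4 ≤ L) (hLx : L ^ (C + 4) ≤ x)
    (hG1 : L ^ (C + 4) ≤ G) (hG2 : G ≤ L ^ (C + 4) + 1) :
    (G + 1) * (x / L ^ (2 * C + 6)) + (x / G + 1) * (4 * L ^ 2) < x / L ^ C := by
  have hL0 : 0 < L := by linarith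
  have hLp : 1 ≤ L ^ (C + 4) := one_le_pow₀ (by linarith)
  have hG0 : 0 < G := by linarith
  have hx0 : 0 < x := by linarith
  have e1 : (G + 1) * (x / L ^ (2 * C + 6)) ≤ 3 * (x / L ^ (C + 2)) := by
    have a1 : G + 1 ≤ 3 * L ^ (C + 4) := by linarith
    calc (G + 1) * (x / L ^ (2 * C + 6)) ≤ (3 * L ^ (C + 4)) * (x / L ^ (2 * C + 6)) := by
          gcongr
      _ = 3 * (x / L ^ (C + 2)) := by
          have : L ^ (2 * C + 6) = L ^ (C + 4) * L ^ (C + 2) := by rw [← pow_add]; ring_nf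
          rw [this]
          field_simp
  have e2 : x / G ≤ x / L ^ (C + 4) := by gcongr
  have e3 : x / L ^ (C + 4) * (4 * L ^ 2) = 4 * (x / L ^ (C + 2)) := by
    have : L ^ (C + 4) = L ^ (C + 2) * L ^ 2 := by rw [← pow_add]
    rw [this]
    field_simp
  have e4 : 4 * L ^ 2 ≤ 4 * (x / L ^ (C + 2)) := by
    have : L ^ 2 ≤ x / L ^ (C + 2) := by
      rw [le_div_iff₀ (by positivity), ← pow_add]
      calc L ^ (2 + (C + 2)) = L ^ (C + 4) := by ring_nf
        _ ≤ x := hLx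
    linarith
  have e5 : (x / G + 1) * (4 * L ^ 2) ≤ 8 * (x / L ^ (C + 2)) := by
    have a1 : x / G * (4 * L ^ 2) ≤ x / L ^ (C + 4) * (4 * L ^ 2) :=
      mul_le_mul_of_nonneg_right e2 (by positivity)
    rw [e3] at a1
    linarith [add_mul (x / G) 1 (4 * L ^ 2)]
  have e6 : x / L ^ C = L ^ 2 * (x / L ^ (C + 2)) := by
    have : L ^ (C + 2) = L ^ C * L ^ 2 := by rw [← pow_add]
    rw [this]
    field_simp
  rw [e6]
  have e7 : 0 < x / L ^ (C + 2) := by positivity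
  have e8 : (16 : ℝ) ≤ L ^ 2 := by nlinarith
  have e9 : 16 * (x / L ^ (C + 2)) ≤ L ^ 2 * (x / L ^ (C + 2)) :=
    mul_le_mul_of_nonneg_right e8 e7.le
  linarith

private theorem exc_ME (x G q : ℕ) (hx : 1 ≤ x) (hG : 1 ≤ G) (hq : 1 ≤ q) (b : ZMod q) :
    ME x q b ≤ ∑ j ∈ range (G + 1), |err (j * x / G) q b| +
      ((x : ℝ) / G + 1) / (Nat.totient q : ℝ) := by
  unfold ME
  refine Finset.sup'_le _ _ fun y hy => ?_
  exact grid x G q hx hG hq b y (by rw [mem_range] at hy; omega)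

/-- one modulus: the sum over the family is a sum over a selection of residues -/
private theorem exc_sel (x q : ℕ) (F : Finset (Finset ℕ)) (a0 H : ℕ)
    (hF : ∀ A ∈ F, A ⊆ Ioc a0 (a0 + H)) (hdis : ∀ A ∈ F, ∀ B ∈ F, A ≠ B → Disjoint A B) :
    ∃ S : Finset ℕ, S ⊆ Ioc a0 (a0 + H) ∧ S.card ≤ F.card ∧
      ∑ A ∈ F, mE x q A = ∑ a ∈ S.filter (fun a => Nat.Coprime a q), ME x q (a : ZMod q) := by
  classical
  have hr : ∀ A : Finset ℕ, ∃ a : ℕ, mE x q A ≠ 0 →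
      a ∈ A ∧ Nat.Coprime a q ∧ mE x q A = ME x q (a : ZMod q) := by
    intro A
    rcases mE_cases x q A with h | ⟨a, h1, h2, h3⟩
    · exact ⟨0, fun h0 => absurd h h0⟩
    · exact ⟨a, fun _ => ⟨h1, h2, h3⟩⟩
  choose r hr using hr
  set F' := F.filter (fun A => mE x q A ≠ 0) with hF'
  have hmem : ∀ A ∈ F', A ∈ F ∧ mE x q A ≠ 0 := fun A hA => mem_filter.1 hA
  have hinj : Set.InjOn r F' := by
    intro A hA B hB hAB
    by_contra hne
    obtain ⟨hA1, hA2⟩ := hmem A hA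
    obtain ⟨hB1, hB2⟩ := hmem B hB
    have h1 := (hr A hA2).1
    have h2 := (hr B hB2).1
    rw [← hAB] at h2
    exact Finset.disjoint_left.1 (hdis A hA1 B hB1 hne) h1 h2
  refine ⟨F'.image r, ?_, ?_, ?_⟩
  · intro a ha
    obtain ⟨A, hA, rfl⟩ := mem_image.1 ha
    obtain ⟨hA1, hA2⟩ := hmem A hA
    exact hF A hA1 (hr A hA2).1
  · exact card_image_le.trans (card_filter_le _ _)
  · have e1 : (F'.image r).filter (fun a => Nat.Coprime a q) = F'.image r := by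
      refine filter_true_of_mem fun a ha => ?_
      obtain ⟨A, hA, rfl⟩ := mem_image.1 ha
      exact (hr A (hmem A hA).2).2.1
    rw [e1, sum_image hinj]
    have e2 : ∑ A ∈ F, mE x q A = ∑ A ∈ F', mE x q A := by
      rw [hF']
      exact (sum_filter_ne_zero F).symm
    rw [e2]
    exact sum_congr rfl fun A hA => (hr A (hmem A hA).2).2.2

theorem exc (C : ℕ) : ∃ x0 : ℕ, ∀ x : ℕ, x0 ≤ x → ∀ (M : Finset ℕ), M ⊆ Icc 1 x →
    ∀ (a0 H : ℕ) (Z : ℝ), 0 ≤ Z →
    (∀ nb : ℕ, Z < nb → ∀ S : ℕ → Finset ℕ, (∀ q, S q ⊆ Ioc a0 (a0 + H)) → (∀ q, (S q).card ≤ nb) →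
      ∀ y : ℕ, y ≤ x →
      ∑ q ∈ M, ∑ a ∈ (S q).filter (fun a => Nat.Coprime a q), |err y q (a : ZMod q)|
        ≤ nb * x / Real.log x ^ (2 * C + 6)) →
    ∀ F : Finset (Finset ℕ), (∀ A ∈ F, A ⊆ Ioc a0 (a0 + H)) →
      (∀ A ∈ F, ∀ B ∈ F, A ≠ B → Disjoint A B) → ((Bad x C M F).card : ℝ) ≤ Z := by
  classical
  obtain ⟨x0, hx0⟩ := exc_num C
  refine ⟨x0, fun x hx M hM a0 H Z hZ h F hF hdis => ?_⟩
  obtain ⟨hx3, hL4, hLx⟩ := hx0 x hx
  have hx3r : (3 : ℝ) ≤ x := by exact_mod_cast hx3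
  by_contra hcon
  push Not at hcon
  set F' := Bad x C M F with hF'
  have hF'F : ∀ A ∈ F', A ∈ F ∧ (x : ℝ) / Real.log x ^ C < ∑ q ∈ M, mE x q A := by
    intro A hA
    rw [hF', Bad] at hA
    exact mem_filter.1 hA
  set nb := F'.card with hnb
  have hnb0 : (0 : ℝ) < nb := lt_of_le_of_lt hZ hcon
  have hsel : ∀ q : ℕ, ∃ S : Finset ℕ, S ⊆ Ioc a0 (a0 + H) ∧ S.card ≤ nb ∧
      ∑ A ∈ F', mE x q A = ∑ a ∈ S.filter (fun a => Nat.Coprime a q), ME x q (a : ZMod q) :=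
    fun q => exc_sel x q F' a0 H (fun A hA => hF A (hF'F A hA).1)
      (fun A hA B hB => hdis A (hF'F A hA).1 B (hF'F B hB).1)
  choose S hS1 hS2 hS3 using hsel
  set L := Real.log x with hL
  set G := ⌈L ^ (C + 4)⌉₊ with hG
  have hLp : 1 ≤ L ^ (C + 4) := one_le_pow₀ (by linarith)
  have hG1 : L ^ (C + 4) ≤ (G : ℝ) := Nat.le_ceil _
  have hG2 : (G : ℝ) ≤ L ^ (C + 4) + 1 := (Nat.ceil_lt_add_one (by linarith)).le
  have hG1' : 1 ≤ G := by
    have : (1 : ℝ) ≤ G := hLp.trans hG1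
    exact_mod_cast this
  have hq1 : ∀ q ∈ M, 1 ≤ q := fun q hq => (mem_Icc.1 (hM hq)).1
  have step1 : ∑ q ∈ M, ∑ A ∈ F', mE x q A ≤
      ∑ j ∈ range (G + 1), (∑ q ∈ M, ∑ a ∈ (S q).filter (fun a => Nat.Coprime a q),
        |err (j * x / G) q (a : ZMod q)|) +
      nb * (((x : ℝ) / G + 1) * ∑ q ∈ M, 1 / (Nat.totient q : ℝ)) := by
    calc ∑ q ∈ M, ∑ A ∈ F', mE x q A
        = ∑ q ∈ M, ∑ a ∈ (S q).filter (fun a => Nat.Coprime a q), ME x q (a : ZMod q) :=
          sum_congr rfl fun q _ => hS3 q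
      _ ≤ ∑ q ∈ M, (∑ j ∈ range (G + 1), ∑ a ∈ (S q).filter (fun a => Nat.Coprime a q),
            |err (j * x / G) q (a : ZMod q)| + nb * (((x : ℝ) / G + 1) / (Nat.totient q : ℝ))) := by
          refine sum_le_sum fun q hq => ?_
          calc ∑ a ∈ (S q).filter (fun a => Nat.Coprime a q), ME x q (a : ZMod q)
              ≤ ∑ a ∈ (S q).filter (fun a => Nat.Coprime a q),
                (∑ j ∈ range (G + 1), |err (j * x / G) q (a : ZMod q)| +
                  ((x : ℝ) / G + 1) / (Nat.totient q : ℝ)) :=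
                sum_le_sum fun a _ => exc_ME x G q (by omega) hG1' (hq1 q hq) _
            _ = ∑ j ∈ range (G + 1), ∑ a ∈ (S q).filter (fun a => Nat.Coprime a q),
                |err (j * x / G) q (a : ZMod q)| +
                ((S q).filter (fun a => Nat.Coprime a q)).card *
                  (((x : ℝ) / G + 1) / (Nat.totient q : ℝ)) := by
                rw [sum_add_distrib, sum_comm, sum_const, nsmul_eq_mul]
            _ ≤ _ := by
                have hc : (((S q).filter (fun a => Nat.Coprime a q)).card : ℝ) ≤ nb := by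
                  exact_mod_cast (card_filter_le _ _).trans (hS2 q)
                have hp : 0 ≤ ((x : ℝ) / G + 1) / (Nat.totient q : ℝ) := by positivity
                exact add_le_add le_rfl (mul_le_mul_of_nonneg_right hc hp)
      _ = _ := by
          rw [sum_add_distrib, sum_comm, mul_sum, mul_sum]
          congr 1
          exact sum_congr rfl fun q _ => by ring
  have step2 : ∑ j ∈ range (G + 1), (∑ q ∈ M, ∑ a ∈ (S q).filter (fun a => Nat.Coprime a q),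
        |err (j * x / G) q (a : ZMod q)|) ≤ (G + 1) * (nb * x / L ^ (2 * C + 6)) := by
    calc _ ≤ ∑ j ∈ range (G + 1), (nb * x / L ^ (2 * C + 6) : ℝ) := by
          refine sum_le_sum fun j hj => h nb hcon S hS1 hS2 _ ?_
          rw [mem_range] at hj
          have : j * x ≤ G * x := Nat.mul_le_mul_right _ (by omega)
          calc j * x / G ≤ G * x / G := Nat.div_le_div_right this
            _ = x := Nat.mul_div_cancel_left x (by omega)
      _ = _ := by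
          rw [sum_const, card_range, nsmul_eq_mul]
          push_cast
          ring
  have step3 : ∑ q ∈ M, 1 / (Nat.totient q : ℝ) ≤ 4 * L ^ 2 :=
    (sum_le_sum_of_subset_of_nonneg hM fun q _ _ => by positivity).trans (phi_inv_sum x hx3)
  have step4 : nb * ((x : ℝ) / L ^ C) ≤ ∑ q ∈ M, ∑ A ∈ F', mE x q A := by
    rw [sum_comm]
    calc nb * ((x : ℝ) / L ^ C) = ∑ A ∈ F', (x : ℝ) / L ^ C := by
          rw [sum_const, nsmul_eq_mul]
      _ ≤ ∑ A ∈ F', ∑ q ∈ M, mE x q A := sum_le_sum fun A hA => (hF'F A hA).2.le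
  have step5 := exc_ineq C x L G hx3r hL4 hLx hG1 hG2
  have step6 : nb * (((x : ℝ) / G + 1) * ∑ q ∈ M, 1 / (Nat.totient q : ℝ)) ≤
      nb * (((x : ℝ) / G + 1) * (4 * L ^ 2)) := by
    have hp : 0 ≤ (x : ℝ) / G + 1 := by positivity
    exact mul_le_mul_of_nonneg_left (mul_le_mul_of_nonneg_left step3 hp) hnb0.le
  have step7 : (nb : ℝ) * ((G + 1) * (x / L ^ (2 * C + 6)) + (x / G + 1) * (4 * L ^ 2)) <
      nb * (x / L ^ C) := mul_lt_mul_of_pos_left step5 hnb0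
  have step8 : (G + 1) * (nb * x / L ^ (2 * C + 6)) = nb * ((G + 1) * (x / L ^ (2 * C + 6))) := by
    ring
  rw [step8] at step2
  rw [mul_add] at step7
  linarith

end Pool.Agent.H65.MS
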