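import Pool.Agent.H65.MS.ZPb
import Pool.Agent.H76.EHB.JJfin

/-!
# MS JP: the bound for `JJ`, power saving

The analogue of `JJ_bound` in `Pool/Agent/H76/EHB/JJfin.lean` (same structure).  `JJ_le` with `Θ = K Y ≤ 1` and four times `II_le` with
`T0 = x^(10ρ)`, `T1 = x^10`, `ZB = K/x^(6ρ)` (`ZZ_pow`, for `l` and `-l`; `Sp ⊆ Icc 1 K`), and `MB` from `mel_small` with
`P = x^(1 - 46ρ)` (`≥ 1`), `E = x^(1 - 77ρ)`, `Fm = 2 x^(2ρ)`, `|t| ≤ T0`, `N ≤ 2x`, `√P = x^(1/2 - 23ρ)`: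
`2 (1 + 7 N/P) E/√P ≤ 2 (1 + 14 x^(46ρ)) x^(1-77ρ) x^(-1/2+23ρ) ≤ 30 x^(1/2 - 8ρ)`,
`30 Fm (1+|t|) √P (1 + log N) ≤ 30 * 2 x^(2ρ) * 2 x^(10ρ) * x^(1/2-23ρ) * 3 log x ≤ x^(1/2 - 10ρ)` for large `x`.
So `MB = 31 x^(1/2-8ρ)`, `2 K T0 MB^2 ≤ 2000 K x^(1-6ρ)`;  `ZB S2 ≤ 40 K x^(1-6ρ)`;  last term: `∑|f| ≤ 2x * 2x^(2ρ) ≤ x^2`,
`N + |a| + 1 ≤ 3x (1 + |a|/x)`, so `100 K (..)^2/x^10 ≤ 900 K (1+|a|/x)^2/x^4`.  All together (factor `2 * 4`)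
`≤ K x^(1-5ρ) (1+|a|/x)^2` since `x^ρ` is large.  `ρ0 = min(ρ0 of ZZ_pow, 1/100)`.
-/

set_option autoImplicit false

namespace Pool.Agent.H65.MS

open Finset
open Pool.Agent.H91.PK (ee)
open Pool.Agent.H76.EHB

private theorem JP_x0 (ρ : ℝ) (hρ : 0 < ρ) : ∃ x0 : ℕ, ∀ x : ℕ, x0 ≤ x →
    (1 : ℝ) ≤ x ∧ 32000 ≤ (x : ℝ) ^ ρ ∧ 120 * (1 + Real.log (2 * x)) ≤ (x : ℝ) ^ ρ := by
  have h1 : ∀ᶠ y : ℝ in Filter.atTop, ‖Real.log y‖ ≤ 1 / 240 * ‖y ^ ρ‖ :=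
    (isLittleO_log_rpow_atTop hρ).bound (by norm_num)
  have h2 : ∀ᶠ y : ℝ in Filter.atTop, 32000 ≤ y ^ ρ :=
    (tendsto_rpow_atTop hρ).eventually_ge_atTop 32000
  have h3 : ∀ᶠ y : ℝ in Filter.atTop, (1 : ℝ) ≤ y := Filter.eventually_ge_atTop 1
  have h4 := tendsto_natCast_atTop_atTop (R := ℝ)
  have h5 : ∀ᶠ x : ℕ in Filter.atTop,
      (1 : ℝ) ≤ x ∧ 32000 ≤ (x : ℝ) ^ ρ ∧ 120 * (1 + Real.log (2 * x)) ≤ (x : ℝ) ^ ρ := by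
    filter_upwards [h4.eventually h1, h4.eventually h2, h4.eventually h3] with x a1 a2 a3
    refine ⟨a3, a2, ?_⟩
    have hx0 : (0 : ℝ) < x := by linarith
    rw [Real.norm_of_nonneg (Real.log_nonneg a3), Real.norm_of_nonneg (by positivity)] at a1
    rw [Real.log_mul (by norm_num) hx0.ne']
    have h6 := Real.log_two_lt_d9
    linarith
  exact Filter.eventually_atTop.mp h5

/-- The bound for the Mellin transform. -/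
private theorem JP_mel (f : ℕ → ℝ) (N : ℕ) (α a Θ s t x y : ℝ) (hN : 1 ≤ N)
    (hNx : (N : ℝ) ≤ 2 * x) (hs : s = 1 ∨ s = -1) (hΘ : Θ ≤ 1) (hx : 1 ≤ x) (hy : 1 ≤ y)
    (hlog : 120 * (1 + Real.log (2 * x)) ≤ y) (hP : y ^ 100 ≤ x)
    (hF : ∀ n ∈ Icc 1 N, |f n| ≤ 2 * y ^ 2)
    (h : ∀ u, u ≤ N → ‖∑ n ∈ Icc 1 u, (f n : ℂ) * ee (n * α)‖ ≤ x / y ^ 77)
    (ht : |t| ≤ y ^ 10) :
    ‖Mel (gg f N α a Θ s) t‖ ≤ 31 * (Real.sqrt x / y ^ 8) := by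
  have hy0 : 0 < y := by linarith
  have hx0 : 0 < x := by linarith
  have hsx : 0 < Real.sqrt x := Real.sqrt_pos.mpr hx0
  have hsxx : Real.sqrt x * Real.sqrt x = x := Real.mul_self_sqrt hx0.le
  have hP1 : 1 ≤ x / y ^ 46 := by
    rw [le_div_iff₀ (by positivity)]
    have : y ^ 46 ≤ y ^ 100 := pow_le_pow_right₀ hy (by norm_num)
    linarith
  have hmel := mel_small f N α a Θ s t (x / y ^ 77) (2 * y ^ 2) (x / y ^ 46) hN hs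
    hΘ (by positivity) hP1 hF h
  have hsq : Real.sqrt (x / y ^ 46) = Real.sqrt x / y ^ 23 := by
    have h1 : y ^ 46 = (y ^ 23) ^ 2 := by ring
    rw [Real.sqrt_div hx0.le, h1, Real.sqrt_sq (by positivity)]
  rw [hsq] at hmel
  have hN0 : (0 : ℝ) < N := by exact_mod_cast hN
  have hlogN : Real.log N ≤ Real.log (2 * x) := Real.log_le_log hN0 hNx
  have hlogN0 : 0 ≤ Real.log N := Real.log_natCast_nonneg N
  -- first term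
  have ha1 : 1 + 7 * (1 / (x / y ^ 46)) * N ≤ 15 * y ^ 46 := by
    have h1 : 1 / (x / y ^ 46) * N ≤ 2 * y ^ 46 := by
      rw [one_div_div, div_mul_eq_mul_div, div_le_iff₀ hx0]
      have := mul_le_mul_of_nonneg_left hNx (by positivity : 0 ≤ y ^ 46)
      linarith
    have h2 : (1 : ℝ) ≤ y ^ 46 := one_le_pow₀ hy
    linarith
  have hb1 : 2 * (1 + 7 * (1 / (x / y ^ 46)) * N) * (x / y ^ 77) /
      (Real.sqrt x / y ^ 23) ≤ 30 * (Real.sqrt x / y ^ 8) := by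
    have h1 : 2 * (15 * y ^ 46) * (x / y ^ 77) / (Real.sqrt x / y ^ 23) =
        30 * (Real.sqrt x / y ^ 8) := by
      have key : ∀ z : ℝ, z ≠ 0 → 2 * (15 * y ^ 46) * (z * z / y ^ 77) / (z / y ^ 23) =
          30 * (z / y ^ 8) := by
        intro z hz
        field_simp
        ring
      have key2 := key (Real.sqrt x) hsx.ne'
      rw [hsxx] at key2
      exact key2
    rw [← h1]
    gcongr
  -- second term
  have hb2 : 30 * (2 * y ^ 2) * (1 + |t|) * (Real.sqrt x / y ^ 23) * (1 + Real.log N) ≤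
      Real.sqrt x / y ^ 8 := by
    have h1 : 1 + |t| ≤ 2 * y ^ 10 := by
      have : (1 : ℝ) ≤ y ^ 10 := one_le_pow₀ hy
      linarith
    have h2 : 1 + Real.log N ≤ y / 120 := by linarith
    have h3 : 30 * (2 * y ^ 2) * (2 * y ^ 10) * (Real.sqrt x / y ^ 23) * (y / 120) =
        Real.sqrt x / y ^ 10 := by
      field_simp
      ring
    have h4 : Real.sqrt x / y ^ 10 ≤ Real.sqrt x / y ^ 8 := by
      apply div_le_div_of_nonneg_left hsx.le (by positivity)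
      exact pow_le_pow_right₀ hy (by norm_num)
    refine le_trans ?_ h4
    rw [← h3]
    gcongr
  linarith

private theorem JP_num1 (K x y : ℝ) (hK : 0 ≤ K) (hx : 1 ≤ x) (hy : 32000 ≤ y) :
    2 * K * y ^ 10 * (31 * (Real.sqrt x / y ^ 8)) ^ 2 + K / y ^ 6 * (40 * x)
      ≤ 1 / 16 * (K * (x / y ^ 5)) := by
  have hy0 : 0 < y := by linarith
  have hx0 : 0 < x := by linarith
  have hsxx : Real.sqrt x ^ 2 = x := Real.sq_sqrt hx0.le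
  have h1 : 2 * K * y ^ 10 * (31 * (Real.sqrt x / y ^ 8)) ^ 2 + K / y ^ 6 * (40 * x)
      = (K * (x / y ^ 5)) * (1962 / y) := by
    rw [mul_pow, div_pow, hsxx]
    field_simp
    ring
  rw [h1, mul_comm (1 / 16 : ℝ)]
  refine mul_le_mul_of_nonneg_left ?_ (by positivity)
  rw [div_le_div_iff₀ hy0 (by norm_num)]
  linarith

private theorem JP_num2 (K x y q S b : ℝ) (hK : 0 ≤ K) (hx : 1 ≤ x) (hy : 32000 ≤ y) (hP : y ^ 100 ≤ x)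
    (hS0 : 0 ≤ S) (hS : S ≤ x * x) (hb0 : 0 ≤ b) (hb : b ≤ 3 * x * q) :
    100 * K * (b * S) ^ 2 / x ^ 10 ≤ 1 / 16 * (K * (x / y ^ 5) * q ^ 2) := by
  have hy0 : 0 < y := by linarith
  have hx0 : 0 < x := by linarith
  have h1 : (b * S) ^ 2 ≤ (3 * x * q * (x * x)) ^ 2 :=
    pow_le_pow_left₀ (by positivity) (mul_le_mul hb hS hS0 (hb0.trans hb)) 2
  have h2 : 100 * K * (3 * x * q * (x * x)) ^ 2 / x ^ 10 = K * q ^ 2 * (900 / x ^ 4) := by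
    field_simp
    ring
  have h3 : 900 / x ^ 4 ≤ 1 / 16 * (x / y ^ 5) := by
    rw [div_le_iff₀ (by positivity)]
    have h4 : 14400 * y ^ 5 ≤ x := by
      have h5 : y ^ 6 ≤ y ^ 100 := pow_le_pow_right₀ (by linarith) (by norm_num)
      have h6 : y ^ 6 = y * y ^ 5 := by ring
      have h7 : 14400 * y ^ 5 ≤ y * y ^ 5 := mul_le_mul_of_nonneg_right (by linarith) (by positivity)
      linarith
    have h8 : 14400 ≤ x / y ^ 5 := by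
      rw [le_div_iff₀ (by positivity)]; exact h4
    have h9 : (1 : ℝ) ≤ x ^ 4 := one_le_pow₀ hx
    calc (900 : ℝ) = 1 / 16 * 14400 * 1 := by norm_num
      _ ≤ 1 / 16 * (x / y ^ 5) * x ^ 4 := by
          refine mul_le_mul ?_ h9 (by norm_num) (by positivity)
          exact mul_le_mul_of_nonneg_left h8 (by norm_num)
  calc 100 * K * (b * S) ^ 2 / x ^ 10 ≤ 100 * K * (3 * x * q * (x * x)) ^ 2 / x ^ 10 := by
        gcongr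
    _ = K * q ^ 2 * (900 / x ^ 4) := h2
    _ ≤ K * q ^ 2 * (1 / 16 * (x / y ^ 5)) := mul_le_mul_of_nonneg_left h3 (by positivity)
    _ = _ := by ring

private theorem JP_one (f : ℕ → ℝ) (N K : ℕ) (α a Θ s x y : ℝ) (S : Finset ℕ)
    (hS : S ⊆ Icc 1 K) (hN : 1 ≤ N)
    (hNx : (N : ℝ) ≤ 2 * x) (hs : s = 1 ∨ s = -1) (hΘ : Θ ≤ 1) (hx : 1 ≤ x) (hy : 32000 ≤ y)
    (hlog : 120 * (1 + Real.log (2 * x)) ≤ y) (hP : y ^ 100 ≤ x)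
    (hF : ∀ n ∈ Icc 1 N, |f n| ≤ 2 * y ^ 2)
    (h : ∀ u, u ≤ N → ‖∑ n ∈ Icc 1 u, (f n : ℂ) * ee (n * α)‖ ≤ x / y ^ 77)
    (hS2 : S2 f N ≤ 40 * x)
    (hZ : ∀ t, y ^ 10 ≤ |t| → |t| ≤ x ^ 10 → ‖ZZ S t‖ ^ 2 ≤ K / y ^ 6) :
    II S (gg f N α a Θ s) ≤ 1 / 8 * (K * (x / y ^ 5) * (1 + |a| / x) ^ 2) := by
  have hy1 : 1 ≤ y := by linarith
  have hy0 : 0 < y := by linarith
  have hx0 : 0 < x := by linarith
  have hK0 : (0 : ℝ) ≤ K := Nat.cast_nonneg K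
  have hII := II_le f N K α a Θ s (y ^ 10) (x ^ 10) (31 * (Real.sqrt x / y ^ 8)) (K / y ^ 6) S hS hs hΘ
    (by positivity) (one_le_pow₀ hx) (by positivity) (by positivity)
    (fun t ht => JP_mel f N α a Θ s t x y hN hNx hs hΘ hx hy1 hlog hP hF h ht) hZ
  refine hII.trans ?_
  have hq : 1 ≤ (1 + |a| / x) ^ 2 := by
    have : 0 ≤ |a| / x := by positivity
    exact one_le_pow₀ (by linarith)
  have hbase : 0 ≤ K * (x / y ^ 5) := by positivity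
  have hone : K * (x / y ^ 5) ≤ K * (x / y ^ 5) * (1 + |a| / x) ^ 2 := le_mul_of_one_le_right hbase hq
  have h1 := JP_num1 K x y hK0 hx hy
  have h2 : K / y ^ 6 * S2 f N ≤ K / y ^ 6 * (40 * x) := mul_le_mul_of_nonneg_left hS2 (by positivity)
  have hsum0 : 0 ≤ ∑ n ∈ Icc 1 N, |f n| := Finset.sum_nonneg fun _ _ => abs_nonneg _
  have hsum : ∑ n ∈ Icc 1 N, |f n| ≤ x * x := by
    have h4 : 2 * (2 * y ^ 2) ≤ x := by
      have h5 : y ^ 3 ≤ y ^ 100 := pow_le_pow_right₀ hy1 (by norm_num)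
      have h6 : y ^ 3 = y * y ^ 2 := by ring
      have h7 : 4 * y ^ 2 ≤ y * y ^ 2 := mul_le_mul_of_nonneg_right (by linarith) (by positivity)
      linarith
    calc ∑ n ∈ Icc 1 N, |f n| ≤ ∑ n ∈ Icc 1 N, 2 * y ^ 2 := Finset.sum_le_sum hF
      _ = N * (2 * y ^ 2) := by rw [Finset.sum_const, Nat.card_Icc, nsmul_eq_mul]; simp
      _ ≤ (2 * x) * (2 * y ^ 2) := mul_le_mul_of_nonneg_right hNx (by positivity)
      _ = x * (2 * (2 * y ^ 2)) := by ring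
      _ ≤ x * x := mul_le_mul_of_nonneg_left h4 hx0.le
  have hb : (N : ℝ) + |a| + 1 ≤ 3 * x * (1 + |a| / x) := by
    have h6 : 3 * x * (1 + |a| / x) = 3 * x + 3 * |a| := by field_simp
    rw [h6]
    have := abs_nonneg a
    linarith
  have hb0 : 0 ≤ (N : ℝ) + |a| + 1 := by positivity
  have h3 := JP_num2 K x y (1 + |a| / x) (∑ n ∈ Icc 1 N, |f n|) (N + |a| + 1) hK0 hx hy hP hsum0 hsum
    hb0 hb
  linarith

theorem JJ_pow (kap : ℝ) (hkap : 0 < kap) : ∃ ρ0 : ℝ, 0 < ρ0 ∧ ∀ ρ : ℝ, 0 < ρ → ρ ≤ ρ0 →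
    ∃ x0 : ℕ, ∀ x : ℕ, x0 ≤ x → ∀ (f : ℕ → ℝ) (N K d : ℕ) (l : ℤ) (α a Y : ℝ), 1 ≤ N → N ≤ 2 * x →
      (x : ℝ) ^ kap ≤ K → K ≤ x → 1 ≤ d → 0 ≤ Y → K * Y ≤ 1 →
      (∀ n ∈ Icc 1 N, |f n| ≤ 2 * (x : ℝ) ^ (2 * ρ)) →
      (∀ u, u ≤ N → ‖∑ n ∈ Icc 1 u, (f n : ℂ) * ee (n * α)‖ ≤ (x : ℝ) ^ (1 - 77 * ρ)) →
      S2 f N ≤ 40 * x →
      JJ f N K d l α a Y ≤ K * (x : ℝ) ^ (1 - 5 * ρ) * (1 + |a| / x) ^ 2 := by
  obtain ⟨ρ1, hρ1, hZZ⟩ := ZZ_pow kap hkap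
  refine ⟨min ρ1 (1 / 100), lt_min hρ1 (by norm_num), fun ρ hρ hρle => ?_⟩
  obtain ⟨x1, hx1⟩ := hZZ ρ hρ (hρle.trans (min_le_left _ _))
  have hρ100 : ρ ≤ 1 / 100 := hρle.trans (min_le_right _ _)
  obtain ⟨x2, hx2⟩ := JP_x0 ρ hρ
  refine ⟨max x1 x2, fun x hx f N K d l α a Y hN hNx hK hKx hd hY hKY hF hsum hS2 => ?_⟩
  obtain ⟨hX1, hy, hlog⟩ := hx2 x (le_of_max_le_right hx)
  have hX0 : (0 : ℝ) < x := by linarith
  have hpw : ∀ k : ℕ, (x : ℝ) ^ (k * ρ) = ((x : ℝ) ^ ρ) ^ k := by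
    intro k
    rw [mul_comm, Real.rpow_mul hX0.le, Real.rpow_natCast]
  have hpw' : ∀ k : ℕ, (x : ℝ) ^ (1 - k * ρ) = (x : ℝ) / ((x : ℝ) ^ ρ) ^ k := by
    intro k
    rw [Real.rpow_sub hX0, Real.rpow_one, hpw]
  have e2 : (x : ℝ) ^ (2 * ρ) = ((x : ℝ) ^ ρ) ^ 2 := by exact_mod_cast hpw 2
  have e6 : (x : ℝ) ^ (6 * ρ) = ((x : ℝ) ^ ρ) ^ 6 := by exact_mod_cast hpw 6
  have e10 : (x : ℝ) ^ (10 * ρ) = ((x : ℝ) ^ ρ) ^ 10 := by exact_mod_cast hpw 10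
  have e5 : (x : ℝ) ^ (1 - 5 * ρ) = (x : ℝ) / ((x : ℝ) ^ ρ) ^ 5 := by exact_mod_cast hpw' 5
  have e77 : (x : ℝ) ^ (1 - 77 * ρ) = (x : ℝ) / ((x : ℝ) ^ ρ) ^ 77 := by exact_mod_cast hpw' 77
  have hP : ((x : ℝ) ^ ρ) ^ 100 ≤ x := by
    rw [← hpw 100]
    calc (x : ℝ) ^ (((100 : ℕ) : ℝ) * ρ) ≤ (x : ℝ) ^ (1 : ℝ) := by
          apply Real.rpow_le_rpow_of_exponent_le hX1
          push_cast
          linarith
      _ = x := Real.rpow_one _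
  have hNx' : (N : ℝ) ≤ 2 * x := by exact_mod_cast hNx
  have hSp : ∀ l' : ℤ, Sp K d l' ⊆ Icc 1 K := fun l' => Finset.filter_subset _ _
  have hZ := fun (l' : ℤ) (t : ℝ) => hx1 x (le_of_max_le_left hx) K d l' t hK hKx hd
  rw [e6, e10] at hZ
  rw [e2] at hF
  rw [e77] at hsum
  rw [e5]
  have hall : ∀ (l' : ℤ) (s : ℝ), s = 1 ∨ s = -1 →
      II (Sp K d l') (gg f N α a (K * Y) s) ≤
        1 / 8 * (K * ((x : ℝ) / ((x : ℝ) ^ ρ) ^ 5) * (1 + |a| / x) ^ 2) := fun l' s hs =>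
    JP_one f N K α a (K * Y) s x ((x : ℝ) ^ ρ) (Sp K d l') (hSp l') hN hNx' hs hKY hX1
      hy hlog hP hF hsum hS2 (hZ l')
  refine (JJ_le f N K d l α a Y (K * Y) hY le_rfl).trans ?_
  have h1 := hall l 1 (Or.inl rfl)
  have h2 := hall (-l) (-1) (Or.inr rfl)
  have h3 := hall l (-1) (Or.inr rfl)
  have h4 := hall (-l) 1 (Or.inl rfl)
  linarith

end Pool.Agent.H65.MS
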