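import Pool.Agent.H65.MS.AA

/-!
# MS Joint: from the library form to the form of the hand-in (parts 2 and 3)
-/

set_option autoImplicit false

namespace Pool.Agent.H65.MS

open Finset
open Pool.Agent.H91.EHA (err)
open Pool.Agent.H80.KF (ME)

/-- the maximum over the `a ∈ A` prime to `q` and over the integers `0 ≤ y ≤ x` of `|err y q a|`
(`0` if there is no such `a`) -/
noncomputable def maxErr (x q : ℕ) (A : Finset ℕ) : ℝ :=
  ⨆ z : {z : ℕ × ℕ // z.1 ∈ A ∧ Nat.Coprime z.1 q ∧ z.2 ≤ x}, |err z.1.2 q ((z.1.1 : ℕ) : ZMod q)|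

theorem maxErr_eq (x q : ℕ) (A : Finset ℕ) : maxErr x q A = mE x q A := by
  by_cases h : ∃ a ∈ A, Nat.Coprime a q
  · obtain ⟨a0, ha0, hq0⟩ := h
    have hfin : Finite {z : ℕ × ℕ // z.1 ∈ A ∧ Nat.Coprime z.1 q ∧ z.2 ≤ x} := by
      refine Set.Finite.to_subtype (Set.Finite.subset (Finset.finite_toSet (A ×ˢ range (x + 1))) ?_)
      rintro ⟨u, v⟩ ⟨h1, -, h3⟩
      rw [mem_coe, mem_product, mem_range]
      exact ⟨h1, by omega⟩
    have hfin2 : Finite {a : ℕ // a ∈ A ∧ Nat.Coprime a q} := by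
      refine Set.Finite.to_subtype (Set.Finite.subset (Finset.finite_toSet A) ?_)
      intro u hu
      exact hu.1
    have : Nonempty {z : ℕ × ℕ // z.1 ∈ A ∧ Nat.Coprime z.1 q ∧ z.2 ≤ x} :=
      ⟨⟨(a0, 0), ha0, hq0, Nat.zero_le _⟩⟩
    apply le_antisymm
    · unfold maxErr
      refine ciSup_le ?_
      rintro ⟨⟨u, v⟩, h1, h2, h3⟩
      refine le_trans ?_ (le_mE x q A u h1 h2)
      unfold ME
      have h4 : v ∈ range (x + 1) := mem_range.2 (Nat.lt_succ_of_le h3)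
      exact Finset.le_sup' (fun y => |err y q ((u : ℕ) : ZMod q)|) h4
    · rcases mE_cases x q A with h | ⟨a, ha, hq, h⟩
      · rw [h]
        exact Real.iSup_nonneg fun _ => abs_nonneg _
      · rw [h]
        unfold ME
        refine Finset.sup'_le _ _ fun y hy => ?_
        rw [mem_range] at hy
        unfold maxErr
        exact le_ciSup (f := fun z : {z : ℕ × ℕ // z.1 ∈ A ∧ Nat.Coprime z.1 q ∧ z.2 ≤ x} =>
          |err z.1.2 q ((z.1.1 : ℕ) : ZMod q)|) (Set.finite_range _).bddAbove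
          ⟨(a, y), ha, hq, by omega⟩
  · have e1 : IsEmpty {z : ℕ × ℕ // z.1 ∈ A ∧ Nat.Coprime z.1 q ∧ z.2 ≤ x} :=
      ⟨fun z => h ⟨z.1.1, z.2.1, z.2.2.1⟩⟩
    have e2 : IsEmpty {a : ℕ // a ∈ A ∧ Nat.Coprime a q} := ⟨fun z => h ⟨z.1, z.2.1, z.2.2⟩⟩
    unfold maxErr mE
    rw [Real.iSup_of_isEmpty, Real.iSup_of_isEmpty]

theorem bad_all (x C : ℕ) (M : Finset ℕ) (F : Finset (Finset ℕ))
    (h : ∀ A ∈ F, ¬ ∑ q ∈ M, maxErr x q A ≤ x / Real.log x ^ C) : Bad x C M F = F := by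
  unfold Bad
  apply filter_true_of_mem
  intro A hA
  have h1 := h A hA
  simp only [maxErr_eq, not_le] at h1
  exact h1

theorem ms_family (θ ε : ℝ) (hθ : θ < 1) (hε : 0 < ε) : ∃ c : ℝ, 0 < c ∧ ∀ C : ℕ, ∃ x0 : ℕ,
    ∀ x : ℕ, x0 ≤ x → ∀ a0 H : ℕ, a0 + H ≤ x →
      ∀ F : Finset (Finset ℕ), (F : Set (Finset ℕ)).PairwiseDisjoint id →
        (∀ A ∈ F, A ⊆ Ioc a0 (a0 + H)) →
        (∀ A ∈ F, ¬ ∑ q ∈ (Icc 1 ⌊(x : ℝ) ^ θ⌋₊).filter (fun q : ℕ => (x : ℝ) ^ (1 / 3 + ε) ≤ H ∨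
          (q : ℝ) ^ 2 ≤ H * (x : ℝ) ^ (1 - ε) ∨ (x : ℝ) ^ (1 + ε) ≤ q * H), maxErr x q A
            ≤ x / Real.log x ^ C) →
        (F.card : ℝ) ≤ H * (x : ℝ) ^ (-c) := by
  obtain ⟨c, hc, h⟩ := ms_main θ ε hθ hε
  refine ⟨c, hc, fun C => ?_⟩
  obtain ⟨x1, h1⟩ := h C
  refine ⟨max x1 1, fun x hx a0 H haH F hd hF hbad => ?_⟩
  have g1 : x1 ≤ x := (le_max_left _ _).trans hx
  have g2 : 1 ≤ x := (le_max_right _ _).trans hx
  have h2 := h1 x g1 a0 H (by omega) (by omega) F hF (fun A hA B hB hAB => hd hA hB hAB)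
  have h3 : MM θ ε x H = (Icc 1 ⌊(x : ℝ) ^ θ⌋₊).filter (fun q : ℕ => (x : ℝ) ^ (1 / 3 + ε) ≤ H ∨
      (q : ℝ) ^ 2 ≤ H * (x : ℝ) ^ (1 - ε) ∨ (x : ℝ) ^ (1 + ε) ≤ q * H) := by
    by_cases h4 : (x : ℝ) ^ (1 / 3 + ε) ≤ H
    · rw [MM_all θ ε hε x H g2 h4]
      symm
      apply filter_true_of_mem
      intro q _
      exact Or.inl h4
    · unfold MM
      apply filter_congr
      intro q _
      simp only [h4, false_or]
  rw [h3, bad_all x C _ F hbad] at h2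
  exact h2

theorem maxErr_singleton (x q a : ℕ) :
    maxErr x q {a} = if Nat.Coprime a q then ME x q (a : ZMod q) else 0 := by
  rw [maxErr_eq, mE_singleton]

theorem all_residues (θ ε : ℝ) (hθ : θ < 1) (hε : 0 < ε) : ∃ c : ℝ, 0 < c ∧ ∃ E : Set ℕ,
    (∃ X0 : ℕ, ∀ X : ℕ, X0 ≤ X → ((E ∩ Set.Icc 1 X).ncard : ℝ) ≤ (X : ℝ) ^ (1 - c)) ∧
    ∀ C : ℕ, ∃ a1 : ℕ, ∀ a : ℕ, a1 ≤ a → a ∉ E → ∀ x : ℕ, a ≤ x → (x : ℝ) ≤ (a : ℝ) ^ (3 - ε) →
      ∑ q ∈ Icc 1 ⌊(x : ℝ) ^ θ⌋₊, maxErr x q {a} ≤ x / Real.log x ^ C := by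
  obtain ⟨c, E, hc, h1, h2⟩ := almost_all θ (max (3 - ε) 1) hθ (lt_of_lt_of_le one_pos (le_max_right _ _))
    (max_lt (by linarith) (by norm_num))
  refine ⟨c, hc, E, h1, fun C => ?_⟩
  obtain ⟨a1, ha1⟩ := h2 C
  refine ⟨max a1 1, fun a ha haE x hax hxa => ?_⟩
  have g1 : a1 ≤ a := (le_max_left _ _).trans ha
  have g2 : (1 : ℝ) ≤ a := by exact_mod_cast (le_max_right a1 1).trans ha
  have h3 := ha1 a g1 haE x hax (hxa.trans (Real.rpow_le_rpow_of_exponent_le g2 (le_max_left _ _)))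
  refine le_trans (le_of_eq ?_) h3
  rw [sum_filter]
  exact sum_congr rfl fun q _ => maxErr_singleton x q a

end Pool.Agent.H65.MS
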