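import Pool.Agent.H65.MS.Joint
import Pool.Agent.H91.L1.SelJ

/-!
# MS One: every level up to and including `x/(log x)^D`

`one_main`: the estimate of project MS (`ms_family`, `all_residues`, levels `x^θ`, `θ < 1`) and the
estimate of project L1 (helper91, `level_sets`, level `x/(log x)^D`) in one statement with the
level as a parameter `θ ≤ 1`.  New here: for `θ = 1` one exceptional set for all `x` in
`[a, a^(3-ε)]` (`one_residues`).
-/

set_option autoImplicit false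

namespace Pool.Agent.H65.MS

open Finset
open Pool.Agent.H91.EHA (err)
open Pool.Agent.H80.KF (ME)
open Pool.Agent.H91.L1 (HuxProp level_sets)

/-- the moduli -/
noncomputable def modu (θ ε : ℝ) (D x H : ℕ) : Finset ℕ :=
  (Icc 1 ⌊(x : ℝ) ^ θ / Real.log x ^ D⌋₊).filter (fun q : ℕ => (x : ℝ) ^ (1 / 3 + ε) ≤ H ∨
    (q : ℝ) ^ 2 ≤ H * (x : ℝ) ^ (1 - ε) ∨ ((x : ℝ) ^ (1 + ε) ≤ q * H ∧ (q : ℝ) ≤ (x : ℝ) ^ (1 - ε)) ∨
    (x : ℝ) ^ (7 / 6 + ε) ≤ q * H)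

theorem maxErr_nonneg (x q : ℕ) (A : Finset ℕ) : 0 ≤ maxErr x q A := by
  rw [maxErr_eq]
  exact mE_nonneg x q A

/-- logarithms against powers and constants -/
private theorem one_log (C : ℕ) (c : ℝ) (hc : 0 < c) (K : ℝ) : ∃ x0 : ℕ, ∀ x : ℕ, x0 ≤ x →
    K ≤ Real.log x ∧ Real.log x ^ C ≤ (x : ℝ) ^ c := by
  have h1 : (fun x : ℝ => Real.log x ^ (C : ℝ)) =o[Filter.atTop] (fun x : ℝ => x ^ c) :=
    isLittleO_log_rpow_rpow_atTop _ hc
  have h2 := h1.def (show (0 : ℝ) < 1 by norm_num)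
  have h3 := (tendsto_natCast_atTop_atTop (R := ℝ)).eventually h2
  have h4 : ∀ᶠ x : ℕ in Filter.atTop, max K 1 ≤ Real.log x :=
    (Real.tendsto_log_atTop.comp (tendsto_natCast_atTop_atTop (R := ℝ))).eventually
      (Filter.eventually_ge_atTop _)
  obtain ⟨x0, hx0⟩ := Filter.eventually_atTop.1 (h3.and h4)
  refine ⟨x0, fun x hx => ?_⟩
  obtain ⟨h5, h6⟩ := hx0 x hx
  have h7 : (1 : ℝ) ≤ Real.log x := (le_max_right _ _).trans h6
  refine ⟨(le_max_left _ _).trans h6, ?_⟩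
  rw [Real.norm_of_nonneg (Real.rpow_nonneg (by linarith) _),
    Real.norm_of_nonneg (Real.rpow_nonneg (Nat.cast_nonneg x) _), one_mul, Real.rpow_natCast] at h5
  exact h5

/-- monotonicity in the set of moduli -/
private theorem one_mono (x C : ℕ) (M M' : Finset ℕ) (A : Finset ℕ) (h : M ⊆ M')
    (h1 : ∑ q ∈ M', maxErr x q A ≤ x / Real.log x ^ C) :
    ∑ q ∈ M, maxErr x q A ≤ x / Real.log x ^ C :=
  (Finset.sum_le_sum_of_subset_of_nonneg h (fun q _ _ => maxErr_nonneg x q A)).trans h1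

/-- counting an exceptional set made of dyadic pieces -/
private theorem one_count (C : ℕ) : ∃ X0 : ℕ, ∀ X : ℕ, X0 ≤ X → ∀ (P : ℕ → ℕ → Prop)
    (E : ℕ → ℕ → Finset ℕ), (∀ i j, P i j → i ≤ j ∧ j ≤ 3 * i) →
    (∀ i j, E i j ⊆ Ioc (2 ^ i) (2 ^ i + 2 ^ i)) →
    (∀ i j, P i j → ((E i j).card : ℝ) ≤ ((2 ^ i : ℕ) : ℝ) / Real.log ((2 ^ j : ℕ) : ℝ) ^ (C + 5)) →
    ((({a | ∃ i j : ℕ, P i j ∧ a ∈ E i j} : Set ℕ) ∩ Set.Icc 1 X).ncard : ℝ)
      ≤ X / Real.log X ^ C := by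
  obtain ⟨X1, h1⟩ := one_log (C + 2) (1 / 4) (by norm_num) (42 * 2 ^ (C + 5) + 100)
  refine ⟨max X1 2, fun X hX P E hP hE hcard => ?_⟩
  classical
  obtain ⟨hL, hLX⟩ := h1 X ((le_max_left _ _).trans hX)
  have hX2 : 2 ≤ X := (le_max_right _ _).trans hX
  have hXr : (2 : ℝ) ≤ X := by exact_mod_cast hX2
  have hX0 : (0 : ℝ) < X := by linarith
  set L : ℝ := Real.log X with hLd
  have hp2 : (1 : ℝ) ≤ 2 ^ (C + 5) := one_le_pow₀ (by norm_num)
  have hL1 : (100 : ℝ) ≤ L := by linarith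
  set l := Nat.log 2 X with hl
  set U : ℝ := Real.sqrt X + 2 ^ (C + 5) * (X / L ^ (C + 5)) with hU
  have hU0 : 0 ≤ U := by positivity
  have hlX : 2 ^ l ≤ X := Nat.pow_log_le_self 2 (by omega)
  have hlX2 : X < 2 ^ (l + 1) := Nat.lt_pow_succ_log_self (by norm_num) X
  have hlL : (l : ℝ) ≤ 2 * L := by
    have h8 : ((2 : ℝ) ^ l) ≤ X := by exact_mod_cast hlX
    have h9 := Real.log_le_log (by positivity) h8
    rw [Real.log_pow, ← hLd] at h9
    have h10 := Real.log_two_gt_d9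
    have h11 : (0 : ℝ) ≤ l := Nat.cast_nonneg _
    nlinarith only [h9, h10, h11]
  have hLl : L ≤ ((l : ℝ) + 1) * Real.log 2 := by
    have h8 : (X : ℝ) ≤ (2 : ℝ) ^ (l + 1) := by exact_mod_cast hlX2.le
    have h9 := Real.log_le_log hX0 h8
    rw [Real.log_pow, ← hLd] at h9
    push_cast at h9
    exact h9
  have hone : ∀ i j : ℕ, i ≤ l → P i j → ((E i j).card : ℝ) ≤ U := by
    intro i j hi hij
    by_cases h2 : 2 * i ≤ l
    · have h3 : ((E i j).card : ℝ) ≤ (2 : ℝ) ^ i := by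
        have h4 := Finset.card_le_card (hE i j)
        rw [Nat.card_Ioc, Nat.add_sub_cancel_left] at h4
        exact_mod_cast h4
      have h5 : (2 : ℝ) ^ i ≤ Real.sqrt X := by
        apply Real.le_sqrt_of_sq_le
        have h6 : 2 ^ (i * 2) ≤ X :=
          (Nat.pow_le_pow_right (by norm_num) (by omega)).trans hlX
        rw [← pow_mul]
        exact_mod_cast h6
      have h7 : 0 ≤ 2 ^ (C + 5) * (X / L ^ (C + 5)) := by positivity
      rw [hU]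
      linarith
    · refine (hcard i j hij).trans ?_
      have h3 : L / 2 ≤ Real.log ((2 ^ j : ℕ) : ℝ) := by
        push_cast
        rw [Real.log_pow]
        have h4 : l + 1 ≤ 2 * j := by
          have := (hP i j hij).1
          omega
        have h5 : ((l : ℝ) + 1) ≤ 2 * j := by exact_mod_cast h4
        have h6 : 0 < Real.log 2 := Real.log_pos (by norm_num)
        nlinarith only [h5, h6, hLl]
      have h4 : (L / 2) ^ (C + 5) ≤ Real.log ((2 ^ j : ℕ) : ℝ) ^ (C + 5) :=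
        pow_le_pow_left₀ (by linarith) h3 _
      have h5 : ((2 ^ i : ℕ) : ℝ) ≤ X := by
        have : 2 ^ i ≤ X := (Nat.pow_le_pow_right (by norm_num) hi).trans hlX
        exact_mod_cast this
      have h6 : (0 : ℝ) < (L / 2) ^ (C + 5) := by positivity
      have h7 : ((2 ^ i : ℕ) : ℝ) / Real.log ((2 ^ j : ℕ) : ℝ) ^ (C + 5) ≤ X / (L / 2) ^ (C + 5) :=
        div_le_div₀ hX0.le h5 h6 h4
      have h8 : (X : ℝ) / (L / 2) ^ (C + 5) = 2 ^ (C + 5) * (X / L ^ (C + 5)) := by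
        rw [div_pow]
        field_simp
      have h9 : 0 ≤ Real.sqrt X := Real.sqrt_nonneg _
      rw [hU, ← h8]
      linarith
  set T : Finset ℕ := (range (l + 1)).biUnion (fun i => (range (3 * l + 1)).biUnion (fun j =>
    if P i j then E i j else ∅)) with hT
  have hsub : ({a | ∃ i j : ℕ, P i j ∧ a ∈ E i j} : Set ℕ) ∩ Set.Icc 1 X ⊆ (T : Set ℕ) := by
    rintro a ⟨⟨i, j, h1, h2⟩, h3⟩
    have h6 : 2 ^ i < a := (Finset.mem_Ioc.1 (hE i j h2)).1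
    have h7 : i ≤ l := Nat.le_log_of_pow_le (by norm_num) (h6.le.trans h3.2)
    have h8 := (hP i j h1).2
    rw [hT, Finset.mem_coe, Finset.mem_biUnion]
    refine ⟨i, Finset.mem_range.2 (by omega), ?_⟩
    rw [Finset.mem_biUnion]
    refine ⟨j, Finset.mem_range.2 (by omega), ?_⟩
    rw [if_pos h1]
    exact h2
  have h2 : ((({a | ∃ i j : ℕ, P i j ∧ a ∈ E i j} : Set ℕ) ∩ Set.Icc 1 X).ncard : ℝ)
      ≤ (T.card : ℝ) := by
    have := Set.ncard_le_ncard hsub (Finset.finite_toSet T)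
    rw [Set.ncard_coe_finset] at this
    exact_mod_cast this
  have h3 : (T.card : ℝ) ≤ ∑ i ∈ range (l + 1), ∑ j ∈ range (3 * l + 1), U := by
    have h4 : T.card ≤ ∑ i ∈ range (l + 1), ∑ j ∈ range (3 * l + 1),
        ((if P i j then E i j else ∅ : Finset ℕ)).card := by
      rw [hT]
      refine Finset.card_biUnion_le.trans (Finset.sum_le_sum (fun i _ => ?_))
      exact Finset.card_biUnion_le
    have h5 : (T.card : ℝ) ≤ ∑ i ∈ range (l + 1), ∑ j ∈ range (3 * l + 1),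
        (((if P i j then E i j else ∅ : Finset ℕ)).card : ℝ) := by
      exact_mod_cast h4
    refine h5.trans (Finset.sum_le_sum (fun i hi => Finset.sum_le_sum (fun j _ => ?_)))
    rw [Finset.mem_range] at hi
    split_ifs with h6
    · exact hone i j (by omega) h6
    · simpa using hU0
  rw [Finset.sum_const, Finset.sum_const, Finset.card_range, Finset.card_range, nsmul_eq_mul,
    nsmul_eq_mul] at h3
  push_cast at h3
  refine h2.trans (h3.trans ?_)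
  have h4 : (0 : ℝ) ≤ l := Nat.cast_nonneg _
  have h5 : ((l : ℝ) + 1) * (3 * (l : ℝ) + 1) ≤ 21 * L ^ 2 := by
    have a1 : (l : ℝ) + 1 ≤ 3 * L := by linarith
    have a2 : 3 * (l : ℝ) + 1 ≤ 7 * L := by linarith
    calc ((l : ℝ) + 1) * (3 * (l : ℝ) + 1) ≤ (3 * L) * (7 * L) :=
          mul_le_mul a1 a2 (by linarith) (by linarith)
      _ = 21 * L ^ 2 := by ring
  have hLp : (0 : ℝ) < L := by linarith
  have h6 : 21 * L ^ 2 * Real.sqrt X ≤ X / L ^ C / 2 := by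
    -- `L^(C+2) ≤ X^(1/4)` and `42 ≤ X^(1/4)`
    have b1 : (42 : ℝ) ≤ (X : ℝ) ^ (1 / 4 : ℝ) := by
      have : (42 : ℝ) ≤ L ^ (C + 2) := by
        calc (42 : ℝ) ≤ L ^ 1 := by rw [pow_one]; linarith
          _ ≤ L ^ (C + 2) := pow_le_pow_right₀ (by linarith) (by omega)
      exact this.trans hLX
    have b2 : (X : ℝ) = Real.sqrt X * (X : ℝ) ^ (1 / 4 : ℝ) * (X : ℝ) ^ (1 / 4 : ℝ) := by
      rw [Real.sqrt_eq_rpow, ← Real.rpow_add hX0, ← Real.rpow_add hX0]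
      norm_num
    have b3 : 42 * L ^ (C + 2) * Real.sqrt X ≤ X := by
      calc 42 * L ^ (C + 2) * Real.sqrt X ≤ (X : ℝ) ^ (1 / 4 : ℝ) * (X : ℝ) ^ (1 / 4 : ℝ) * Real.sqrt X :=
            mul_le_mul_of_nonneg_right (mul_le_mul b1 hLX (by positivity) (by positivity))
              (Real.sqrt_nonneg _)
        _ = X := by
            conv_rhs => rw [b2]
            ring
    rw [le_div_iff₀ (by norm_num), le_div_iff₀ (by positivity)]
    calc 21 * L ^ 2 * Real.sqrt X * 2 * L ^ C = 42 * L ^ (C + 2) * Real.sqrt X := by ring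
      _ ≤ X := b3
  have h7 : 21 * L ^ 2 * (2 ^ (C + 5) * (X / L ^ (C + 5))) ≤ X / L ^ C / 2 := by
    have b1 : 42 * 2 ^ (C + 5) ≤ L ^ 3 := by
      calc (42 * 2 ^ (C + 5) : ℝ) ≤ L := by linarith
        _ = L ^ 1 := (pow_one _).symm
        _ ≤ L ^ 3 := pow_le_pow_right₀ (by linarith) (by norm_num)
    have b2 : 21 * L ^ 2 * (2 ^ (C + 5) * (X / L ^ (C + 5)))
        = (42 * 2 ^ (C + 5)) * (X / (L ^ C * L ^ 3)) / 2 := by
      rw [pow_add L C 5]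
      field_simp
      ring
    rw [b2]
    have b3 : (42 * 2 ^ (C + 5)) * (X / (L ^ C * L ^ 3)) ≤ L ^ 3 * (X / (L ^ C * L ^ 3)) :=
      mul_le_mul_of_nonneg_right b1 (by positivity)
    have b4 : L ^ 3 * (X / (L ^ C * L ^ 3)) = X / L ^ C := by
      field_simp
    rw [b4] at b3
    linarith
  calc ((l : ℝ) + 1) * ((3 * (l : ℝ) + 1) * U) = ((l : ℝ) + 1) * (3 * (l : ℝ) + 1) * U := by ring
    _ ≤ 21 * L ^ 2 * U := mul_le_mul_of_nonneg_right h5 hU0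
    _ = 21 * L ^ 2 * Real.sqrt X + 21 * L ^ 2 * (2 ^ (C + 5) * (X / L ^ (C + 5))) := by
        rw [hU]
        ring
    _ ≤ X / L ^ C := by linarith

/-- from `2^j` to `x` -/
private theorem one_fin (C D j a x : ℕ) (hj : x ≤ 2 ^ j) (hj2 : 2 ^ j ≤ 2 * x)
    (hx : (2 : ℝ) ^ D + 2 ≤ Real.log x)
    (h : ∑ q ∈ Icc 1 ⌊((2 ^ j : ℕ) : ℝ) / Real.log ((2 ^ j : ℕ) : ℝ) ^ D⌋₊, maxErr (2 ^ j) q {a}
      ≤ ((2 ^ j : ℕ) : ℝ) / Real.log ((2 ^ j : ℕ) : ℝ) ^ (C + 5)) :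
    ∑ q ∈ Icc 1 ⌊(x : ℝ) / Real.log x ^ (D + 1)⌋₊, maxErr x q {a} ≤ x / Real.log x ^ C := by
  have hx0 : (1 : ℝ) < x := by
    by_contra hc
    push Not at hc
    have h1 := Real.log_nonpos (Nat.cast_nonneg x) hc
    have h2 : (0 : ℝ) < 2 ^ D := by positivity
    linarith
  have hp : (0 : ℝ) < 2 ^ D := by positivity
  have hxj : (x : ℝ) ≤ ((2 ^ j : ℕ) : ℝ) := by exact_mod_cast hj
  have hjx : ((2 ^ j : ℕ) : ℝ) ≤ 2 * x := by exact_mod_cast hj2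
  have hxp : (0 : ℝ) < x := by linarith
  have hL2 : (2 : ℝ) ≤ Real.log x := by linarith
  have hL0 : 0 < Real.log x := by linarith
  have hlog : Real.log x ≤ Real.log ((2 ^ j : ℕ) : ℝ) := Real.log_le_log hxp hxj
  have hlog2 : Real.log ((2 ^ j : ℕ) : ℝ) ≤ 2 * Real.log x := by
    calc Real.log ((2 ^ j : ℕ) : ℝ) ≤ Real.log (2 * x) := Real.log_le_log (by positivity) hjx
      _ = Real.log 2 + Real.log x := Real.log_mul (by norm_num) (by positivity)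
      _ ≤ 2 * Real.log x := by
          have := Real.log_two_lt_d9
          linarith
  have hM : Icc 1 ⌊(x : ℝ) / Real.log x ^ (D + 1)⌋₊ ⊆
      Icc 1 ⌊((2 ^ j : ℕ) : ℝ) / Real.log ((2 ^ j : ℕ) : ℝ) ^ D⌋₊ := by
    apply Finset.Icc_subset_Icc_right
    apply Nat.floor_le_floor
    have h1 : Real.log ((2 ^ j : ℕ) : ℝ) ^ D ≤ Real.log x ^ (D + 1) := by
      calc Real.log ((2 ^ j : ℕ) : ℝ) ^ D ≤ (2 * Real.log x) ^ D :=
            pow_le_pow_left₀ (by linarith) hlog2 _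
        _ = 2 ^ D * Real.log x ^ D := by rw [mul_pow]
        _ ≤ Real.log x * Real.log x ^ D := mul_le_mul_of_nonneg_right (by linarith) (by positivity)
        _ = Real.log x ^ (D + 1) := by ring
    have h2 : (0 : ℝ) < Real.log ((2 ^ j : ℕ) : ℝ) ^ D := pow_pos (by linarith) _
    exact div_le_div₀ (by positivity) hxj h2 h1
  have h1 : ∑ q ∈ Icc 1 ⌊(x : ℝ) / Real.log x ^ (D + 1)⌋₊, maxErr x q {a} ≤
      ∑ q ∈ Icc 1 ⌊((2 ^ j : ℕ) : ℝ) / Real.log ((2 ^ j : ℕ) : ℝ) ^ D⌋₊, maxErr (2 ^ j) q {a} := by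
    refine le_trans (Finset.sum_le_sum (fun q _ => ?_))
      (Finset.sum_le_sum_of_subset_of_nonneg hM (fun q _ _ => maxErr_nonneg (2 ^ j) q {a}))
    rw [maxErr_singleton, maxErr_singleton]
    split_ifs with h2
    · exact ME_mono x (2 ^ j) q hj _
    · exact le_rfl
  refine h1.trans (h.trans ?_)
  have h2 : Real.log x ^ (C + 1) ≤ Real.log ((2 ^ j : ℕ) : ℝ) ^ (C + 5) := by
    calc Real.log x ^ (C + 1) ≤ Real.log ((2 ^ j : ℕ) : ℝ) ^ (C + 1) := pow_le_pow_left₀ hL0.le hlog _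
      _ ≤ Real.log ((2 ^ j : ℕ) : ℝ) ^ (C + 5) := pow_le_pow_right₀ (by linarith) (by omega)
  calc ((2 ^ j : ℕ) : ℝ) / Real.log ((2 ^ j : ℕ) : ℝ) ^ (C + 5) ≤ ((2 ^ j : ℕ) : ℝ) / Real.log x ^ (C + 1) :=
        div_le_div_of_nonneg_left (by positivity) (by positivity) h2
    _ ≤ (2 * x) / Real.log x ^ (C + 1) := div_le_div_of_nonneg_right hjx (by positivity)
    _ ≤ x / Real.log x ^ C := by
        rw [pow_succ, div_le_div_iff₀ (by positivity) (by positivity)]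
        have h4 : 0 < Real.log x ^ C := by positivity
        have h5 : 0 ≤ (x : ℝ) * Real.log x ^ C := by positivity
        calc 2 * (x : ℝ) * Real.log x ^ C = 2 * ((x : ℝ) * Real.log x ^ C) := by ring
          _ ≤ Real.log x * ((x : ℝ) * Real.log x ^ C) := mul_le_mul_of_nonneg_right hL2 h5
          _ = x * (Real.log x ^ C * Real.log x) := by ring

/-- the family of the singletons of a dyadic interval -/
private noncomputable def one_F (i : ℕ) : Finset (Finset ℕ) :=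
  (Ioc (2 ^ i) (2 ^ i + 2 ^ i)).image (fun a => {a})

private noncomputable def one_E (ε : ℝ) (C D : ℕ) (i j : ℕ) : Finset ℕ := by
  classical
  exact (Ioc (2 ^ i) (2 ^ i + 2 ^ i)).filter
    (fun a => ({a} : Finset ℕ) ∈ Bad (2 ^ j) C
      ((Icc 1 ⌊((2 ^ j : ℕ) : ℝ) / Real.log ((2 ^ j : ℕ) : ℝ) ^ D⌋₊).filter
          (fun q : ℕ => ((2 ^ j : ℕ) : ℝ) ^ (1 / 3 + ε) ≤ ((2 ^ i : ℕ) : ℝ) ∨
          (q : ℝ) ^ 2 ≤ ((2 ^ i : ℕ) : ℝ) * ((2 ^ j : ℕ) : ℝ) ^ (1 - ε) ∨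
          (((2 ^ j : ℕ) : ℝ) ^ (1 + ε) ≤ q * ((2 ^ i : ℕ) : ℝ) ∧ (q : ℝ) ≤ ((2 ^ j : ℕ) : ℝ) ^ (1 - ε)) ∨
          ((2 ^ j : ℕ) : ℝ) ^ (7 / 6 + ε) ≤ q * ((2 ^ i : ℕ) : ℝ))) (one_F i))

private theorem one_E_sub (ε : ℝ) (C D : ℕ) (i j : ℕ) :
    one_E ε C D i j ⊆ Ioc (2 ^ i) (2 ^ i + 2 ^ i) := by
  unfold one_E
  exact Finset.filter_subset _ _

private theorem one_E_card (ε : ℝ) (C D i j : ℕ) (V : ℝ)
    (h : ((Bad (2 ^ j) C
      ((Icc 1 ⌊((2 ^ j : ℕ) : ℝ) / Real.log ((2 ^ j : ℕ) : ℝ) ^ D⌋₊).filter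
          (fun q : ℕ => ((2 ^ j : ℕ) : ℝ) ^ (1 / 3 + ε) ≤ ((2 ^ i : ℕ) : ℝ) ∨
          (q : ℝ) ^ 2 ≤ ((2 ^ i : ℕ) : ℝ) * ((2 ^ j : ℕ) : ℝ) ^ (1 - ε) ∨
          (((2 ^ j : ℕ) : ℝ) ^ (1 + ε) ≤ q * ((2 ^ i : ℕ) : ℝ) ∧ (q : ℝ) ≤ ((2 ^ j : ℕ) : ℝ) ^ (1 - ε)) ∨
          ((2 ^ j : ℕ) : ℝ) ^ (7 / 6 + ε) ≤ q * ((2 ^ i : ℕ) : ℝ))) (one_F i)).card : ℝ) ≤ V) :
    ((one_E ε C D i j).card : ℝ) ≤ V := by
  refine le_trans ?_ h
  have h1 : (one_E ε C D i j).card ≤ (Bad (2 ^ j) C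
      ((Icc 1 ⌊((2 ^ j : ℕ) : ℝ) / Real.log ((2 ^ j : ℕ) : ℝ) ^ D⌋₊).filter
          (fun q : ℕ => ((2 ^ j : ℕ) : ℝ) ^ (1 / 3 + ε) ≤ ((2 ^ i : ℕ) : ℝ) ∨
          (q : ℝ) ^ 2 ≤ ((2 ^ i : ℕ) : ℝ) * ((2 ^ j : ℕ) : ℝ) ^ (1 - ε) ∨
          (((2 ^ j : ℕ) : ℝ) ^ (1 + ε) ≤ q * ((2 ^ i : ℕ) : ℝ) ∧ (q : ℝ) ≤ ((2 ^ j : ℕ) : ℝ) ^ (1 - ε)) ∨
          ((2 ^ j : ℕ) : ℝ) ^ (7 / 6 + ε) ≤ q * ((2 ^ i : ℕ) : ℝ))) (one_F i)).card := by
    apply Finset.card_le_card_of_injOn (fun a => ({a} : Finset ℕ))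
    · intro a ha
      unfold one_E at ha
      simp only [Finset.coe_filter, Set.mem_ofPred_eq] at ha
      exact ha.2
    · intro a _ b _ h
      simpa using h
  exact_mod_cast h1

private theorem one_jle {ε : ℝ} (hε : 0 < ε) {i j : ℕ} (h : ((2 : ℝ) ^ j) ^ (1 / 3 + ε) ≤ (2 : ℝ) ^ i) :
    j ≤ 3 * i := by
  rw [← Real.rpow_natCast, ← Real.rpow_natCast, ← Real.rpow_mul (by norm_num),
    Real.rpow_le_rpow_left_iff (by norm_num)] at h
  have hj : (0 : ℝ) ≤ j := Nat.cast_nonneg j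
  have h1 : (j : ℝ) ≤ 3 * i := by nlinarith
  exact_mod_cast h1

/-- `θ = 1`: one exceptional set for all `x ∈ [a, a^B]`, `B < 3` -/
theorem one_residues (hH : HuxProp) (B : ℝ) (hB0 : 0 < B) (hB : B < 3) (C : ℕ) :
    ∃ (D : ℕ) (E : Set ℕ),
    (∃ X0 : ℕ, ∀ X : ℕ, X0 ≤ X → ((E ∩ Set.Icc 1 X).ncard : ℝ) ≤ X / Real.log X ^ C) ∧
    ∃ a1 : ℕ, ∀ a : ℕ, a1 ≤ a → a ∉ E → ∀ x : ℕ, a ≤ x → (x : ℝ) ≤ (a : ℝ) ^ B →
      ∑ q ∈ Icc 1 ⌊(x : ℝ) / Real.log x ^ D⌋₊, maxErr x q {a} ≤ x / Real.log x ^ C := by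
  obtain ⟨ε, hε, hBε⟩ : ∃ ε : ℝ, 0 < ε ∧ B * (1 / 3 + ε) < 1 := by
    refine ⟨(1 - B / 3) / (2 * B), ?_, ?_⟩
    · apply div_pos <;> linarith
    · have : B * (1 / 3 + (1 - B / 3) / (2 * B)) = B / 3 + (1 - B / 3) / 2 := by field_simp
      rw [this]
      linarith
  obtain ⟨D, x0, hx0⟩ := level_sets hH ε hε (C + 5)
  set P : ℕ → ℕ → Prop := fun i j => x0 ≤ 2 ^ j ∧ ((2 : ℝ) ^ j) ^ (1 / 3 + ε) ≤ (2 : ℝ) ^ i ∧
    i + 1 ≤ j with hP
  refine ⟨D + 1, {a | ∃ i j : ℕ, P i j ∧ a ∈ one_E ε (C + 5) D i j}, ?_, ?_⟩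
  · obtain ⟨X0, hX0⟩ := one_count C
    refine ⟨X0, fun X hX => hX0 X hX P (one_E ε (C + 5) D) ?_ (one_E_sub ε (C + 5) D) ?_⟩
    · intro i j hij
      exact ⟨by have := hij.2.2; omega, one_jle hε hij.2.1⟩
    · intro i j hij
      have e1 : (((2 ^ j : ℕ) : ℝ)) = (2 : ℝ) ^ j := by push_cast; rfl
      have e2 : (((2 ^ i : ℕ) : ℝ)) = (2 : ℝ) ^ i := by push_cast; rfl
      apply one_E_card
      refine hx0 (2 ^ j) hij.1 (2 ^ i) (2 ^ i) ?_ ?_ (one_F i) ?_ ?_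
      · rw [e1, e2]
        refine le_trans ?_ hij.2.1
        exact Real.rpow_le_rpow_of_exponent_le (one_le_pow₀ (by norm_num)) (by linarith)
      · calc 2 ^ i + 2 ^ i = 2 ^ (i + 1) := by ring
          _ ≤ 2 ^ j := Nat.pow_le_pow_right (by norm_num) hij.2.2
      · intro A hA
        unfold one_F at hA
        obtain ⟨a, ha, rfl⟩ := Finset.mem_image.1 hA
        exact Finset.singleton_subset_iff.2 ha
      · intro A hA B hB hne
        unfold one_F at hA hB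
        obtain ⟨a, ha, rfl⟩ := Finset.mem_image.1 hA
        obtain ⟨b, hb, rfl⟩ := Finset.mem_image.1 hB
        rw [Finset.disjoint_singleton]
        rintro rfl
        exact hne rfl
  · obtain ⟨i0, hi0⟩ : ∃ i0 : ℕ, ∀ i : ℕ, i0 ≤ i →
        (1 / 3 + ε) * (1 + B * (i + 1)) ≤ i := by
      obtain ⟨i0, hi0⟩ := exists_nat_ge (((1 / 3 + ε) * (1 + B)) / (1 - B * (1 / 3 + ε)))
      refine ⟨i0, fun i hi => ?_⟩
      have h1 : ((1 / 3 + ε) * (1 + B)) / (1 - B * (1 / 3 + ε)) ≤ i := hi0.trans (by exact_mod_cast hi)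
      rw [div_le_iff₀ (by linarith)] at h1
      nlinarith
    obtain ⟨x1, hx1⟩ : ∃ x1 : ℕ, ∀ x : ℕ, x1 ≤ x → (2 : ℝ) ^ D + 2 ≤ Real.log x :=
      Filter.eventually_atTop.1 ((Real.tendsto_log_atTop.comp (tendsto_natCast_atTop_atTop (R := ℝ))).eventually
        (Filter.eventually_ge_atTop _))
    refine ⟨2 ^ (i0 + 1) + x1 + x0 + 2, fun a ha haE x hax hxB => ?_⟩
    have hp1 : 1 ≤ 2 ^ i0 := Nat.one_le_two_pow
    have hp3 : 2 ^ (i0 + 1) = 2 * 2 ^ i0 := by ring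
    generalize hP1 : 2 ^ i0 = P1 at *
    rw [hp3] at ha
    set i := Nat.log 2 (a - 1) with hi
    set j := Nat.clog 2 x with hj
    have ha2 : 2 ≤ a := by omega
    have hi1 : 2 ^ i < a := by
      have := Nat.pow_log_le_self 2 (x := a - 1) (by omega)
      rw [← hi] at this
      omega
    have hi2 : a ≤ 2 ^ (i + 1) := by
      have := Nat.lt_pow_succ_log_self (b := 2) (by norm_num) (a - 1)
      rw [← hi] at this
      omega
    have hj1 : x ≤ 2 ^ j := Nat.le_pow_clog (by norm_num) x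
    have hjpos : 0 < j := Nat.clog_pos (by norm_num) (by omega)
    have hj2 : 2 ^ j < 2 * x := by
      have h1 := Nat.pow_pred_clog_lt_self (b := 2) (by norm_num) (x := x) (by omega)
      rw [← hj] at h1
      have h2 : 2 ^ j = 2 * 2 ^ (j - 1) := by
        obtain ⟨k, hk⟩ : ∃ k, j = k + 1 := ⟨j - 1, by omega⟩
        rw [hk]
        simp [pow_succ]
        ring
      rw [h2]
      have h3 : 2 ^ j.pred < x := h1
      have h4 : j.pred = j - 1 := rfl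
      rw [h4] at h3
      omega
    have hij : i + 1 ≤ j := by
      have : 2 ^ i < 2 ^ j := by omega
      exact (Nat.pow_lt_pow_iff_right (by norm_num)).1 this
    have hii0 : i0 ≤ i := Nat.le_log_of_pow_le (by norm_num) (by
      rw [hP1]
      omega)
    have hσ : ((2 : ℝ) ^ j) ^ (1 / 3 + ε) ≤ (2 : ℝ) ^ i := by
      have h1 : ((2 : ℝ) ^ j) ≤ (2 : ℝ) ^ (1 + B * ((i : ℝ) + 1)) := by
        have h2 : ((2 : ℝ) ^ j) ≤ 2 * x := by exact_mod_cast hj2.le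
        have h3 : (a : ℝ) ^ B ≤ (2 : ℝ) ^ (B * ((i : ℝ) + 1)) := by
          have h4 : (a : ℝ) ≤ (2 : ℝ) ^ ((i : ℝ) + 1) := by
            have h5 : (a : ℝ) ≤ (2 : ℝ) ^ (i + 1) := by exact_mod_cast hi2
            rw [← Real.rpow_natCast] at h5
            push_cast at h5
            exact h5
          calc (a : ℝ) ^ B ≤ ((2 : ℝ) ^ ((i : ℝ) + 1)) ^ B := Real.rpow_le_rpow (Nat.cast_nonneg a) h4 hB0.le
            _ = (2 : ℝ) ^ (B * ((i : ℝ) + 1)) := by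
                rw [← Real.rpow_mul (by norm_num)]
                congr 1
                ring
        rw [Real.rpow_add (by norm_num), Real.rpow_one]
        linarith
      calc ((2 : ℝ) ^ j) ^ (1 / 3 + ε) ≤ ((2 : ℝ) ^ (1 + B * ((i : ℝ) + 1))) ^ (1 / 3 + ε) :=
            Real.rpow_le_rpow (by positivity) h1 (by positivity)
        _ = (2 : ℝ) ^ ((1 / 3 + ε) * (1 + B * ((i : ℝ) + 1))) := by
            rw [← Real.rpow_mul (by norm_num)]
            congr 1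
            ring
        _ ≤ (2 : ℝ) ^ (i : ℝ) := Real.rpow_le_rpow_of_exponent_le (by norm_num) (hi0 i hii0)
        _ = (2 : ℝ) ^ i := Real.rpow_natCast _ _
    have haI : a ∈ Ioc (2 ^ i) (2 ^ i + 2 ^ i) := by
      refine Finset.mem_Ioc.2 ⟨hi1, ?_⟩
      rw [pow_succ] at hi2
      omega
    have haF : ({a} : Finset ℕ) ∈ one_F i := by
      unfold one_F
      rw [Finset.mem_image]
      exact ⟨a, haI, rfl⟩
    set M : Finset ℕ := (Icc 1 ⌊((2 ^ j : ℕ) : ℝ) / Real.log ((2 ^ j : ℕ) : ℝ) ^ D⌋₊).filter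
          (fun q : ℕ => ((2 ^ j : ℕ) : ℝ) ^ (1 / 3 + ε) ≤ ((2 ^ i : ℕ) : ℝ) ∨
          (q : ℝ) ^ 2 ≤ ((2 ^ i : ℕ) : ℝ) * ((2 ^ j : ℕ) : ℝ) ^ (1 - ε) ∨
          (((2 ^ j : ℕ) : ℝ) ^ (1 + ε) ≤ q * ((2 ^ i : ℕ) : ℝ) ∧ (q : ℝ) ≤ ((2 ^ j : ℕ) : ℝ) ^ (1 - ε)) ∨
          ((2 ^ j : ℕ) : ℝ) ^ (7 / 6 + ε) ≤ q * ((2 ^ i : ℕ) : ℝ)) with hM
    have hMM : M = Icc 1 ⌊((2 ^ j : ℕ) : ℝ) / Real.log ((2 ^ j : ℕ) : ℝ) ^ D⌋₊ := by
      rw [hM]
      apply Finset.filter_true_of_mem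
      intro q _
      left
      push_cast
      exact hσ
    have hnot : ¬ (({a} : Finset ℕ) ∈ Bad (2 ^ j) (C + 5) M (one_F i)) := by
      intro hbad
      apply haE
      refine ⟨i, j, ⟨by omega, hσ, hij⟩, ?_⟩
      unfold one_E
      rw [Finset.mem_filter]
      exact ⟨haI, hbad⟩
    have hle : ∑ q ∈ M, maxErr (2 ^ j) q {a} ≤
        ((2 ^ j : ℕ) : ℝ) / Real.log ((2 ^ j : ℕ) : ℝ) ^ (C + 5) := by
      by_contra hc
      push Not at hc
      apply hnot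
      unfold Bad
      rw [Finset.mem_filter]
      refine ⟨haF, ?_⟩
      simp only [maxErr_eq] at hc
      exact hc
    rw [hMM] at hle
    exact one_fin C D j a x hj1 hj2.le (hx1 x (by omega)) hle

/-- the modulus set decreases with `D` -/
private theorem one_modu_D (θ ε : ℝ) (D D' x H : ℕ) (hD : D ≤ D') (hL : 1 ≤ Real.log x) :
    modu θ ε D' x H ⊆ modu θ ε D x H := by
  unfold modu
  apply Finset.filter_subset_filter
  apply Finset.Icc_subset_Icc_right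
  apply Nat.floor_le_floor
  apply div_le_div_of_nonneg_left (by positivity) (by positivity)
  exact pow_le_pow_right₀ hL hD

private theorem one_Icc_D (θ : ℝ) (D D' x : ℕ) (hD : D ≤ D') (hL : 1 ≤ Real.log x) :
    Icc 1 ⌊(x : ℝ) ^ θ / Real.log x ^ D'⌋₊ ⊆ Icc 1 ⌊(x : ℝ) ^ θ / Real.log x ^ D⌋₊ := by
  apply Finset.Icc_subset_Icc_right
  apply Nat.floor_le_floor
  apply div_le_div_of_nonneg_left (by positivity) (by positivity)
  exact pow_le_pow_right₀ hL hD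

/-- the moduli of `ms_family` -/
private theorem one_modu_ms (θ ε : ℝ) (D x H : ℕ) (hL : 1 ≤ Real.log x) (hx : 1 ≤ x) :
    modu θ ε D x H ⊆ (Icc 1 ⌊(x : ℝ) ^ θ⌋₊).filter (fun q : ℕ => (x : ℝ) ^ (1 / 3 + ε) ≤ H ∨
          (q : ℝ) ^ 2 ≤ H * (x : ℝ) ^ (1 - ε) ∨ (x : ℝ) ^ (1 + ε) ≤ q * H) := by
  have hx1 : (1 : ℝ) ≤ x := by exact_mod_cast hx
  intro q hq
  unfold modu at hq
  rw [Finset.mem_filter, Finset.mem_Icc] at hq ⊢
  obtain ⟨⟨h1, h2⟩, h3⟩ := hq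
  refine ⟨⟨h1, h2.trans (Nat.floor_le_floor ?_)⟩, ?_⟩
  · exact div_le_self (by positivity) (one_le_pow₀ hL)
  · rcases h3 with h | h | h | h
    · exact Or.inl h
    · exact Or.inr (Or.inl h)
    · exact Or.inr (Or.inr h.1)
    · refine Or.inr (Or.inr (le_trans ?_ h))
      exact Real.rpow_le_rpow_of_exponent_le hx1 (by linarith)

/-- short `H`: only moduli up to `x^(1/2)` remain -/
private theorem one_modu_short (ε : ℝ) (D x H : ℕ) (hL : 1 ≤ Real.log x) (hx : 1 < x)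
    (hH : (H : ℝ) < (x : ℝ) ^ ε) :
    modu 1 ε D x H ⊆ (Icc 1 ⌊(x : ℝ) ^ (3 / 4 : ℝ)⌋₊).filter (fun q : ℕ =>
        (x : ℝ) ^ (1 / 3 + ε) ≤ H ∨
          (q : ℝ) ^ 2 ≤ H * (x : ℝ) ^ (1 - ε) ∨ (x : ℝ) ^ (1 + ε) ≤ q * H) := by
  have hx1 : (1 : ℝ) < x := by exact_mod_cast hx
  have hx0 : (0 : ℝ) < x := by linarith
  intro q hq
  unfold modu at hq
  rw [Finset.mem_filter, Finset.mem_Icc] at hq ⊢
  obtain ⟨⟨h1, h2⟩, h3⟩ := hq
  have hqx : (q : ℝ) ≤ x := by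
    have h4 : (q : ℝ) ≤ (x : ℝ) ^ (1 : ℝ) / Real.log x ^ D :=
      (Nat.le_floor_iff (by positivity)).1 h2
    rw [Real.rpow_one] at h4
    exact h4.trans (div_le_self hx0.le (one_le_pow₀ hL))
  have hq1 : (1 : ℝ) ≤ q := by exact_mod_cast h1
  have hlt : (q : ℝ) * H < (x : ℝ) ^ (1 + ε) := by
    calc (q : ℝ) * H < q * (x : ℝ) ^ ε := mul_lt_mul_of_pos_left hH (by linarith)
      _ ≤ x * (x : ℝ) ^ ε := mul_le_mul_of_nonneg_right hqx (by positivity)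
      _ = (x : ℝ) ^ (1 + ε) := by rw [Real.rpow_add hx0, Real.rpow_one]
  have hsq : (q : ℝ) ^ 2 ≤ H * (x : ℝ) ^ (1 - ε) → (q : ℝ) ≤ (x : ℝ) ^ (3 / 4 : ℝ) := by
    intro h
    have h5 : (q : ℝ) ^ 2 ≤ x := by
      refine h.trans ?_
      calc (H : ℝ) * (x : ℝ) ^ (1 - ε) ≤ (x : ℝ) ^ ε * (x : ℝ) ^ (1 - ε) :=
            mul_le_mul_of_nonneg_right hH.le (by positivity)
        _ = x := by
            rw [← Real.rpow_add hx0]
            norm_num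
    have h6 : (q : ℝ) ≤ Real.sqrt x := Real.le_sqrt_of_sq_le h5
    refine h6.trans ?_
    rw [Real.sqrt_eq_rpow]
    exact Real.rpow_le_rpow_of_exponent_le hx1.le (by norm_num)
  rcases h3 with h | h | h | h
  · exfalso
    have h4 : (x : ℝ) ^ ε ≤ (x : ℝ) ^ (1 / 3 + ε) :=
      Real.rpow_le_rpow_of_exponent_le hx1.le (by linarith)
    linarith
  · exact ⟨⟨h1, Nat.le_floor (hsq h)⟩, Or.inr (Or.inl h)⟩
  · exfalso
    linarith [h.1]
  · exfalso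
    have h4 : (x : ℝ) ^ (1 + ε) ≤ (x : ℝ) ^ (7 / 6 + ε) :=
      Real.rpow_le_rpow_of_exponent_le hx1.le (by linarith)
    linarith

/-- violating sets of `level_sets` -/
theorem one_level (hH : HuxProp) (ε : ℝ) (hε : 0 < ε) (C : ℕ) : ∃ D x₀ : ℕ, ∀ x : ℕ, x₀ ≤ x →
    ∀ a0 H : ℕ, a0 + H ≤ x →
      ∀ F : Finset (Finset ℕ), (F : Set (Finset ℕ)).PairwiseDisjoint id →
        (∀ A ∈ F, A ⊆ Ioc a0 (a0 + H)) →
        (∀ A ∈ F, ¬ ∑ q ∈ modu 1 ε D x H, maxErr x q A ≤ x / Real.log x ^ C) →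
        (F.card : ℝ) ≤ H / Real.log x ^ C := by
  obtain ⟨D, x1, hx1⟩ := level_sets hH ε hε C
  obtain ⟨c, hc, hms⟩ := ms_family (3 / 4) ε (by norm_num) hε
  obtain ⟨x2, hx2⟩ := hms C
  obtain ⟨x3, hx3⟩ := one_log C c hc 1
  refine ⟨D, max (max x1 x2) (max x3 2), fun x hx a0 H haH F hd hF hbad => ?_⟩
  have i1 : x1 ≤ x := le_trans (le_trans (le_max_left _ _) (le_max_left _ _)) hx
  have i2 : x2 ≤ x := le_trans (le_trans (le_max_right _ _) (le_max_left _ _)) hx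
  have i3 : x3 ≤ x := le_trans (le_trans (le_max_left _ _) (le_max_right _ _)) hx
  have i4 : 2 ≤ x := le_trans (le_trans (le_max_right _ _) (le_max_right _ _)) hx
  obtain ⟨hL, hLc⟩ := hx3 x i3
  have hx0 : (0 : ℝ) < x := by
    have : (2 : ℝ) ≤ x := by exact_mod_cast i4
    linarith
  by_cases hHε : (x : ℝ) ^ ε ≤ H
  · have h1 := hx1 x i1 a0 H hHε haH F hF (fun A hA B hB hAB => hd hA hB hAB)
    rw [bad_all x C _ F ?_] at h1
    · exact h1
    · intro A hA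
      have h2 := hbad A hA
      unfold modu at h2
      rw [Real.rpow_one] at h2
      exact h2
  · push Not at hHε
    have h1 := hx2 x i2 a0 H haH F hd hF (fun A hA hgood => hbad A hA
      (one_mono x C _ _ A (one_modu_short ε D x H hL (by omega) hHε) hgood))
    refine h1.trans ?_
    rw [div_eq_mul_inv]
    apply mul_le_mul_of_nonneg_left _ (Nat.cast_nonneg H)
    rw [Real.rpow_neg hx0.le]
    exact inv_anti₀ (by positivity) hLc

/-- every level up to and including `x/(log x)^D` -/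
theorem one_main (hH : HuxProp) (θ ε : ℝ) (hθ : θ ≤ 1) (hε : 0 < ε) :
    ∃ c : ℝ, 0 ≤ c ∧ (θ < 1 → 0 < c) ∧ ∀ C : ℕ, ∃ D : ℕ, (θ < 1 → D = 0) ∧
      (∃ x₀ : ℕ, ∀ x : ℕ, x₀ ≤ x → ∀ a₀ H : ℕ, a₀ + H ≤ x →
        ∀ F : Finset (Finset ℕ), (F : Set (Finset ℕ)).PairwiseDisjoint id →
          (∀ A ∈ F, A ⊆ Ioc a₀ (a₀ + H) ∧
            ¬ ∑ q ∈ modu θ ε D x H, maxErr x q A ≤ x / Real.log x ^ C) →
          (F.card : ℝ) ≤ H * (x : ℝ) ^ (-c) / Real.log x ^ C) ∧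
      ∃ E : Set ℕ, (∃ X₀ : ℕ, ∀ X : ℕ, X₀ ≤ X →
          ((E ∩ Set.Icc 1 X).ncard : ℝ) ≤ (X : ℝ) ^ (1 - c) / Real.log X ^ C) ∧
        ∃ a₁ : ℕ, ∀ a : ℕ, a₁ ≤ a → a ∉ E → ∀ x : ℕ, a ≤ x → (x : ℝ) ≤ (a : ℝ) ^ (3 - ε) →
          ∑ q ∈ Icc 1 ⌊(x : ℝ) ^ θ / Real.log x ^ D⌋₊, maxErr x q {a} ≤ x / Real.log x ^ C := by
  rcases lt_or_eq_of_le hθ with hθ1 | hθ1
  · obtain ⟨c1, hc1, h1⟩ := ms_family θ ε hθ1 hε
    obtain ⟨c2, hc2, h2⟩ := all_residues θ ε hθ1 hε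
    set c := min c1 c2 / 2 with hc
    have hc0 : 0 < c := by
      have := lt_min hc1 hc2
      positivity
    have hcc1 : c + c ≤ c1 := by
      have := min_le_left c1 c2
      rw [hc]
      linarith
    have hcc2 : c + c ≤ c2 := by
      have := min_le_right c1 c2
      rw [hc]
      linarith
    refine ⟨c, hc0.le, fun _ => hc0, fun C => ⟨0, fun _ => rfl, ?_, ?_⟩⟩
    · obtain ⟨x0, hx0⟩ := h1 C
      obtain ⟨x1, hx1⟩ := one_log C c hc0 1
      refine ⟨max (max x0 x1) 1, fun x hx a0 H haH F hd hF => ?_⟩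
      have g1 : x0 ≤ x := le_trans (le_trans (le_max_left _ _) (le_max_left _ _)) hx
      have g2 : x1 ≤ x := le_trans (le_trans (le_max_right _ _) (le_max_left _ _)) hx
      have g3 : 1 ≤ x := le_trans (le_max_right _ _) hx
      obtain ⟨hL, hLc⟩ := hx1 x g2
      have hxr : (1 : ℝ) ≤ x := by exact_mod_cast g3
      have hx0' : (0 : ℝ) < x := by linarith
      have h3 := hx0 x g1 a0 H haH F hd (fun A hA => (hF A hA).1) (fun A hA hgood => (hF A hA).2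
        (one_mono x C _ _ A (one_modu_ms θ ε 0 x H hL g3) hgood))
      refine h3.trans ?_
      rw [mul_div_assoc]
      apply mul_le_mul_of_nonneg_left _ (Nat.cast_nonneg H)
      have h4 : (x : ℝ) ^ (-c1) ≤ (x : ℝ) ^ (-c) * (x : ℝ) ^ (-c) := by
        rw [← Real.rpow_add hx0']
        exact Real.rpow_le_rpow_of_exponent_le hxr (by linarith)
      refine h4.trans ?_
      rw [div_eq_mul_inv]
      apply mul_le_mul_of_nonneg_left _ (by positivity)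
      rw [Real.rpow_neg hx0'.le]
      exact inv_anti₀ (by positivity) hLc
    · obtain ⟨E, ⟨X0, hX0⟩, hE⟩ := h2
      refine ⟨E, ?_, ?_⟩
      · obtain ⟨X1, hX1⟩ := one_log C c hc0 1
        refine ⟨max (max X0 X1) 1, fun X hX => ?_⟩
        have g1 : X0 ≤ X := le_trans (le_trans (le_max_left _ _) (le_max_left _ _)) hX
        have g2 : X1 ≤ X := le_trans (le_trans (le_max_right _ _) (le_max_left _ _)) hX
        have g3 : 1 ≤ X := le_trans (le_max_right _ _) hX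
        obtain ⟨hL, hLc⟩ := hX1 X g2
        have hxr : (1 : ℝ) ≤ X := by exact_mod_cast g3
        have hx0' : (0 : ℝ) < X := by linarith
        refine (hX0 X g1).trans ?_
        have h4 : (X : ℝ) ^ (1 - c2) ≤ (X : ℝ) ^ (1 - c) * (X : ℝ) ^ (-c) := by
          rw [← Real.rpow_add hx0']
          exact Real.rpow_le_rpow_of_exponent_le hxr (by linarith)
        refine h4.trans ?_
        rw [div_eq_mul_inv]
        apply mul_le_mul_of_nonneg_left _ (by positivity)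
        rw [Real.rpow_neg hx0'.le]
        exact inv_anti₀ (by positivity) hLc
      · obtain ⟨a1, ha1⟩ := hE C
        refine ⟨a1, fun a ha haE x hax hxa => ?_⟩
        have h3 := ha1 a ha haE x hax hxa
        rw [pow_zero, div_one]
        exact h3
  · subst hθ1
    refine ⟨0, le_rfl, fun h => absurd h (lt_irrefl _), fun C => ?_⟩
    obtain ⟨D1, x1, hx1⟩ := one_level hH ε hε C
    obtain ⟨D2, E, ⟨X0, hX0⟩, ⟨a1, ha1⟩⟩ := one_residues hH (max (3 - ε) 1)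
      (lt_of_lt_of_le one_pos (le_max_right _ _)) (max_lt (by linarith) (by norm_num)) C
    obtain ⟨x2, hx2⟩ := one_log C 1 one_pos 1
    refine ⟨max D1 D2, fun h => absurd h (lt_irrefl _), ⟨max x1 x2, fun x hx a0 H haH F hd hF => ?_⟩, E, ⟨X0, fun X hX => ?_⟩,
      ⟨max (max a1 x2) 1, fun a ha haE x hax hxa => ?_⟩⟩
    · have g1 : x1 ≤ x := (le_max_left _ _).trans hx
      have g2 : x2 ≤ x := (le_max_right _ _).trans hx
      obtain ⟨hL, -⟩ := hx2 x g2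
      have h3 := hx1 x g1 a0 H haH F hd (fun A hA => (hF A hA).1) (fun A hA hgood => (hF A hA).2
        (one_mono x C _ _ A (one_modu_D 1 ε D1 (max D1 D2) x H (le_max_left _ _) hL) hgood))
      rw [neg_zero, Real.rpow_zero, mul_one]
      exact h3
    · rw [sub_zero, Real.rpow_one]
      exact hX0 X hX
    · have g1 : a1 ≤ a := le_trans (le_trans (le_max_left _ _) (le_max_left _ _)) ha
      have g2 : x2 ≤ x := (le_trans (le_trans (le_max_right _ _) (le_max_left _ _)) ha).trans hax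
      have g3 : (1 : ℝ) ≤ a := by exact_mod_cast le_trans (le_max_right _ _) ha
      obtain ⟨hL, -⟩ := hx2 x g2
      have h3 := ha1 a g1 haE x hax
        (hxa.trans (Real.rpow_le_rpow_of_exponent_le g3 (le_max_left _ _)))
      have h4 := one_Icc_D 1 D2 (max D1 D2) x (le_max_right _ _) hL
      rw [Real.rpow_one] at h4 ⊢
      exact one_mono x C _ _ {a} h4 h3

end Pool.Agent.H65.MS
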