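import Pool.Agent.H65.MS.Defs

/-!
# MS SMa: numerical part of the second moment bound

Notation: `X = x`, `L = log x`, `r = R ≤ x^ρ`, `R ≥ x^ρ/2`, `S ≤ 40 x`, `K ≤ 3x/Q` etc.
-/

set_option autoImplicit false

namespace Pool.Agent.H65.MS

open Finset

/-- logarithms are smaller than powers -/
theorem log_pow_ev (s C : ℝ) (hs : 0 < s) (c : ℕ) :
    ∃ x0 : ℕ, ∀ x : ℕ, x0 ≤ x → 1 ≤ x ∧ C ≤ Real.log x ∧ C * Real.log x ^ c ≤ (x : ℝ) ^ s := by
  have h1 : ∀ᶠ x : ℝ in Filter.atTop, C ≤ Real.log x :=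
    Real.tendsto_log_atTop.eventually_ge_atTop C
  have h0 : ∀ᶠ x : ℝ in Filter.atTop, 0 ≤ Real.log x :=
    Real.tendsto_log_atTop.eventually_ge_atTop 0
  have hC : 0 < 1 / (|C| + 1) := by positivity
  have h2 := (isLittleO_log_rpow_rpow_atTop (c : ℝ) hs).bound hC
  have h3 := tendsto_natCast_atTop_atTop.eventually ((h1.and h0).and h2)
  obtain ⟨x0, hx0⟩ := Filter.eventually_atTop.1 h3
  refine ⟨max x0 1, fun x hx => ?_⟩
  obtain ⟨⟨h4, h5⟩, h6⟩ := hx0 x ((le_max_left _ _).trans hx)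
  refine ⟨(le_max_right _ _).trans hx, h4, ?_⟩
  rw [Real.rpow_natCast, Real.norm_of_nonneg (pow_nonneg h5 c),
    Real.norm_of_nonneg (Real.rpow_nonneg (Nat.cast_nonneg x) s)] at h6
  have h7 : 0 < |C| + 1 := by positivity
  have h8 : (|C| + 1) * Real.log x ^ c ≤ (x : ℝ) ^ s := by
    have h9 := mul_le_mul_of_nonneg_left h6 h7.le
    rwa [← mul_assoc, mul_one_div_cancel h7.ne', one_mul] at h9
  refine le_trans ?_ h8
  apply mul_le_mul_of_nonneg_right _ (pow_nonneg h5 c)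
  have := le_abs_self C
  linarith

private theorem SMa_t1 (A X k u L S l : ℝ) (hA : 0 < A) (hX : 0 < X) (hk : 1 ≤ k) (hu : 0 < u)
    (hL : 1 ≤ L) (hS : S ≤ 40 * X) (hl : l ≤ L) (hl0 : 0 ≤ l) (f1 : k ≤ 4 * A * u) (f2 : 1 ≤ k * u) :
    4 * S * (k + A * (1 + l)) ≤ (640 + 320 * L) * (A * X * k * u) := by
  have h1 : 0 ≤ k + A * (1 + l) := by positivity
  have h2 : 4 * S * (k + A * (1 + l)) ≤ 160 * X * (k + A * (1 + l)) := by
    apply mul_le_mul_of_nonneg_right _ h1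
    linarith
  refine h2.trans ?_
  have h3 : k ≤ 4 * (A * k * u) := by
    have h4 : 4 * A * u * 1 ≤ 4 * A * u * k := mul_le_mul_of_nonneg_left hk (by positivity)
    linarith
  have h4 : A * (1 + l) ≤ 2 * L * (A * k * u) := by
    have h5 : A * (1 + l) ≤ A * (2 * L) := mul_le_mul_of_nonneg_left (by linarith) hA.le
    have h6 : A * (2 * L) * 1 ≤ A * (2 * L) * (k * u) := mul_le_mul_of_nonneg_left f2 (by positivity)
    linarith
  have h5 : 160 * X * (k + A * (1 + l)) ≤ 160 * X * (4 * (A * k * u) + 2 * L * (A * k * u)) :=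
    mul_le_mul_of_nonneg_left (by linarith) (by positivity)
  have h6 : 160 * X * (4 * (A * k * u) + 2 * L * (A * k * u)) = (640 + 320 * L) * (A * X * k * u) := by
    ring
  linarith

private theorem SMa_t2 (A X k u L S l r : ℝ) (hA : 0 < A) (hX : 0 < X) (hk : 1 ≤ k) (hu : 0 < u)
    (hL : 1 ≤ L) (hS0 : 0 ≤ S) (hS : S ≤ 40 * X) (hl : l ≤ 1 + L) (hl0 : 0 ≤ l)
    (f1 : k ≤ 4 * A * u) (f3 : 1 ≤ 2 * (r * u)) (hr : 0 < r) :
    128 * S * (1 + l) * (A * k / r + k ^ 2) ≤ 92160 * L * (A * X * k * u) := by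
  have h1 : S * (1 + l) ≤ 40 * X * (3 * L) := mul_le_mul hS (by linarith) (by linarith) (by positivity)
  have h2 : A * k / r ≤ 2 * (A * k * u) := by
    rw [div_le_iff₀ hr]
    have h3 : A * k * 1 ≤ A * k * (2 * (r * u)) := mul_le_mul_of_nonneg_left f3 (by positivity)
    linarith
  have h3 : k ^ 2 ≤ 4 * (A * k * u) := by
    have h4 : k * k ≤ k * (4 * A * u) := mul_le_mul_of_nonneg_left f1 (by linarith)
    nlinarith
  calc 128 * S * (1 + l) * (A * k / r + k ^ 2) = 128 * ((S * (1 + l)) * (A * k / r + k ^ 2)) := by ring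
    _ ≤ 128 * ((40 * X * (3 * L)) * (6 * (A * k * u))) := by
        apply mul_le_mul_of_nonneg_left _ (by norm_num)
        exact mul_le_mul h1 (by linarith) (by positivity) (by positivity)
    _ = 92160 * L * (A * X * k * u) := by ring

private theorem SMa_sum (T1 T2 a b c W L : ℝ) (hL : 1 ≤ L) (hW : 0 ≤ W)
    (h1 : T1 ≤ (640 + 320 * L) * W) (h2 : T2 ≤ 92160 * L * W) (h3 : a ≤ 5440 * L * W)
    (h4 : b ≤ 2560 * W) (h5 : c ≤ 16 * W) : T1 + T2 + (a + b + c) ≤ 102000 * L * W := by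
  have h6 : W ≤ L * W := by
    have := mul_le_mul_of_nonneg_right hL hW
    rwa [one_mul] at this
  have h7 : (640 + 320 * L) * W = 640 * W + 320 * (L * W) := by ring
  have h8 : 92160 * L * W = 92160 * (L * W) := by ring
  have h9 : 5440 * L * W = 5440 * (L * W) := by ring
  have h10 : 102000 * L * W = 102000 * (L * W) := by ring
  rw [h7] at h1
  rw [h8] at h2
  rw [h9] at h3
  rw [h10]
  linarith

private theorem SMa_sq (L : ℝ) (hL : 10 ≤ L) : -L ^ 2 ≤ L * -(10 : ℝ) := by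
  have h := mul_le_mul_of_nonneg_left hL (by linarith : (0 : ℝ) ≤ L)
  rw [sq]
  linarith

private theorem SMa_exp_pi : Real.exp Real.pi ≤ 81 := by
  have h1 : Real.exp Real.pi ≤ Real.exp 4 := Real.exp_le_exp.2 Real.pi_le_four
  have h2 : Real.exp 4 = Real.exp 1 ^ 4 := by
    rw [← Real.exp_nat_mul]
    norm_num
  have h3 : Real.exp 1 ≤ 3 := by linarith [Real.exp_one_lt_d9]
  have h4 := pow_le_pow_left₀ (Real.exp_pos 1).le h3 4
  rw [h2] at h1
  norm_num at h4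
  linarith

private theorem SMa_end (A X k Q L u v W : ℝ) (hA : 0 < A) (hX : 0 < X) (hQ : 1 ≤ Q) (hu : 0 < u)
    (hv : 0 < v) (huv : 300000000 * L * u ≤ v) (hk : k ≤ 3 * X / Q) (hL : 0 ≤ L)
    (hW : W ≤ 102000 * L * (A * X * k * u)) :
    Real.exp Real.pi * W ≤ A * X ^ 2 / Q * v / 8 := by
  have hQ0 : 0 < Q := by linarith
  have h1 : Real.exp Real.pi * W ≤ Real.exp Real.pi * (102000 * L * (A * X * (3 * X / Q) * u)) := by
    apply mul_le_mul_of_nonneg_left _ (Real.exp_pos _).le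
    refine hW.trans ?_
    apply mul_le_mul_of_nonneg_left _ (by positivity)
    apply mul_le_mul_of_nonneg_right _ hu.le
    exact mul_le_mul_of_nonneg_left hk (by positivity)
  have h2 : Real.exp Real.pi * (102000 * L * (A * X * (3 * X / Q) * u)) ≤
      81 * (102000 * L * (A * X * (3 * X / Q) * u)) :=
    mul_le_mul_of_nonneg_right SMa_exp_pi (by positivity)
  have h3 : 81 * (102000 * L * (A * X * (3 * X / Q) * u)) =
      A * X ^ 2 / Q * (24786000 * L * u) := by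
    field_simp
    ring
  have h4 : A * X ^ 2 / Q * (24786000 * L * u) ≤ A * X ^ 2 / Q * (v / 8) := by
    apply mul_le_mul_of_nonneg_left _ (by positivity)
    have h5 : 0 ≤ L * u := by positivity
    linarith
  have h5 : A * X ^ 2 / Q * (v / 8) = A * X ^ 2 / Q * v / 8 := by ring
  linarith

/-- the right side of `second_moment` (times two) plus the trivial terms.

`S ≤ 40x`, `k = K`, `x/Q ≤ k ≤ 3x/Q`, `x^κ ≤ k`, `k x^e/4 ≤ A` (from `x^(1+e) ≤ Q A`), `x^ρ/2 ≤ r ≤ x^ρ`, `r0 ≤ 2 k x^(-4ρ)` (`k x^(-4ρ) ≥ 1`),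
`U = 4 k x^(1-5ρ)`, `N ≤ 2x`, `log k ≤ 2L`, `exp(-L^2) ≤ x^(-10)` for `L ≥ 10`.  With `ρ ≤ κ/100`, `ρ ≤ e/100` every term is at most
`A k x * x^(-ρ) * (const) * L` (and `x^(-ρ)` replaced by something smaller in all terms but the one with `A k/r`), and `k ≤ 3x/Q`:
* `e^π 4 S (k + A (1+log k)) ≤ C A x L`, and `1 ≤ k x^(-κ)`;
* `128 S (1+log 2k) A k/r ≤ C A k x L x^(-ρ)`;  `128 S (1+log 2k) k^2 ≤ C x L k A x^(-e)`;
* `r^2 34 A (1+log k) r0 S ≤ C x^(2ρ) A L k x^(-4ρ) x`;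
* `r^2 8 k^2 N S exp(-L^2) ≤ C x^(2ρ) k^2 x^2 x^(-10) ≤ C A k x x^(-5)`;
* `r^2 4 A r U ≤ C x^(3ρ) A k x^(1-5ρ)`. -/
theorem sm_num (κ e : ℝ) (hκ : 0 < κ) (he : 0 < e) (hκ1 : κ ≤ 1) (he1 : e ≤ 1) :
    ∀ ρ : ℝ, 0 < ρ → ρ ≤ κ / 100 → ρ ≤ e / 100 → ∃ x0 : ℕ, ∀ x : ℕ, x0 ≤ x →
    ∀ Q A k r r0 N S : ℝ, 1 ≤ Q → (x : ℝ) ^ κ ≤ k → x / Q ≤ k → k ≤ 3 * x / Q → k ≤ x →
      k * (x : ℝ) ^ e ≤ 4 * A → (x : ℝ) ^ ρ / 2 ≤ r → r ≤ (x : ℝ) ^ ρ → 0 ≤ r0 →
      r0 ≤ 2 * k * (x : ℝ) ^ (-(4 * ρ)) → 0 ≤ N → N ≤ 2 * x → 0 ≤ S → S ≤ 40 * x →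
      Real.exp Real.pi * (4 * S * (k + A * (1 + Real.log k))
          + 128 * S * (1 + Real.log (2 * k)) * (A * k / r + k ^ 2)
          + r ^ 2 * (34 * A * (1 + Real.log k) * r0 * S + 8 * k ^ 2 * N * S * Real.exp (-Real.log x ^ 2)
            + 4 * A * r * (4 * k * (x : ℝ) ^ (1 - 5 * ρ))))
        ≤ A * (x : ℝ) ^ 2 / Q * (x : ℝ) ^ (-(ρ / 2)) / 8 := by
  intro ρ hρ hρκ hρe
  obtain ⟨x0, hx0⟩ := log_pow_ev (ρ / 2) 300000000 (by positivity) 1
  refine ⟨x0, fun x hx Q A k r r0 N S hQ hk1 hk2 hk3 hkx hA hr1 hr2 hr0 hr0' hN hN' hS hS' => ?_⟩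
  obtain ⟨hx1, hL, hLx⟩ := hx0 x hx
  rw [pow_one] at hLx
  have hxr : (1 : ℝ) ≤ x := by exact_mod_cast hx1
  have hx0' : (0 : ℝ) < x := by linarith
  set X : ℝ := (x : ℝ) with hX
  set L := Real.log X with hLdef
  -- powers of `x`
  have hu0 : 0 < X ^ (-ρ) := Real.rpow_pos_of_pos hx0' _
  have hk0 : 1 ≤ k := (Real.one_le_rpow hxr hκ.le).trans hk1
  have hA0 : 0 < A := by
    have h1 : 0 < k * X ^ e := mul_pos (by linarith) (Real.rpow_pos_of_pos hx0' _)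
    linarith
  have hB0 : 0 < A * X * k := by positivity
  -- facts
  have f1 : k ≤ 4 * A * X ^ (-ρ) := by
    have h1 : k * X ^ e * X ^ (-ρ) ≤ 4 * A * X ^ (-ρ) := mul_le_mul_of_nonneg_right hA hu0.le
    refine le_trans ?_ h1
    rw [mul_assoc, ← Real.rpow_add hx0']
    exact le_mul_of_one_le_right (by linarith) (Real.one_le_rpow hxr (by linarith))
  have f2 : 1 ≤ k * X ^ (-ρ) := by
    have h1 : X ^ κ * X ^ (-ρ) ≤ k * X ^ (-ρ) := mul_le_mul_of_nonneg_right hk1 hu0.le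
    refine le_trans ?_ h1
    rw [← Real.rpow_add hx0']
    exact Real.one_le_rpow hxr (by linarith)
  have hlogk : Real.log k ≤ L := Real.log_le_log (by linarith) hkx
  have hlogk0 : 0 ≤ Real.log k := Real.log_nonneg hk0
  have hlog2k : Real.log (2 * k) ≤ 1 + L := by
    rw [Real.log_mul (by norm_num) (by linarith)]
    have : Real.log 2 < 1 := by
      have := Real.log_two_lt_d9
      linarith
    linarith
  have hlog2k0 : 0 ≤ Real.log (2 * k) := Real.log_nonneg (by linarith)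
  have t1 := SMa_t1 A X k (X ^ (-ρ)) L S (Real.log k) hA0 hx0' hk0 hu0 (by linarith) hS' hlogk
    hlogk0 f1 f2
  have t2 := SMa_t2 A X k (X ^ (-ρ)) L S (Real.log (2 * k)) r hA0 hx0' hk0 hu0 (by linarith) hS hS'
    hlog2k hlog2k0 f1 (by
      have h1 : X ^ ρ * X ^ (-ρ) = 1 := by
        rw [← Real.rpow_add hx0', add_neg_cancel, Real.rpow_zero]
      have h2 : X ^ ρ / 2 * X ^ (-ρ) ≤ r * X ^ (-ρ) := mul_le_mul_of_nonneg_right hr1 hu0.le
      have h3 : X ^ ρ / 2 * X ^ (-ρ) = 1 / 2 := by rw [div_mul_eq_mul_div, h1]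
      linarith) (lt_of_lt_of_le (by positivity) hr1)
  have hr : 0 ≤ r := le_trans (by positivity) hr1
  have hrsq : r ^ 2 ≤ X ^ (2 * ρ) := by
    have h1 := pow_le_pow_left₀ hr hr2 2
    have h2 : (X ^ ρ) ^ 2 = X ^ (2 * ρ) := by
      rw [← Real.rpow_natCast, ← Real.rpow_mul hx0'.le]
      congr 1
      push_cast
      ring
    rwa [h2] at h1
  have hrcb : r ^ 3 ≤ X ^ (3 * ρ) := by
    have h1 := pow_le_pow_left₀ hr hr2 3
    have h2 : (X ^ ρ) ^ 3 = X ^ (3 * ρ) := by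
      rw [← Real.rpow_natCast, ← Real.rpow_mul hx0'.le]
      congr 1
      push_cast
      ring
    rwa [h2] at h1
  have t3a : r ^ 2 * (34 * A * (1 + Real.log k) * r0 * S) ≤ 5440 * L * (A * X * k * X ^ (-ρ)) := by
    have h1 : r ^ 2 * r0 ≤ 2 * k * X ^ (-ρ) := by
      calc r ^ 2 * r0 ≤ X ^ (2 * ρ) * (2 * k * X ^ (-(4 * ρ))) :=
            mul_le_mul hrsq hr0' hr0 (by positivity)
        _ = 2 * k * X ^ (2 * ρ + -(4 * ρ)) := by
            rw [Real.rpow_add hx0']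
            ring
        _ ≤ 2 * k * X ^ (-ρ) := by
            apply mul_le_mul_of_nonneg_left _ (by linarith)
            exact Real.rpow_le_rpow_of_exponent_le hxr (by linarith)
    have h2 : (1 + Real.log k) * S ≤ 2 * L * (40 * X) :=
      mul_le_mul (by linarith) hS' hS (by linarith)
    calc r ^ 2 * (34 * A * (1 + Real.log k) * r0 * S)
        = 34 * A * ((r ^ 2 * r0) * ((1 + Real.log k) * S)) := by ring
      _ ≤ 34 * A * ((2 * k * X ^ (-ρ)) * (2 * L * (40 * X))) := by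
          apply mul_le_mul_of_nonneg_left _ (by linarith)
          exact mul_le_mul h1 h2 (by positivity) (by positivity)
      _ = 5440 * L * (A * X * k * X ^ (-ρ)) := by ring
  have t3b : r ^ 2 * (8 * k ^ 2 * N * S * Real.exp (-L ^ 2)) ≤ 2560 * (A * X * k * X ^ (-ρ)) := by
    have h1 : Real.exp (-L ^ 2) ≤ X ^ (-(10 : ℝ)) := by
      rw [Real.rpow_def_of_pos hx0', Real.exp_le_exp, ← hLdef]
      exact SMa_sq L (by linarith)
    have h2 : r ^ 2 * (X * Real.exp (-L ^ 2)) ≤ X ^ (-ρ) := by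
      calc r ^ 2 * (X * Real.exp (-L ^ 2)) ≤ X ^ (2 * ρ) * (X * X ^ (-(10 : ℝ))) := by
            apply mul_le_mul hrsq _ (by positivity) (by positivity)
            exact mul_le_mul_of_nonneg_left h1 hx0'.le
        _ = X ^ (2 * ρ + (1 + -(10 : ℝ))) := by
            rw [Real.rpow_add hx0', Real.rpow_add hx0' 1 (-(10 : ℝ)), Real.rpow_one]
        _ ≤ X ^ (-ρ) := Real.rpow_le_rpow_of_exponent_le hxr (by linarith)
    have h3 : k ≤ 4 * A := by
      refine le_trans ?_ hA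
      exact le_mul_of_one_le_right (by linarith) (Real.one_le_rpow hxr he.le)
    have h4 : N * S ≤ 2 * X * (40 * X) := mul_le_mul hN' hS' hS (by positivity)
    have h5 : k * k ≤ k * (4 * A) := mul_le_mul_of_nonneg_left h3 (by linarith)
    calc r ^ 2 * (8 * k ^ 2 * N * S * Real.exp (-L ^ 2))
        = 8 * ((k * k) * (N * S)) * (r ^ 2 * Real.exp (-L ^ 2)) := by ring
      _ ≤ 8 * ((k * (4 * A)) * (2 * X * (40 * X))) * (r ^ 2 * Real.exp (-L ^ 2)) := by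
          apply mul_le_mul_of_nonneg_right _ (by positivity)
          apply mul_le_mul_of_nonneg_left _ (by norm_num)
          exact mul_le_mul h5 h4 (by positivity) (by positivity)
      _ = 2560 * (A * X * k) * (r ^ 2 * (X * Real.exp (-L ^ 2))) := by ring
      _ ≤ 2560 * (A * X * k) * X ^ (-ρ) := mul_le_mul_of_nonneg_left h2 (by positivity)
      _ = 2560 * (A * X * k * X ^ (-ρ)) := by ring
  have t3c : r ^ 2 * (4 * A * r * (4 * k * X ^ (1 - 5 * ρ))) ≤ 16 * (A * X * k * X ^ (-ρ)) := by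
    have h1 : r ^ 3 * X ^ (1 - 5 * ρ) ≤ X * X ^ (-ρ) := by
      calc r ^ 3 * X ^ (1 - 5 * ρ) ≤ X ^ (3 * ρ) * X ^ (1 - 5 * ρ) :=
            mul_le_mul_of_nonneg_right hrcb (by positivity)
        _ = X ^ (3 * ρ + (1 - 5 * ρ)) := by rw [Real.rpow_add hx0']
        _ ≤ X ^ (1 + -ρ) := Real.rpow_le_rpow_of_exponent_le hxr (by linarith)
        _ = X * X ^ (-ρ) := by rw [Real.rpow_add hx0', Real.rpow_one]
    calc r ^ 2 * (4 * A * r * (4 * k * X ^ (1 - 5 * ρ)))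
        = 16 * (A * k) * (r ^ 3 * X ^ (1 - 5 * ρ)) := by ring
      _ ≤ 16 * (A * k) * (X * X ^ (-ρ)) := mul_le_mul_of_nonneg_left h1 (by positivity)
      _ = 16 * (A * X * k * X ^ (-ρ)) := by ring
  have hL1 : 1 ≤ L := by linarith
  have hW0 : 0 < A * X * k * X ^ (-ρ) := by positivity
  have hsum : 4 * S * (k + A * (1 + Real.log k))
      + 128 * S * (1 + Real.log (2 * k)) * (A * k / r + k ^ 2)
      + r ^ 2 * (34 * A * (1 + Real.log k) * r0 * S + 8 * k ^ 2 * N * S * Real.exp (-L ^ 2)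
        + 4 * A * r * (4 * k * X ^ (1 - 5 * ρ))) ≤ 102000 * L * (A * X * k * X ^ (-ρ)) := by
    have h2 : r ^ 2 * (34 * A * (1 + Real.log k) * r0 * S + 8 * k ^ 2 * N * S * Real.exp (-L ^ 2)
        + 4 * A * r * (4 * k * X ^ (1 - 5 * ρ))) =
        r ^ 2 * (34 * A * (1 + Real.log k) * r0 * S) +
        r ^ 2 * (8 * k ^ 2 * N * S * Real.exp (-L ^ 2)) +
        r ^ 2 * (4 * A * r * (4 * k * X ^ (1 - 5 * ρ))) := by ring
    rw [h2]
    exact SMa_sum _ _ _ _ _ _ _ hL1 hW0.le t1 t2 t3a t3b t3c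
  exact SMa_end A X k Q L (X ^ (-ρ)) (X ^ (-(ρ / 2))) _ hA0 hx0' hQ hu0
    (Real.rpow_pos_of_pos hx0' _) (by
      have h1 : X ^ (-ρ) = X ^ (-(ρ / 2)) * X ^ (-(ρ / 2)) := by
        rw [← Real.rpow_add hx0']
        congr 1
        ring
      have h2 : X ^ (ρ / 2) * X ^ (-(ρ / 2)) = 1 := by
        rw [← Real.rpow_add hx0', add_neg_cancel, Real.rpow_zero]
      have h3 : 0 < X ^ (-(ρ / 2)) := Real.rpow_pos_of_pos hx0' _
      rw [h1]
      calc 300000000 * L * (X ^ (-(ρ / 2)) * X ^ (-(ρ / 2)))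
          = (300000000 * L) * X ^ (-(ρ / 2)) * X ^ (-(ρ / 2)) := by ring
        _ ≤ X ^ (ρ / 2) * X ^ (-(ρ / 2)) * X ^ (-(ρ / 2)) := by
            apply mul_le_mul_of_nonneg_right _ h3.le
            exact mul_le_mul_of_nonneg_right hLx h3.le
        _ = X ^ (-(ρ / 2)) := by rw [h2, one_mul]) hk3 (by linarith) hsum

/-- the error terms of `link` and of `cls_sum`: `Fm = 1 + r^2`, `J ≤ 3 x^(80ρ)` blocks -/
theorem sm_num2 (κ : ℝ) (hκ : 0 < κ) (hκ1 : κ ≤ 1) :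
    ∀ ρ : ℝ, 0 < ρ → ρ ≤ κ / 100 → ∃ x0 : ℕ, ∀ x : ℕ, x0 ≤ x →
    ∀ Q A r J : ℝ, 1 ≤ Q → Q ≤ (x : ℝ) ^ (1 - κ) → 0 ≤ A → 0 ≤ r → r ≤ (x : ℝ) ^ ρ → 0 ≤ J →
      J ≤ 3 * (x : ℝ) ^ (80 * ρ) →
      2 * Q * A * (1 + r ^ 2) ^ 2 + Q * A * (J * r ^ 3) ^ 2
        ≤ A * (x : ℝ) ^ 2 / Q * (x : ℝ) ^ (-(ρ / 2)) / 8 := by
  intro ρ hρ hρκ
  obtain ⟨x0, hx0⟩ := log_pow_ev (κ / 4) 136 (by positivity) 0
  refine ⟨x0, fun x hx Q A r J hQ hQ' hA hr hr' hJ hJ' => ?_⟩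
  obtain ⟨hx1, hL, hLx⟩ := hx0 x hx
  rw [pow_zero, mul_one] at hLx
  have hxr : (1 : ℝ) ≤ x := by exact_mod_cast hx1
  have hx0' : (0 : ℝ) < x := by linarith
  set X : ℝ := (x : ℝ) with hX
  have hQ0 : 0 < Q := by linarith
  have h1 : (1 + r ^ 2) ^ 2 ≤ 4 * X ^ (166 * ρ) := by
    have h2 : r ^ 2 ≤ X ^ (2 * ρ) := by
      have h3 := pow_le_pow_left₀ hr hr' 2
      have h4 : (X ^ ρ) ^ 2 = X ^ (2 * ρ) := by
        rw [← Real.rpow_natCast, ← Real.rpow_mul hx0'.le]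
        congr 1
        push_cast
        ring
      rwa [h4] at h3
    have h3 : 1 ≤ X ^ (2 * ρ) := Real.one_le_rpow hxr (by positivity)
    have h5 : 1 + r ^ 2 ≤ 2 * X ^ (2 * ρ) := by linarith
    have h6 := pow_le_pow_left₀ (by positivity) h5 2
    have h7 : (2 * X ^ (2 * ρ)) ^ 2 = 4 * X ^ (4 * ρ) := by
      rw [mul_pow, ← Real.rpow_natCast (X ^ (2 * ρ)), ← Real.rpow_mul hx0'.le]
      congr 1
      · norm_num
      · congr 1
        push_cast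
        ring
    rw [h7] at h6
    refine h6.trans ?_
    apply mul_le_mul_of_nonneg_left _ (by norm_num)
    exact Real.rpow_le_rpow_of_exponent_le hxr (by linarith)
  have h2 : (J * r ^ 3) ^ 2 ≤ 9 * X ^ (166 * ρ) := by
    have h3 : r ^ 3 ≤ X ^ (3 * ρ) := by
      have h3 := pow_le_pow_left₀ hr hr' 3
      have h4 : (X ^ ρ) ^ 3 = X ^ (3 * ρ) := by
        rw [← Real.rpow_natCast, ← Real.rpow_mul hx0'.le]
        congr 1
        push_cast
        ring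
      rwa [h4] at h3
    have h4 : J * r ^ 3 ≤ 3 * X ^ (80 * ρ) * X ^ (3 * ρ) :=
      mul_le_mul hJ' h3 (by positivity) (by positivity)
    have h5 : 3 * X ^ (80 * ρ) * X ^ (3 * ρ) = 3 * X ^ (83 * ρ) := by
      rw [mul_assoc, ← Real.rpow_add hx0']
      congr 2
      ring
    rw [h5] at h4
    have h6 := pow_le_pow_left₀ (by positivity) h4 2
    have h7 : (3 * X ^ (83 * ρ)) ^ 2 = 9 * X ^ (166 * ρ) := by
      rw [mul_pow, ← Real.rpow_natCast (X ^ (83 * ρ)), ← Real.rpow_mul hx0'.le]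
      congr 1
      · norm_num
      · congr 1
        push_cast
        ring
    rwa [h7] at h6
  have h3 : 2 * Q * A * (1 + r ^ 2) ^ 2 + Q * A * (J * r ^ 3) ^ 2 ≤ 17 * (Q * A) * X ^ (166 * ρ) := by
    have h4 : 2 * Q * A * (1 + r ^ 2) ^ 2 ≤ 2 * Q * A * (4 * X ^ (166 * ρ)) :=
      mul_le_mul_of_nonneg_left h1 (by positivity)
    have h5 : Q * A * (J * r ^ 3) ^ 2 ≤ Q * A * (9 * X ^ (166 * ρ)) :=
      mul_le_mul_of_nonneg_left h2 (by positivity)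
    have h6 : 2 * Q * A * (4 * X ^ (166 * ρ)) + Q * A * (9 * X ^ (166 * ρ)) =
        17 * (Q * A) * X ^ (166 * ρ) := by ring
    linarith
  refine h3.trans ?_
  have h4 : 136 * (Q * Q) * X ^ (166 * ρ) ≤ X ^ 2 * X ^ (-(ρ / 2)) := by
    have h5 : Q * Q ≤ X ^ (1 - κ) * X ^ (1 - κ) := mul_le_mul hQ' hQ' hQ0.le (by positivity)
    calc 136 * (Q * Q) * X ^ (166 * ρ)
        ≤ X ^ (κ / 4) * (X ^ (1 - κ) * X ^ (1 - κ)) * X ^ (166 * ρ) := by
          apply mul_le_mul_of_nonneg_right _ (by positivity)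
          exact mul_le_mul hLx h5 (by positivity) (by positivity)
      _ = X ^ (κ / 4 + (1 - κ) + (1 - κ) + 166 * ρ) := by
          rw [Real.rpow_add hx0', Real.rpow_add hx0', Real.rpow_add hx0']
          ring
      _ ≤ X ^ ((2 : ℝ) + -(ρ / 2)) := Real.rpow_le_rpow_of_exponent_le hxr (by linarith)
      _ = X ^ 2 * X ^ (-(ρ / 2)) := by
          rw [Real.rpow_add hx0', Real.rpow_two]
  have h5 : 17 * (Q * A) * X ^ (166 * ρ) = A / Q * (136 * (Q * Q) * X ^ (166 * ρ)) / 8 := by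
    field_simp
    ring
  have h6 : A * X ^ 2 / Q * X ^ (-(ρ / 2)) / 8 = A / Q * (X ^ 2 * X ^ (-(ρ / 2))) / 8 := by
    field_simp
  rw [h5, h6]
  apply div_le_div_of_nonneg_right _ (by norm_num)
  exact mul_le_mul_of_nonneg_left h4 (by positivity)

end Pool.Agent.H65.MS
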