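import Pool.Agent.H65.MS.SMa
import Pool.Agent.H65.MS.CutB
import Pool.Agent.H65.MS.CutC
import Pool.Agent.H65.MS.CutD
import Pool.Agent.H65.MS.JP
import Pool.Agent.H76.EHB.Second
import Pool.Agent.H76.EHB.Link

/-!
# MS SMb: the second moment for an arbitrary bounded function

PROOF.  Assume `κ ≤ 1`, `e ≤ 1` (otherwise replace them by `min κ 1`, `min e 1`: the hypotheses `Q ≤ x^(1-κ)`, `x^(1+e) ≤ Q A` get weaker).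
`ρ0 = min (ρ0 of JJ_pow (κ)) (κ/200) (e/200)` (`≤ 1/200`).
Let `R = ⌊x^ρ⌋`, `Y = ⌊x^(1-80ρ)⌋`, `J = x/Y + 1` (natural division), `N = J Y`, so `x ≤ N ≤ 2x`, `J ≤ 3 x^(80ρ)`, `R^4 ≤ Y` (`84ρ < 1`).
`g = gc R Y f`, `K = 2x/Q + 1` (natural division): `K Q ≥ 2x ≥ N, a0 + A`; `Q ≥ 2` (as `Q A ≥ x^(1+e)`, `A ≤ x`, so `Q ≥ x^e`), `x/Q ≤ K ≤ 3x/Q`, `K ≤ x`,
`K ≥ x/Q ≥ x^κ`, `K x^e ≤ 3 x^(1+e)/Q ≤ 3 A`, in particular `K ≤ A`.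
(1) `abs_gc_le`: `|g| ≤ 1 + R^2 ≤ 2 x^(2ρ)`; `S2_gc`: `S2 g N ≤ 20 N ≤ 40 x`; `par_sum`: for `u ≤ N`, `d ≤ R`, `c ∈ red d` the sum is at most
`J R^4 + Y (1+R^2) ≤ 3 x^(84ρ) + 2 x^(1-78ρ) ≤ x^(1-77ρ)`.
(2) `JJ_pow`: `JJ g N K d l (c/d) (a0 + A v) Y' ≤ K x^(1-5ρ) (1 + |a0 + A v|/x)^2 ≤ U (1+|v|)^2`, `U = 4 K x^(1-5ρ)` (`|a0 + A v| ≤ x (1+|v|)`), for
`Y' = L/(A r0)`, `L = log x`, `r0 = ⌈K x^(-4ρ)⌉` (`K Y' ≤ L x^(4ρ)/A ≤ 1/2` because `A ≥ K ≥ x^κ`).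
(3) `second_moment` for `g` (with `a0 : ℤ`), `sm_num`, and `link` (`Fm = 1 + R^2`), `sm_num2`.
(4) `cls_sum` (`f` vanishes beyond `x`, so `∑_{n ≤ N} f(n) uu = ∑_{n ≤ x} f(n) uu`), `(u+v)^2 ≤ 2u^2 + 2v^2`, and there are `Q A` pairs `(q, a)`.
Total: `2 (link) + 2 Q A (J R^3)^2 ≤ 2 (2 Q A Fm^2 + 2 (second moment)) + 2 Q A (J R^3)^2 ≤ 4/8 + 2*2/8 <= 1` times `A x^2/Q x^(-ρ/2)`.
-/

set_option autoImplicit false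

namespace Pool.Agent.H65.MS

open Finset
open Pool.Agent.H91.PK (ee)
open Pool.Agent.H92.EH (red)
open Pool.Agent.H80.KF (ram uu)
open Pool.Agent.H76.EHB

private theorem SMb_log (s : ℝ) (hs : 0 < s) :
    ∃ x0 : ℕ, ∀ x : ℕ, x0 ≤ x → 100 ≤ Real.log x ∧ 100 * Real.log x ≤ (x : ℝ) ^ s := by
  obtain ⟨x0, h⟩ := log_pow_ev s 100 hs 1
  refine ⟨x0, fun x hx => ?_⟩
  obtain ⟨-, h1, h2⟩ := h x hx
  rw [pow_one] at h2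
  exact ⟨h1, h2⟩

/-- the numbers `R`, `Y`, `J` -/
private theorem SMb_num1 (ρ : ℝ) (hρ : 0 < ρ) (hρ1 : ρ ≤ 1 / 200) :
    ∃ x0 : ℕ, ∀ x : ℕ, x0 ≤ x → ∀ R Y J : ℕ, R = ⌊(x : ℝ) ^ ρ⌋₊ → Y = ⌊(x : ℝ) ^ (1 - 80 * ρ)⌋₊ →
      J = x / Y + 1 →
      1 ≤ R ∧ 1 ≤ Y ∧ R ^ 4 ≤ Y ∧ x ≤ J * Y ∧ J * Y ≤ 2 * x ∧ (J : ℝ) ≤ 3 * (x : ℝ) ^ (80 * ρ) ∧
      (x : ℝ) ^ ρ / 2 ≤ R ∧ (R : ℝ) ≤ (x : ℝ) ^ ρ ∧ 1 + (R : ℝ) ^ 2 ≤ 2 * (x : ℝ) ^ (2 * ρ) ∧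
      (J : ℝ) * (R : ℝ) ^ 4 + Y * (1 + (R : ℝ) ^ 2) ≤ (x : ℝ) ^ (1 - 77 * ρ) := by
  obtain ⟨x1, h1⟩ := SMb_log ρ hρ
  refine ⟨max x1 2, fun x hx R Y J hR hY hJ => ?_⟩
  have hx2 : 2 ≤ x := le_trans (le_max_right _ _) hx
  obtain ⟨hl, hp⟩ := h1 x (le_trans (le_max_left _ _) hx)
  have hxr : (2 : ℝ) ≤ x := by exact_mod_cast hx2
  have hx1 : (1 : ℝ) ≤ x := by linarith
  have hx0 : (0 : ℝ) < x := by linarith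
  have hρbig : (10000 : ℝ) ≤ (x : ℝ) ^ ρ := by linarith
  have hmul : ∀ a b : ℝ, (x : ℝ) ^ a * (x : ℝ) ^ b = (x : ℝ) ^ (a + b) := fun a b =>
    (Real.rpow_add hx0 a b).symm
  have hmono : ∀ a b : ℝ, a ≤ b → (x : ℝ) ^ a ≤ (x : ℝ) ^ b := fun a b h =>
    Real.rpow_le_rpow_of_exponent_le hx1 h
  have hpos : ∀ a : ℝ, 0 < (x : ℝ) ^ a := fun a => Real.rpow_pos_of_pos hx0 a
  -- R
  have hR1 : (R : ℝ) ≤ (x : ℝ) ^ ρ := by rw [hR]; exact Nat.floor_le (hpos _).le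
  have hR2 : (x : ℝ) ^ ρ / 2 ≤ R := by
    have := Nat.sub_one_lt_floor ((x : ℝ) ^ ρ)
    rw [← hR] at this
    linarith
  have hR0 : 1 ≤ R := by
    have : (1 : ℝ) ≤ R := by linarith
    exact_mod_cast this
  have hR0r : (1 : ℝ) ≤ R := by exact_mod_cast hR0
  -- Y
  have hYbig : 2 * (x : ℝ) ^ (4 * ρ) ≤ (x : ℝ) ^ (1 - 80 * ρ) := by
    have e1 : (x : ℝ) ^ (1 - 80 * ρ) = (x : ℝ) ^ (4 * ρ) * (x : ℝ) ^ (1 - 84 * ρ) := by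
      rw [hmul]; congr 1; ring
    have e2 : (x : ℝ) ^ ρ ≤ (x : ℝ) ^ (1 - 84 * ρ) := hmono _ _ (by linarith)
    rw [e1]
    have := hpos (4 * ρ)
    nlinarith
  have h4 : (1 : ℝ) ≤ (x : ℝ) ^ (4 * ρ) := Real.one_le_rpow hx1 (by linarith)
  have hY1 : (Y : ℝ) ≤ (x : ℝ) ^ (1 - 80 * ρ) := by rw [hY]; exact Nat.floor_le (hpos _).le
  have hY2 : (x : ℝ) ^ (1 - 80 * ρ) / 2 ≤ Y := by
    have := Nat.sub_one_lt_floor ((x : ℝ) ^ (1 - 80 * ρ))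
    rw [← hY] at this
    linarith
  have hY0 : 1 ≤ Y := by
    have : (1 : ℝ) ≤ Y := by linarith
    exact_mod_cast this
  have hR4 : R ^ 4 ≤ Y := by
    have e1 : (R : ℝ) ^ 4 ≤ (x : ℝ) ^ (4 * ρ) := by
      calc (R : ℝ) ^ 4 ≤ ((x : ℝ) ^ ρ) ^ 4 := pow_le_pow_left₀ (by positivity) hR1 4
        _ = (x : ℝ) ^ (4 * ρ) := by
          rw [← Real.rpow_natCast, ← Real.rpow_mul hx0.le]
          congr 1
          push_cast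
          ring
    have : (R : ℝ) ^ 4 ≤ Y := by linarith
    exact_mod_cast this
  have hYx : Y ≤ x := by
    have : (Y : ℝ) ≤ x := by
      refine hY1.trans ?_
      calc (x : ℝ) ^ (1 - 80 * ρ) ≤ (x : ℝ) ^ (1 : ℝ) := hmono _ _ (by linarith)
        _ = x := Real.rpow_one _
    exact_mod_cast this
  have hJ1 : x ≤ J * Y := by
    rw [hJ]
    have h := Nat.div_add_mod x Y
    have h' := Nat.mod_lt x (show 0 < Y by omega)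
    have h'' : (x / Y + 1) * Y = Y * (x / Y) + Y := by ring
    rw [h'']
    omega
  have hJ2 : J * Y ≤ 2 * x := by
    rw [hJ]
    have h := Nat.div_mul_le_self x Y
    have h'' : (x / Y + 1) * Y = x / Y * Y + Y := by ring
    rw [h'']
    omega
  have hYr0 : (0 : ℝ) < Y := by
    have : 0 < Y := by omega
    exact_mod_cast this
  have hJ3 : (J : ℝ) ≤ 3 * (x : ℝ) ^ (80 * ρ) := by
    have e1 : (J : ℝ) ≤ x / Y + 1 := by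
      rw [hJ]
      push_cast
      have := @Nat.cast_div_le ℝ _ _ _ x Y
      linarith
    have e2 : (x : ℝ) / Y ≤ 2 * (x : ℝ) ^ (80 * ρ) := by
      rw [div_le_iff₀ hYr0]
      have e3 : (x : ℝ) = (x : ℝ) ^ (80 * ρ) * (x : ℝ) ^ (1 - 80 * ρ) := by
        rw [hmul]
        have : 80 * ρ + (1 - 80 * ρ) = 1 := by ring
        rw [this, Real.rpow_one]
      have e4 := hpos (80 * ρ)
      calc (x : ℝ) = (x : ℝ) ^ (80 * ρ) * (x : ℝ) ^ (1 - 80 * ρ) := e3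
        _ ≤ (x : ℝ) ^ (80 * ρ) * (2 * Y) := mul_le_mul_of_nonneg_left (by linarith) e4.le
        _ = 2 * (x : ℝ) ^ (80 * ρ) * Y := by ring
    have e5 : (1 : ℝ) ≤ (x : ℝ) ^ (80 * ρ) := Real.one_le_rpow hx1 (by linarith)
    linarith
  have hRR : (R : ℝ) ^ 2 ≤ (x : ℝ) ^ (2 * ρ) := by
    calc (R : ℝ) ^ 2 ≤ ((x : ℝ) ^ ρ) ^ 2 := pow_le_pow_left₀ (by positivity) hR1 2
      _ = (x : ℝ) ^ (2 * ρ) := by
        rw [← Real.rpow_natCast, ← Real.rpow_mul hx0.le]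
        congr 1
        push_cast
        ring
  have hRRR : (R : ℝ) ^ 4 ≤ (x : ℝ) ^ (4 * ρ) := by
    calc (R : ℝ) ^ 4 ≤ ((x : ℝ) ^ ρ) ^ 4 := pow_le_pow_left₀ (by positivity) hR1 4
      _ = (x : ℝ) ^ (4 * ρ) := by
        rw [← Real.rpow_natCast, ← Real.rpow_mul hx0.le]
        congr 1
        push_cast
        ring
  have h2ρ : (1 : ℝ) ≤ (x : ℝ) ^ (2 * ρ) := Real.one_le_rpow hx1 (by linarith)
  have hF : 1 + (R : ℝ) ^ 2 ≤ 2 * (x : ℝ) ^ (2 * ρ) := by linarith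
  refine ⟨hR0, hY0, hR4, hJ1, hJ2, hJ3, hR2, hR1, hF, ?_⟩
  have t1 : (J : ℝ) * (R : ℝ) ^ 4 ≤ 3 * (x : ℝ) ^ (84 * ρ) := by
    calc (J : ℝ) * (R : ℝ) ^ 4 ≤ (3 * (x : ℝ) ^ (80 * ρ)) * (x : ℝ) ^ (4 * ρ) :=
          mul_le_mul hJ3 hRRR (by positivity) (by positivity)
      _ = 3 * (x : ℝ) ^ (84 * ρ) := by
        rw [mul_assoc, hmul]
        congr 2
        ring
  have t2 : (Y : ℝ) * (1 + (R : ℝ) ^ 2) ≤ 2 * (x : ℝ) ^ (1 - 78 * ρ) := by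
    calc (Y : ℝ) * (1 + (R : ℝ) ^ 2) ≤ (x : ℝ) ^ (1 - 80 * ρ) * (2 * (x : ℝ) ^ (2 * ρ)) :=
          mul_le_mul hY1 hF (by positivity) (by positivity)
      _ = 2 * ((x : ℝ) ^ (1 - 80 * ρ) * (x : ℝ) ^ (2 * ρ)) := by ring
      _ = 2 * (x : ℝ) ^ (1 - 78 * ρ) := by
        rw [hmul]
        congr 2
        ring
  have t3 : 6 * (x : ℝ) ^ (84 * ρ) ≤ (x : ℝ) ^ (1 - 77 * ρ) := by
    have e1 : (x : ℝ) ^ (1 - 77 * ρ) = (x : ℝ) ^ (84 * ρ) * (x : ℝ) ^ (1 - 161 * ρ) := by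
      rw [hmul]; congr 1; ring
    have e2 : (x : ℝ) ^ ρ ≤ (x : ℝ) ^ (1 - 161 * ρ) := hmono _ _ (by linarith)
    rw [e1]
    have := hpos (84 * ρ)
    nlinarith
  have t4 : 4 * (x : ℝ) ^ (1 - 78 * ρ) ≤ (x : ℝ) ^ (1 - 77 * ρ) := by
    have e1 : (x : ℝ) ^ (1 - 77 * ρ) = (x : ℝ) ^ (1 - 78 * ρ) * (x : ℝ) ^ ρ := by
      rw [hmul]; congr 1; ring
    rw [e1]
    have := hpos (1 - 78 * ρ)
    nlinarith
  linarith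

/-- the numbers `K`, `r0` -/
private theorem SMb_num2 (κ e ρ : ℝ) (hκ : 0 < κ) (he : 0 < e) (hρ : 0 < ρ) (hρκ : ρ ≤ κ / 200) :
    ∃ x0 : ℕ, ∀ x : ℕ, x0 ≤ x → ∀ Q A K r0 : ℕ, 1 ≤ Q → (Q : ℝ) ≤ (x : ℝ) ^ (1 - κ) →
      (x : ℝ) ^ (1 + e) ≤ Q * A → A ≤ x → K = 2 * x / Q + 1 →
      r0 = ⌈(K : ℝ) * (x : ℝ) ^ (-(4 * ρ))⌉₊ →
      1 ≤ K ∧ K ≤ A ∧ 1 ≤ r0 ∧ (K : ℝ) * (Real.log x / (A * r0)) ≤ 1 / 2 ∧ 2 * x ≤ K * Q ∧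
      (x : ℝ) ^ κ ≤ K ∧ (x : ℝ) / Q ≤ K ∧ (K : ℝ) ≤ 3 * x / Q ∧ K ≤ x ∧
      (K : ℝ) * (x : ℝ) ^ e ≤ 4 * A ∧ (r0 : ℝ) ≤ 2 * K * (x : ℝ) ^ (-(4 * ρ)) := by
  obtain ⟨x1, h1⟩ := SMb_log e he
  obtain ⟨x2, h2⟩ := SMb_log (κ - 4 * ρ) (by linarith)
  refine ⟨max (max x1 x2) 2, fun x hx Q A K r0 hQ hQx hQA hAx hK hr0 => ?_⟩
  have hx2 : 2 ≤ x := le_trans (le_max_right _ _) hx
  obtain ⟨hl, hp⟩ := h1 x (le_trans (le_trans (le_max_left _ _) (le_max_left _ _)) hx)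
  obtain ⟨-, hp2⟩ := h2 x (le_trans (le_trans (le_max_right _ _) (le_max_left _ _)) hx)
  have hxr : (2 : ℝ) ≤ x := by exact_mod_cast hx2
  have hx1 : (1 : ℝ) ≤ x := by linarith
  have hx0 : (0 : ℝ) < x := by linarith
  have hmul : ∀ a b : ℝ, (x : ℝ) ^ a * (x : ℝ) ^ b = (x : ℝ) ^ (a + b) := fun a b =>
    (Real.rpow_add hx0 a b).symm
  have hpos : ∀ a : ℝ, 0 < (x : ℝ) ^ a := fun a => Real.rpow_pos_of_pos hx0 a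
  have hebig : (10000 : ℝ) ≤ (x : ℝ) ^ e := by linarith
  have hQ0 : (0 : ℝ) < Q := by exact_mod_cast hQ
  have hAxr : (A : ℝ) ≤ x := by exact_mod_cast hAx
  have hxe : (x : ℝ) ^ (1 + e) = x * (x : ℝ) ^ e := by
    rw [Real.rpow_add hx0, Real.rpow_one]
  have hQbig : (10000 : ℝ) ≤ Q := by
    have e1 : (x : ℝ) * (x : ℝ) ^ e ≤ x * Q := by
      rw [← hxe]
      calc (x : ℝ) ^ (1 + e) ≤ Q * A := hQA
        _ ≤ Q * x := mul_le_mul_of_nonneg_left hAxr hQ0.le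
        _ = x * Q := mul_comm _ _
    exact hebig.trans (le_of_mul_le_mul_left e1 hx0)
  have hxQ : (x : ℝ) ^ κ ≤ x / Q := by
    rw [le_div_iff₀ hQ0]
    calc (x : ℝ) ^ κ * Q ≤ (x : ℝ) ^ κ * (x : ℝ) ^ (1 - κ) :=
          mul_le_mul_of_nonneg_left hQx (hpos _).le
      _ = x := by
        rw [hmul]
        have : κ + (1 - κ) = 1 := by ring
        rw [this, Real.rpow_one]
  have hκ1 : (1 : ℝ) ≤ (x : ℝ) ^ κ := Real.one_le_rpow hx1 hκ.le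
  have hK1 : 1 ≤ K := by rw [hK]; exact Nat.le_add_left 1 _
  have hKQ : 2 * x ≤ K * Q := by
    rw [hK]
    have h := Nat.div_add_mod (2 * x) Q
    have h' := Nat.mod_lt (2 * x) (show 0 < Q by omega)
    have h'' : (2 * x / Q + 1) * Q = Q * (2 * x / Q) + Q := by ring
    rw [h'']
    omega
  have hKQr : 2 * (x : ℝ) ≤ K * Q := by exact_mod_cast hKQ
  have hKlow : (x : ℝ) / Q ≤ K := by
    rw [div_le_iff₀ hQ0]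
    linarith
  have hKup : (K : ℝ) ≤ 3 * x / Q := by
    have e1 : (K : ℝ) ≤ 2 * x / Q + 1 := by
      rw [hK]
      push_cast
      have := @Nat.cast_div_le ℝ _ _ _ (2 * x) Q
      push_cast at this
      linarith
    have e2 : (1 : ℝ) ≤ x / Q := by linarith
    have e3 : 3 * (x : ℝ) / Q = 2 * x / Q + x / Q := by ring
    rw [e3]
    linarith
  have hKx : K ≤ x := by
    have : (K : ℝ) ≤ x := by
      refine hKup.trans ?_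
      rw [div_le_iff₀ hQ0]
      nlinarith
    exact_mod_cast this
  have hKe : (K : ℝ) * (x : ℝ) ^ e ≤ 3 * A := by
    calc (K : ℝ) * (x : ℝ) ^ e ≤ 3 * x / Q * (x : ℝ) ^ e :=
          mul_le_mul_of_nonneg_right hKup (hpos _).le
      _ = 3 * ((x : ℝ) ^ (1 + e) / Q) := by rw [hxe]; ring
      _ ≤ 3 * A := by
        apply mul_le_mul_of_nonneg_left _ (by norm_num)
        rw [div_le_iff₀ hQ0]
        linarith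
  have hK0 : (0 : ℝ) < K := by exact_mod_cast hK1
  have hA0 : (0 : ℝ) ≤ A := Nat.cast_nonneg A
  have hKA : K ≤ A := by
    have : (K : ℝ) ≤ A := by nlinarith
    exact_mod_cast this
  have hKAr : (K : ℝ) ≤ A := by exact_mod_cast hKA
  have hr1 : (1 : ℝ) ≤ (K : ℝ) * (x : ℝ) ^ (-(4 * ρ)) := by
    have e1 : (x : ℝ) ^ (κ - 4 * ρ) = (x : ℝ) ^ κ * (x : ℝ) ^ (-(4 * ρ)) := by
      rw [hmul]; congr 1
    have e2 : (1 : ℝ) ≤ (x : ℝ) ^ (κ - 4 * ρ) := by linarith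
    calc (1 : ℝ) ≤ (x : ℝ) ^ κ * (x : ℝ) ^ (-(4 * ρ)) := by rw [← e1]; exact e2
      _ ≤ (K : ℝ) * (x : ℝ) ^ (-(4 * ρ)) :=
        mul_le_mul_of_nonneg_right (hxQ.trans hKlow) (hpos _).le
  have hr0a : (K : ℝ) * (x : ℝ) ^ (-(4 * ρ)) ≤ r0 := by rw [hr0]; exact Nat.le_ceil _
  have hr0b : (r0 : ℝ) < (K : ℝ) * (x : ℝ) ^ (-(4 * ρ)) + 1 := by
    rw [hr0]; exact Nat.ceil_lt_add_one (by linarith)
  have hr01 : 1 ≤ r0 := by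
    have : (1 : ℝ) ≤ r0 := by linarith
    exact_mod_cast this
  refine ⟨hK1, hKA, hr01, ?_, hKQ, hxQ.trans hKlow, hKlow, hKup, hKx, by linarith, by linarith⟩
  have hApos : (0 : ℝ) < A := by linarith
  have hr0pos : (0 : ℝ) < r0 := by linarith
  have e1 : (K : ℝ) * (Real.log x / (A * r0)) = (Real.log x * K) / (A * r0) := by ring
  rw [e1, div_le_iff₀ (by positivity)]
  have e2 : Real.log x * 100 ≤ A * (x : ℝ) ^ (-(4 * ρ)) := by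
    have e3 : (x : ℝ) ^ (κ - 4 * ρ) = (x : ℝ) ^ κ * (x : ℝ) ^ (-(4 * ρ)) := by
      rw [hmul]; congr 1
    calc Real.log x * 100 ≤ (x : ℝ) ^ (κ - 4 * ρ) := by linarith
      _ = (x : ℝ) ^ κ * (x : ℝ) ^ (-(4 * ρ)) := e3
      _ ≤ A * (x : ℝ) ^ (-(4 * ρ)) :=
        mul_le_mul_of_nonneg_right ((hxQ.trans hKlow).trans hKAr) (hpos _).le
  have e4 : Real.log x * 100 * K ≤ A * r0 := by
    calc Real.log x * 100 * K ≤ A * (x : ℝ) ^ (-(4 * ρ)) * K :=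
          mul_le_mul_of_nonneg_right e2 hK0.le
      _ = A * (K * (x : ℝ) ^ (-(4 * ρ))) := by ring
      _ ≤ A * r0 := mul_le_mul_of_nonneg_left hr0a hA0
  have e5 : 0 ≤ Real.log x * K := by positivity
  linarith

/-- from `gc` to `uu` -/
private theorem SMb_fin (f : ℕ → ℝ) (hf : ∀ n, |f n| ≤ 1) (R Y J Q A a0 : ℕ) (hY : 1 ≤ Y) (T : ℝ)
    (hT : ∑ q ∈ Ioc Q (2 * Q), ∑ a ∈ Ioc a0 (a0 + A),
      (∑ n ∈ (Icc 1 (J * Y)).filter (fun n => n ≡ a [MOD q]), gc R Y f n) ^ 2 ≤ T) :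
    ∑ q ∈ Ioc Q (2 * Q), ∑ a ∈ Ioc a0 (a0 + A), (∑ n ∈ Icc 1 (J * Y), f n * uu R q a n) ^ 2
      ≤ 2 * T + 2 * (Q * A * (J * (R : ℝ) ^ 3) ^ 2) := by
  have h1 : ∀ q ∈ Ioc Q (2 * Q), ∀ a ∈ Ioc a0 (a0 + A),
      (∑ n ∈ Icc 1 (J * Y), f n * uu R q a n) ^ 2 ≤
        2 * (∑ n ∈ (Icc 1 (J * Y)).filter (fun n => n ≡ a [MOD q]), gc R Y f n) ^ 2 +
          2 * (J * (R : ℝ) ^ 3) ^ 2 := by
    intro q hq a _
    have hq1 : 1 ≤ q := by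
      rw [mem_Ioc] at hq
      omega
    have h2 := cls_sum R Y J q a hY hq1 f hf
    have h3 : (∑ n ∈ (Icc 1 (J * Y)).filter (fun n => n ≡ a [MOD q]), gc R Y f n -
        ∑ n ∈ Icc 1 (J * Y), f n * uu R q a n) ^ 2 ≤ (J * (R : ℝ) ^ 3) ^ 2 := by
      rw [← sq_abs]
      exact pow_le_pow_left₀ (abs_nonneg _) h2 2
    have h4 : ∀ u v : ℝ, v ^ 2 ≤ 2 * u ^ 2 + 2 * (u - v) ^ 2 := by
      intro u v
      nlinarith [sq_nonneg (2 * u - v)]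
    have h5 := h4 (∑ n ∈ (Icc 1 (J * Y)).filter (fun n => n ≡ a [MOD q]), gc R Y f n)
      (∑ n ∈ Icc 1 (J * Y), f n * uu R q a n)
    linarith
  calc _ ≤ ∑ q ∈ Ioc Q (2 * Q), ∑ a ∈ Ioc a0 (a0 + A),
        (2 * (∑ n ∈ (Icc 1 (J * Y)).filter (fun n => n ≡ a [MOD q]), gc R Y f n) ^ 2 +
          2 * (J * (R : ℝ) ^ 3) ^ 2) := sum_le_sum fun q hq => sum_le_sum fun a ha => h1 q hq a ha
    _ = 2 * (∑ q ∈ Ioc Q (2 * Q), ∑ a ∈ Ioc a0 (a0 + A),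
        (∑ n ∈ (Icc 1 (J * Y)).filter (fun n => n ≡ a [MOD q]), gc R Y f n) ^ 2) +
          2 * (Q * A * (J * (R : ℝ) ^ 3) ^ 2) := by
        simp only [sum_add_distrib, sum_const, ← mul_sum, Nat.card_Ioc, nsmul_eq_mul]
        have e1 : 2 * Q - Q = Q := by omega
        have e2 : a0 + A - a0 = A := by omega
        rw [e1, e2]
        ring
    _ ≤ _ := by linarith

private theorem SMb_one (κ e : ℝ) (hκ : 0 < κ) (he : 0 < e) (hκ1 : κ ≤ 1) (he1 : e ≤ 1) :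
    ∃ ρ0 : ℝ, 0 < ρ0 ∧ ∀ ρ : ℝ, 0 < ρ → ρ ≤ ρ0 →
    ∃ x0 : ℕ, ∀ x : ℕ, x0 ≤ x → ∀ f : ℕ → ℝ, (∀ n, |f n| ≤ 1) → (∀ n, x < n → f n = 0) →
      ∀ Q A a0 : ℕ, 1 ≤ Q → (Q : ℝ) ≤ (x : ℝ) ^ (1 - κ) → (x : ℝ) ^ (1 + e) ≤ Q * A → A ≤ x → a0 ≤ x →
      ∑ q ∈ Ioc Q (2 * Q), ∑ a ∈ Ioc a0 (a0 + A), (∑ n ∈ Icc 1 x, f n * uu ⌊(x : ℝ) ^ ρ⌋₊ q a n) ^ 2
        ≤ A * (x : ℝ) ^ 2 / Q * (x : ℝ) ^ (-(ρ / 2)) := by
  obtain ⟨ρJ, hρJ, hJJ⟩ := JJ_pow κ hκ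
  refine ⟨min ρJ (min (κ / 200) (e / 200)), by positivity, fun ρ hρ hρ0 => ?_⟩
  have hρa : ρ ≤ ρJ := hρ0.trans (min_le_left _ _)
  have hρb : ρ ≤ κ / 200 := hρ0.trans ((min_le_right _ _).trans (min_le_left _ _))
  have hρc : ρ ≤ e / 200 := hρ0.trans ((min_le_right _ _).trans (min_le_right _ _))
  obtain ⟨x1, h1⟩ := hJJ ρ hρ hρa
  obtain ⟨x2, h2⟩ := sm_num κ e hκ he hκ1 he1 ρ hρ (by linarith) (by linarith)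
  obtain ⟨x3, h3⟩ := sm_num2 κ hκ hκ1 ρ hρ (by linarith)
  obtain ⟨x4, h4⟩ := SMb_num1 ρ hρ (by linarith)
  obtain ⟨x5, h5⟩ := SMb_num2 κ e ρ hκ he hρ hρb
  obtain ⟨x6, h6⟩ := SMb_log ρ hρ
  refine ⟨max (max (max x1 x2) (max x3 x4)) (max (max x5 x6) 1), fun x hx f hf hf0 Q A a0 hQ hQx hQA
    hAx ha0 => ?_⟩
  simp only [max_le_iff] at hx
  obtain ⟨⟨⟨g1, g2⟩, g3, g4⟩, ⟨g5, g6⟩, g7⟩ := hx
  replace h1 := h1 x g1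
  replace h2 := h2 x g2
  replace h3 := h3 x g3
  obtain ⟨hR1, hY1, hR4, hJ1, hJ2, hJ3, hR2, hR3, hF, hE⟩ := h4 x g4 _ _ _ rfl rfl rfl
  obtain ⟨hK1, hKA, hr1, hKY, hKQ, hKκ, hKl, hKu, hKx, hKe, hr2⟩ := h5 x g5 Q A _ _ hQ hQx hQA hAx rfl rfl
  obtain ⟨hL, -⟩ := h6 x g6
  generalize hRd : ⌊(x : ℝ) ^ ρ⌋₊ = R at *
  generalize hYd : ⌊(x : ℝ) ^ (1 - 80 * ρ)⌋₊ = Y at *
  generalize hJd : x / Y + 1 = J at *
  generalize hKd : 2 * x / Q + 1 = K at *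
  generalize hrd : ⌈(K : ℝ) * (x : ℝ) ^ (-(4 * ρ))⌉₊ = r0 at *
  have hx1 : (1 : ℝ) ≤ x := by exact_mod_cast g7
  have hx0 : (0 : ℝ) < x := by linarith
  have hQ0 : (0 : ℝ) < Q := by exact_mod_cast hQ
  have hA1 : 1 ≤ A := hK1.trans hKA
  have hA0 : (0 : ℝ) < A := by exact_mod_cast hA1
  have hK0 : (0 : ℝ) < K := by exact_mod_cast hK1
  have hr0 : (0 : ℝ) < r0 := by exact_mod_cast hr1
  have hpos : ∀ a : ℝ, 0 < (x : ℝ) ^ a := fun a => Real.rpow_pos_of_pos hx0 a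
  have hN1 : 1 ≤ J * Y := g7.trans hJ1
  have hNr : ((J * Y : ℕ) : ℝ) ≤ 2 * x := by exact_mod_cast hJ2
  -- the cut function
  have hS2 : S2 (gc R Y f) (J * Y) ≤ 40 * x := by
    have := S2_gc R Y J hR1 hR4 f hf
    have e : (J : ℝ) * Y ≤ 2 * x := by exact_mod_cast hJ2
    linarith
  have hS0 : 0 ≤ S2 (gc R Y f) (J * Y) := S2_nonneg _ _
  have hgc : ∀ n ∈ Icc 1 (J * Y), |gc R Y f n| ≤ 1 + (R : ℝ) ^ 2 := fun n _ =>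
    abs_gc_le R Y hY1 f hf n
  have hgc2 : ∀ n ∈ Icc 1 (J * Y), |gc R Y f n| ≤ 2 * (x : ℝ) ^ (2 * ρ) := fun n hn =>
    (hgc n hn).trans hF
  have hJJ2 : ∀ d ∈ Icc 1 R, ∀ c ∈ red d, ∀ l ∈ range d, ∀ v : ℝ,
      JJ (gc R Y f) (J * Y) K d l ((c : ℝ) / d) ((a0 : ℤ) + A * v) (Real.log x / (A * r0))
        ≤ 4 * K * (x : ℝ) ^ (1 - 5 * ρ) * (1 + |v|) ^ 2 := by
    intro d hd c hc l _ v
    have hd1 : 1 ≤ d := (mem_Icc.1 hd).1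
    have e1 := h1 (gc R Y f) (J * Y) K d l ((c : ℝ) / d) ((a0 : ℤ) + A * v) (Real.log x / (A * r0))
      hN1 hJ2 hKκ hKx hd1 (by positivity) (by linarith) hgc2
      (fun u hu => (par_sum R Y J hY1 f hf d c hd hc u hu).trans hE) hS2
    refine e1.trans ?_
    have e2 : 1 + |((a0 : ℤ) : ℝ) + A * v| / x ≤ 2 * (1 + |v|) := by
      have e3 : |((a0 : ℤ) : ℝ) + A * v| ≤ x * (1 + |v|) := by
        refine (abs_add_le _ _).trans ?_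
        have e4 : |((a0 : ℤ) : ℝ)| ≤ x := by
          rw [Int.cast_natCast, Nat.abs_cast]
          exact_mod_cast ha0
        have e5 : |(A : ℝ) * v| ≤ x * |v| := by
          rw [abs_mul, Nat.abs_cast]
          exact mul_le_mul_of_nonneg_right (by exact_mod_cast hAx) (abs_nonneg _)
        linarith
      have e6 : |((a0 : ℤ) : ℝ) + A * v| / x ≤ 1 + |v| := by
        rw [div_le_iff₀ hx0]
        linarith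
      have := abs_nonneg v
      linarith
    have e7 : 0 ≤ 1 + |((a0 : ℤ) : ℝ) + A * v| / x := by positivity
    have e8 : (1 + |((a0 : ℤ) : ℝ) + A * v| / x) ^ 2 ≤ (2 * (1 + |v|)) ^ 2 :=
      pow_le_pow_left₀ e7 e2 2
    have e9 : 0 ≤ (K : ℝ) * (x : ℝ) ^ (1 - 5 * ρ) := by
      have := hpos (1 - 5 * ρ)
      positivity
    calc (K : ℝ) * (x : ℝ) ^ (1 - 5 * ρ) * (1 + |((a0 : ℤ) : ℝ) + A * v| / x) ^ 2
        ≤ (K : ℝ) * (x : ℝ) ^ (1 - 5 * ρ) * (2 * (1 + |v|)) ^ 2 := mul_le_mul_of_nonneg_left e8 e9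
      _ = 4 * K * (x : ℝ) ^ (1 - 5 * ρ) * (1 + |v|) ^ 2 := by ring
  have hU : 0 ≤ 4 * (K : ℝ) * (x : ℝ) ^ (1 - 5 * ρ) := by
    have := hpos (1 - 5 * ρ)
    positivity
  have hsm := second_moment (gc R Y f) (J * Y) K A Q R r0 (Real.log x) (a0 : ℤ) hK1 hKA hR1 hr1
    (by linarith) hKY (4 * (K : ℝ) * (x : ℝ) ^ (1 - 5 * ρ)) hU hJJ2
  have hnum := h2 Q A K R r0 ((J * Y : ℕ) : ℝ) (S2 (gc R Y f) (J * Y)) (by exact_mod_cast hQ) hKκ hKl hKu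
    (by exact_mod_cast hKx) hKe hR2 hR3 hr0.le hr2 (Nat.cast_nonneg _) hNr hS0 hS2
  have hsm2 := hsm.trans hnum
  have hNK : J * Y ≤ K * Q := hJ2.trans hKQ
  have haK : a0 + A ≤ K * Q := by omega
  have hlink := link (gc R Y f) (J * Y) K A Q a0 (1 + (R : ℝ) ^ 2) hgc (by positivity) hQ hNK haK
  have hnum2 := h3 Q A R J (by exact_mod_cast hQ) hQx hA0.le (Nat.cast_nonneg _) hR3
    (Nat.cast_nonneg _) hJ3
  have hfin := SMb_fin f hf R Y J Q A a0 hY1 _ hlink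
  have hsum : ∀ q a : ℕ, ∑ n ∈ Icc 1 x, f n * uu R q a n = ∑ n ∈ Icc 1 (J * Y), f n * uu R q a n := by
    intro q a
    refine sum_subset (Icc_subset_Icc_right hJ1) fun n hn hn2 => ?_
    rw [mem_Icc] at hn hn2
    rw [hf0 n (by omega), zero_mul]
  simp only [hsum]
  refine hfin.trans ?_
  set T : ℝ := A * (x : ℝ) ^ 2 / Q * (x : ℝ) ^ (-(ρ / 2)) with hT
  have hT0 : 0 ≤ T := by
    rw [hT]
    have := hpos (-(ρ / 2))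
    positivity
  have e1 : 2 * (Q : ℝ) * A * (1 + (R : ℝ) ^ 2) ^ 2 + Q * A * (J * (R : ℝ) ^ 3) ^ 2 ≤ T / 8 := hnum2
  linarith

theorem sm_bound (κ e : ℝ) (hκ : 0 < κ) (he : 0 < e) : ∃ ρ0 : ℝ, 0 < ρ0 ∧ ∀ ρ : ℝ, 0 < ρ → ρ ≤ ρ0 →
    ∃ x0 : ℕ, ∀ x : ℕ, x0 ≤ x → ∀ f : ℕ → ℝ, (∀ n, |f n| ≤ 1) → (∀ n, x < n → f n = 0) →
      ∀ Q A a0 : ℕ, 1 ≤ Q → (Q : ℝ) ≤ (x : ℝ) ^ (1 - κ) → (x : ℝ) ^ (1 + e) ≤ Q * A → A ≤ x → a0 ≤ x →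
      ∑ q ∈ Ioc Q (2 * Q), ∑ a ∈ Ioc a0 (a0 + A), (∑ n ∈ Icc 1 x, f n * uu ⌊(x : ℝ) ^ ρ⌋₊ q a n) ^ 2
        ≤ A * (x : ℝ) ^ 2 / Q * (x : ℝ) ^ (-(ρ / 2)) := by
  obtain ⟨ρ0, hρ0, h⟩ := SMb_one (min κ 1) (min e 1) (by positivity) (by positivity) (min_le_right _ _)
    (min_le_right _ _)
  refine ⟨ρ0, hρ0, fun ρ hρ hρ1 => ?_⟩
  obtain ⟨x0, hx0⟩ := h ρ hρ hρ1
  refine ⟨max x0 1, fun x hx f hf hf0 Q A a0 hQ hQx hQA hAx ha0 => ?_⟩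
  have hx1 : (1 : ℝ) ≤ x := by exact_mod_cast (le_trans (le_max_right _ _) hx)
  refine hx0 x (le_trans (le_max_left _ _) hx) f hf hf0 Q A a0 hQ (hQx.trans ?_) (le_trans ?_ hQA) hAx ha0
  · exact Real.rpow_le_rpow_of_exponent_le hx1 (by linarith [min_le_left κ 1])
  · exact Real.rpow_le_rpow_of_exponent_le hx1 (by linarith [min_le_left e 1])

end Pool.Agent.H65.MS
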