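import Pool.Agent.H65.MS.Defs

/-!
# MS Tri: trivial bounds

* `err_triv`: for `q ≥ 1`: `#{p ≤ y : p ≡ b (q)} ≤ #{n ∈ Icc 1 y : (n : ZMod q) = b} ≤ y/q + 1`, `π(y) ≤ y`, `1/q ≤ 1/φ(q)`:
  `|err y q b| ≤ 2 y/φ(q) + 1`.
* `sel_triv`: sum over `q ∈ M ⊆ Icc 1 x` and at most `nb` residues: `≤ nb (8 y (log x)^2 + #M)` by `phi_inv_sum` (`KF.Mxa`).
* `ME_mono`: `ME` is monotone in `x`; `ME_nonneg`.
* `mE_nonneg`, `mE_cases`: if no `a ∈ A` is prime to `q` then `mE x q A = 0`, otherwise the supremum over the nonempty finite type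
  `{a // a ∈ A ∧ Coprime a q}` is attained (`Finite` from `A`, `exists_eq_ciSup_of_finite`).
* `mE_singleton`.
-/

set_option autoImplicit false

namespace Pool.Agent.H65.MS

open Finset
open Pool.Agent.H91.EHA (err)
open Pool.Agent.H80.KF (ME)

private theorem Tri_count (y q : ℕ) (hq : 1 ≤ q) (b : ZMod q) :
    ((Icc 1 y).filter (fun p : ℕ => Nat.Prime p ∧ ((p : ZMod q) = b))).card ≤ y / q + 1 := by
  have h1 : ((Icc 1 y).filter (fun p : ℕ => Nat.Prime p ∧ ((p : ZMod q) = b))).card ≤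
      (range (y / q + 1)).card := by
    apply card_le_card_of_injOn (fun n => n / q)
    · intro n hn
      rw [mem_coe, mem_filter, mem_Icc] at hn
      rw [mem_coe, mem_range, Nat.lt_succ_iff]
      exact Nat.div_le_div_right hn.1.2
    · intro n hn m hm h
      rw [mem_coe, mem_filter] at hn hm
      have h2 : (n : ZMod q) = (m : ZMod q) := by rw [hn.2.2, hm.2.2]
      rw [ZMod.natCast_eq_natCast_iff] at h2
      have h3 : n % q = m % q := h2
      have h4 : n / q = m / q := h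
      rw [← Nat.div_add_mod n q, ← Nat.div_add_mod m q, h3, h4]
  rwa [card_range] at h1

private theorem Tri_pc (y : ℕ) : Nat.primeCounting y ≤ y := by
  unfold Nat.primeCounting Nat.primeCounting'
  have h2 : y + 1 = 1 + y := by ring
  rw [h2, Nat.count_add]
  have h3 : Nat.count Nat.Prime 1 = 0 := by
    rw [Nat.count_succ, Nat.count_zero, if_neg Nat.not_prime_zero]
  rw [h3, zero_add]
  exact Nat.count_le _

private instance Tri_fin (q : ℕ) (A : Finset ℕ) : Finite {a : ℕ // a ∈ A ∧ Nat.Coprime a q} :=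
  Set.Finite.to_subtype (A.finite_toSet.subset fun _ ha => ha.1)

theorem err_triv (y q : ℕ) (hq : 1 ≤ q) (b : ZMod q) :
    |err y q b| ≤ 2 * y / (Nat.totient q : ℝ) + 1 := by
  have hφ : 1 ≤ Nat.totient q := Nat.totient_pos.2 hq
  have hφr : (1 : ℝ) ≤ (Nat.totient q : ℝ) := by exact_mod_cast hφ
  have hφ0 : (0 : ℝ) < (Nat.totient q : ℝ) := by linarith
  have hφq : (Nat.totient q : ℝ) ≤ q := by exact_mod_cast Nat.totient_le q
  have h1 : (((Icc 1 y).filter (fun p : ℕ => Nat.Prime p ∧ ((p : ZMod q) = b))).card : ℝ) ≤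
      y / (Nat.totient q : ℝ) + 1 := by
    have h2 : (((Icc 1 y).filter (fun p : ℕ => Nat.Prime p ∧ ((p : ZMod q) = b))).card : ℝ) ≤
        ((y / q + 1 : ℕ) : ℝ) := by exact_mod_cast Tri_count y q hq b
    refine h2.trans ?_
    push_cast
    have h3 : ((y / q : ℕ) : ℝ) ≤ (y : ℝ) / (q : ℝ) := Nat.cast_div_le
    have h4 : (y : ℝ) / (q : ℝ) ≤ y / (Nat.totient q : ℝ) :=
      div_le_div_of_nonneg_left (Nat.cast_nonneg _) hφ0 hφq
    linarith
  have h5 : (Nat.primeCounting y : ℝ) / (Nat.totient q : ℝ) ≤ y / (Nat.totient q : ℝ) := by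
    apply div_le_div_of_nonneg_right _ hφ0.le
    exact_mod_cast Tri_pc y
  have h6 : 0 ≤ (Nat.primeCounting y : ℝ) / (Nat.totient q : ℝ) := by positivity
  have h7 : (0 : ℝ) ≤ (((Icc 1 y).filter (fun p : ℕ => Nat.Prime p ∧ ((p : ZMod q) = b))).card : ℝ) :=
    Nat.cast_nonneg _
  have h8 : 2 * (y : ℝ) / (Nat.totient q : ℝ) = y / (Nat.totient q : ℝ) + y / (Nat.totient q : ℝ) := by
    ring
  unfold err
  rw [h8, abs_le]
  constructor <;> linarith

theorem sel_triv (x y nb : ℕ) (hx : 3 ≤ x) (M : Finset ℕ) (hM : M ⊆ Icc 1 x) (S : ℕ → Finset ℕ)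
    (hS : ∀ q, (S q).card ≤ nb) :
    ∑ q ∈ M, ∑ a ∈ S q, |err y q (a : ZMod q)| ≤ nb * (8 * y * Real.log x ^ 2 + M.card) := by
  have h1 : ∀ q ∈ M, ∑ a ∈ S q, |err y q (a : ZMod q)| ≤
      nb * (2 * y * (1 / (Nat.totient q : ℝ)) + 1) := by
    intro q hq
    have hq1 : 1 ≤ q := (mem_Icc.1 (hM hq)).1
    have h2 : ∑ a ∈ S q, |err y q (a : ZMod q)| ≤
        ∑ _a ∈ S q, (2 * y * (1 / (Nat.totient q : ℝ)) + 1) := by
      refine sum_le_sum fun a _ => ?_
      have h3 := err_triv y q hq1 (a : ZMod q)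
      rw [mul_one_div]
      exact h3
    rw [sum_const, nsmul_eq_mul] at h2
    refine h2.trans ?_
    apply mul_le_mul_of_nonneg_right
    · exact_mod_cast hS q
    · positivity
  refine (sum_le_sum h1).trans ?_
  rw [← mul_sum, sum_add_distrib, ← mul_sum, sum_const, nsmul_eq_mul, mul_one]
  apply mul_le_mul_of_nonneg_left _ (Nat.cast_nonneg _)
  have h4 : ∑ q ∈ M, 1 / (Nat.totient q : ℝ) ≤ 4 * Real.log x ^ 2 :=
    (sum_le_sum_of_subset_of_nonneg hM fun _ _ _ => by positivity).trans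
      (Pool.Agent.H80.KF.phi_inv_sum x hx)
  have h5 : 2 * (y : ℝ) * ∑ q ∈ M, 1 / (Nat.totient q : ℝ) ≤ 2 * y * (4 * Real.log x ^ 2) :=
    mul_le_mul_of_nonneg_left h4 (by positivity)
  have h6 : 2 * (y : ℝ) * (4 * Real.log x ^ 2) = 8 * y * Real.log x ^ 2 := by ring
  linarith

theorem ME_nonneg (x q : ℕ) (b : ZMod q) : 0 ≤ ME x q b := by
  unfold ME
  exact (abs_nonneg (err 0 q b)).trans
    (le_sup' (fun y => |err y q b|) (mem_range.2 (Nat.succ_pos x)))

theorem ME_mono (x x' q : ℕ) (h : x ≤ x') (b : ZMod q) : ME x q b ≤ ME x' q b := by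
  unfold ME
  apply sup'_le
  intro y hy
  apply le_sup' (fun y => |err y q b|)
  rw [mem_range] at hy ⊢
  omega

private theorem Tri_cases (x q : ℕ) (A : Finset ℕ) : mE x q A = 0 ∨
    ∃ a ∈ A, Nat.Coprime a q ∧ mE x q A = ME x q (a : ZMod q) := by
  rcases isEmpty_or_nonempty {a : ℕ // a ∈ A ∧ Nat.Coprime a q} with h | h
  · left
    unfold mE
    exact Real.iSup_of_isEmpty _
  · right
    obtain ⟨⟨a, ha, hq⟩, h1⟩ := exists_eq_ciSup_of_finite
      (f := fun a : {a : ℕ // a ∈ A ∧ Nat.Coprime a q} => ME x q ((a : ℕ) : ZMod q))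
    exact ⟨a, ha, hq, h1.symm⟩

theorem mE_nonneg (x q : ℕ) (A : Finset ℕ) : 0 ≤ mE x q A := by
  rcases Tri_cases x q A with h | ⟨a, _, _, h⟩
  · rw [h]
  · rw [h]
    exact ME_nonneg _ _ _

theorem mE_cases (x q : ℕ) (A : Finset ℕ) : mE x q A = 0 ∨
    ∃ a ∈ A, Nat.Coprime a q ∧ mE x q A = ME x q (a : ZMod q) := by
  exact Tri_cases x q A

theorem le_mE (x q : ℕ) (A : Finset ℕ) (a : ℕ) (ha : a ∈ A) (hq : Nat.Coprime a q) :
    ME x q (a : ZMod q) ≤ mE x q A := by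
  exact le_ciSup (f := fun a : {a : ℕ // a ∈ A ∧ Nat.Coprime a q} => ME x q ((a : ℕ) : ZMod q))
    (Set.finite_range _).bddAbove ⟨a, ha, hq⟩

theorem mE_singleton (x q a : ℕ) :
    mE x q {a} = if Nat.Coprime a q then ME x q (a : ZMod q) else 0 := by
  by_cases h : Nat.Coprime a q
  · rw [if_pos h]
    have h1 := le_mE x q {a} a (mem_singleton_self a) h
    rcases mE_cases x q {a} with h2 | ⟨a', h2, -, h3⟩
    · have h4 := ME_nonneg x q (a : ZMod q)
      rw [h2] at h1 ⊢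
      exact le_antisymm h4 h1
    · rw [mem_singleton] at h2
      rw [h3, h2]
  · rw [if_neg h]
    rcases mE_cases x q {a} with h2 | ⟨a', h2, h3, -⟩
    · exact h2
    · rw [mem_singleton] at h2
      rw [h2] at h3
      exact absurd h3 h

end Pool.Agent.H65.MS
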