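import Pool.Agent.H76.EHB.VdcF
import Pool.Agent.H76.EHB.Jred

/-!
# MS ZPa: exponential sums over arithmetic progressions, power saving

Same proof as `ap_sum` in `Pool/Agent/H76/EHB/ApSum.lean` (copy the file; its private lemmas `dyad`, `ap_reduce` are needed unchanged), with
`(log x)^c` replaced by `x^(7ρ)`.  `k0 ≥ 40/kap`, `δ, C` from `vdc k0`, `X = x^(kap/4)`, `ρ0 = kap δ/100`.  What is used for `x ≥ x0(ρ)`:
`2 ≤ x^(kap/4)`; `6 C x^(7ρ) ≤ X^δ` (`7ρ < kap δ/4`); `84 x^(7ρ) ≤ x^(kap/6)`; `8 x^(7ρ) ≤ x^(kap/2)`; `48 x^(7ρ) ≤ x^(8ρ)`.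
-/

set_option autoImplicit false

namespace Pool.Agent.H65.MS

open Finset
open Pool.Agent.H91.PK (ee)
open Pool.Agent.H76.EHB

/-- dyadic decomposition -/
private lemma ZPa_dyad (g : ℕ → ℂ) (hg : ∀ n, ‖g n‖ ≤ 1) (M1 U : ℕ) (E : ℝ) (hE : 0 ≤ E)
    (hM1 : 1 ≤ M1)
    (h : ∀ M b : ℕ, M1 ≤ 2 * M → M ≤ U → b ≤ 2 * M → ‖∑ n ∈ Ioc M b, g n‖ ≤ M * E) :
    ∀ P : ℕ, P ≤ U → ‖∑ n ∈ Ioc 0 P, g n‖ ≤ M1 + 3 * E * P := by
  intro P
  induction P using Nat.strong_induction_on with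
  | _ P ih =>
    intro hPU
    rcases le_or_gt P M1 with hP | hP
    · have h1 : ‖∑ n ∈ Ioc 0 P, g n‖ ≤ P := by
        refine (norm_sum_le _ _).trans ?_
        refine (Finset.sum_le_sum fun n _ => hg n).trans ?_
        simp
      have h2 : (P : ℝ) ≤ M1 := by exact_mod_cast hP
      have h3 : 0 ≤ 3 * E * P := by positivity
      linarith
    · have hlt : (P + 1) / 2 < P := by omega
      have h1 := ih _ hlt (by omega)
      have h2 := h ((P + 1) / 2) P (by omega) (by omega) (by omega)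
      have h3 : ∑ n ∈ Ioc 0 P, g n
          = ∑ n ∈ Ioc 0 ((P + 1) / 2), g n + ∑ n ∈ Ioc ((P + 1) / 2) P, g n :=
        (Finset.sum_Ioc_consecutive g (Nat.zero_le _) hlt.le).symm
      have h4 : (((P + 1) / 2 : ℕ) : ℝ) ≤ (P + 1) / 2 := by
        have : 2 * ((P + 1) / 2) ≤ P + 1 := by omega
        have h5 : (2 : ℝ) * (((P + 1) / 2 : ℕ) : ℝ) ≤ (P : ℝ) + 1 := by exact_mod_cast this
        linarith
      have hP2 : (2 : ℝ) ≤ P := by
        have : 2 ≤ P := by omega
        exact_mod_cast this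
      rw [h3]
      refine (norm_add_le _ _).trans ?_
      have h5 : E * (((P + 1) / 2 : ℕ) : ℝ) ≤ E * ((P + 1) / 2) :=
        mul_le_mul_of_nonneg_left h4 hE
      have h6 : E * 2 ≤ E * P := mul_le_mul_of_nonneg_left hP2 hE
      nlinarith

/-- reduction of an arithmetic progression to an interval -/
private lemma ZPa_reduce (u d : ℕ) (l : ℤ) (t : ℝ) (hd : 1 ≤ d) :
    ∃ (P : ℕ) (β : ℝ), P ≤ u ∧ 0 ≤ β ∧ β ≤ 1 ∧
      ‖∑ k ∈ Sp u d l, ee (t * Real.log k)‖
        ≤ 1 + ‖∑ n ∈ Ioc 0 P, ee (t * Real.log (n + β))‖ := by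
  set r : ℕ := ((l - 1) % (d : ℤ)).toNat + 1 with hr
  have hd0 : (0 : ℤ) < d := by exact_mod_cast hd
  have hm0 : 0 ≤ (l - 1) % (d : ℤ) := Int.emod_nonneg _ hd0.ne'
  have hm1 : (l - 1) % (d : ℤ) < d := Int.emod_lt_of_pos _ hd0
  have hrz : (r : ℤ) = (l - 1) % (d : ℤ) + 1 := by
    rw [hr]
    push_cast
    rw [Int.toNat_of_nonneg hm0]
  have hr1 : 1 ≤ r := by omega
  have hrd : r ≤ d := by omega
  have hdvd : (d : ℤ) ∣ (r : ℤ) - l := by
    have h1 := Int.emod_add_mul_ediv (l - 1) (d : ℤ)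
    refine ⟨-((l - 1) / (d : ℤ)), ?_⟩
    rw [hrz]
    linarith
  rcases lt_or_ge u r with hur | hur
  · -- no terms
    refine ⟨0, 0, Nat.zero_le _, le_refl _, zero_le_one, ?_⟩
    have hempty : Sp u d l = ∅ := by
      rw [Sp, Finset.filter_eq_empty_iff]
      intro k hk hk2
      rw [Finset.mem_Icc] at hk
      have h1 : (d : ℤ) ∣ (r : ℤ) - k := by
        have := dvd_sub hdvd hk2
        have e : (r : ℤ) - l - ((k : ℤ) - l) = (r : ℤ) - k := by ring
        rwa [e] at this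
      have h2 : (0 : ℤ) < (r : ℤ) - k := by
        have : k < r := by omega
        have : (k : ℤ) < r := by exact_mod_cast this
        linarith
      have h3 := Int.le_of_dvd h2 h1
      have h4 : (r : ℤ) ≤ d := by exact_mod_cast hrd
      have h5 : (1 : ℤ) ≤ k := by exact_mod_cast hk.1
      linarith
    rw [hempty]
    simp
  · set P : ℕ := (u - r) / d with hP
    have hdR : (0 : ℝ) < d := by exact_mod_cast hd
    refine ⟨P, (r : ℝ) / d, ?_, by positivity, ?_, ?_⟩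
    · rw [hP]
      exact (Nat.div_le_self _ _).trans (Nat.sub_le _ _)
    · rw [div_le_one hdR]
      exact_mod_cast hrd
    · have himg : Sp u d l = (Finset.range (P + 1)).image (fun m => r + d * m) := by
        ext k
        rw [Sp, Finset.mem_filter, Finset.mem_Icc, Finset.mem_image]
        constructor
        · rintro ⟨⟨h1, h2⟩, h3⟩
          have h4 : (d : ℤ) ∣ (k : ℤ) - r := by
            have := dvd_sub h3 hdvd
            have e : (k : ℤ) - l - ((r : ℤ) - l) = (k : ℤ) - r := by ring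
            rwa [e] at this
          obtain ⟨j, hj⟩ := h4
          have hj0 : 0 ≤ j := by
            by_contra hneg
            push Not at hneg
            have h5 : (d : ℤ) * j ≤ -d := by nlinarith
            have h6 : (r : ℤ) ≤ d := by exact_mod_cast hrd
            have h7 : (1 : ℤ) ≤ k := by exact_mod_cast h1
            linarith
          obtain ⟨m, rfl⟩ := Int.eq_ofNat_of_zero_le hj0
          have h5 : k = r + d * m := by
            have : (k : ℤ) = r + d * m := by linarith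
            exact_mod_cast this
          refine ⟨m, ?_, h5.symm⟩
          rw [Finset.mem_range, Nat.lt_succ_iff, hP, Nat.le_div_iff_mul_le hd]
          have : m * d = d * m := Nat.mul_comm _ _
          omega
        · rintro ⟨m, hm, rfl⟩
          rw [Finset.mem_range, Nat.lt_succ_iff, hP, Nat.le_div_iff_mul_le hd] at hm
          have h0 : m * d = d * m := Nat.mul_comm _ _
          refine ⟨⟨by omega, by omega⟩, ?_⟩
          have e : ((r + d * m : ℕ) : ℤ) - l = ((r : ℤ) - l) + d * m := by push_cast; ring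
          rw [e]
          exact dvd_add hdvd (dvd_mul_right _ _)
      rw [himg, Finset.sum_image]
      · have hterm : ∀ m ∈ Finset.range (P + 1), ee (t * Real.log ((r + d * m : ℕ) : ℝ))
            = ee (t * Real.log d) * ee (t * Real.log ((m : ℝ) + (r : ℝ) / d)) := by
          intro m _
          rw [← Pool.Agent.H91.PK.LSa_ee_add, ← mul_add, ← Real.log_mul hdR.ne' ?_]
          · congr 3
            push_cast
            field_simp
            ring
          · have : (0 : ℝ) < r := by exact_mod_cast hr1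
            positivity
        rw [Finset.sum_congr rfl hterm, ← Finset.mul_sum, norm_mul,
          Pool.Agent.H91.PK.LSa_norm_ee, one_mul, Finset.sum_range_succ']
        rw [add_comm]
        refine (norm_add_le _ _).trans ?_
        rw [Pool.Agent.H91.PK.LSa_norm_ee]
        have hshift : ∑ k ∈ Finset.range P, ee (t * Real.log (((k + 1 : ℕ) : ℝ) + (r : ℝ) / d))
            = ∑ n ∈ Ioc 0 P, ee (t * Real.log ((n : ℝ) + (r : ℝ) / d)) := by
          rw [Finset.range_eq_Ico, Finset.sum_Ico_add' (fun n : ℕ =>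
            ee (t * Real.log ((n : ℝ) + (r : ℝ) / d))) 0 P 1]
          rfl
        rw [hshift]
      · intro a _ b _ hab
        have hab' : r + d * a = r + d * b := hab
        have : d * a = d * b := by omega
        exact Nat.eq_of_mul_eq_mul_left hd this

/-- powers -/
private lemma ZPa_pow (s1 s2 C : ℝ) (h : s1 < s2) :
    ∃ x0 : ℕ, ∀ x : ℕ, x0 ≤ x → C * (x : ℝ) ^ s1 ≤ (x : ℝ) ^ s2 := by
  have h1 := (tendsto_rpow_atTop (sub_pos.2 h)).eventually_ge_atTop C
  have h3 := tendsto_natCast_atTop_atTop (R := ℝ) |>.eventually h1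
  obtain ⟨x0, hx0⟩ := Filter.eventually_atTop.1 h3
  refine ⟨max x0 1, fun x hx => ?_⟩
  have hx1 : (0 : ℝ) < x := by
    have : 1 ≤ x := (le_max_right _ _).trans hx
    exact_mod_cast this
  have h4 := hx0 x ((le_max_left _ _).trans hx)
  have h5 : (x : ℝ) ^ s2 = (x : ℝ) ^ (s2 - s1) * (x : ℝ) ^ s1 := by
    rw [← Real.rpow_add hx1]
    congr 1
    ring
  rw [h5]
  exact mul_le_mul_of_nonneg_right h4 (Real.rpow_nonneg hx1.le _)

theorem ap_pow (kap : ℝ) (hkap : 0 < kap) : ∃ ρ0 : ℝ, 0 < ρ0 ∧ ∀ ρ : ℝ, 0 < ρ → ρ ≤ ρ0 →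
    ∃ x0 : ℕ, ∀ x : ℕ, x0 ≤ x → ∀ (u d : ℕ) (l : ℤ) (t : ℝ), (x : ℝ) ^ kap ≤ u → u ≤ x → 1 ≤ d →
      (x : ℝ) ^ (8 * ρ) ≤ |t| → |t| ≤ (x : ℝ) ^ (10 : ℕ) →
      ‖∑ k ∈ Sp u d l, ee (t * Real.log k)‖ ≤ u / (x : ℝ) ^ (7 * ρ) := by
  obtain ⟨k0, hk0⟩ := exists_nat_ge (40 / kap)
  obtain ⟨δ, C, hδ, hδ1, hC, hvdc⟩ := vdc k0
  refine ⟨kap * δ / 100, by positivity, fun ρ hρ hρ0 => ?_⟩
  have hkd : 0 < kap * δ := mul_pos hkap hδ
  have hkd1 : kap * δ ≤ kap := by
    have := mul_le_mul_of_nonneg_left hδ1 hkap.le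
    linarith
  obtain ⟨xa, hxa⟩ := ZPa_pow (7 * ρ) (8 * ρ) 48 (by linarith)
  obtain ⟨xb, hxb⟩ := ZPa_pow 0 (kap / 4) 2 (by linarith)
  obtain ⟨xc, hxc⟩ := ZPa_pow (7 * ρ) (kap / 4 * δ) (6 * C) (by linarith)
  obtain ⟨xd, hxd⟩ := ZPa_pow (7 * ρ) (kap / 6) 84 (by linarith)
  obtain ⟨xe, hxe⟩ := ZPa_pow (7 * ρ) (kap / 2) 8 (by linarith)
  refine ⟨max xa (max xb (max xc (max xd (max xe 1)))), fun x hx => ?_⟩
  simp only [max_le_iff] at hx
  obtain ⟨hx1, hx2, hx3, hx4, hx5, hx6⟩ := hx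
  replace hxa := hxa x hx1
  replace hxb := hxb x hx2
  replace hxc := hxc x hx3
  replace hxd := hxd x hx4
  replace hxe := hxe x hx5
  rw [Real.rpow_zero, mul_one] at hxb
  intro u d l t hu1 hu2 hd ht1 ht2
  have hx0 : (1 : ℝ) ≤ x := by exact_mod_cast hx6
  have hxpos : (0 : ℝ) < x := by linarith
  set Y : ℝ := (x : ℝ) ^ (7 * ρ) with hY
  have hYc : 0 < Y := Real.rpow_pos_of_pos hxpos _
  have htpos : 0 < |t| := lt_of_lt_of_le (by positivity) ht1
  have ht0 : t ≠ 0 := abs_pos.1 htpos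
  set X : ℝ := (x : ℝ) ^ (kap / 4) with hX
  have hXX : (x : ℝ) ^ (kap / 2) = X ^ 2 := by
    rw [hX, ← Real.rpow_natCast, ← Real.rpow_mul hxpos.le]
    congr 1
    push_cast
    ring
  have hXXX : (x : ℝ) ^ kap = X ^ 4 := by
    rw [hX, ← Real.rpow_natCast, ← Real.rpow_mul hxpos.le]
    congr 1
    push_cast
    ring
  set M1 : ℕ := ⌈(x : ℝ) ^ (kap / 2)⌉₊ with hM1
  have hM1a : (x : ℝ) ^ (kap / 2) ≤ M1 := Nat.le_ceil _
  have hM1b : (M1 : ℝ) < (x : ℝ) ^ (kap / 2) + 1 :=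
    Nat.ceil_lt_add_one (Real.rpow_nonneg hxpos.le _)
  have hM1c : 1 ≤ M1 := by
    have : (0 : ℝ) < M1 := lt_of_lt_of_le (Real.rpow_pos_of_pos hxpos _) hM1a
    exact_mod_cast this
  obtain ⟨P, β, hPu, hβ0, hβ1, hred⟩ := ZPa_reduce u d l t hd
  set E : ℝ := 1 / (6 * Y) with hE
  have hE0 : 0 ≤ E := by positivity
  have hdy := ZPa_dyad (fun n : ℕ => ee (t * Real.log (n + β)))
    (fun n => (Pool.Agent.H91.PK.LSa_norm_ee _).le) M1 u E hE0 hM1c (by
    intro M b hM2 hMU hb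
    have hMX : X ≤ M := by
      have h1 : (M1 : ℝ) ≤ 2 * M := by exact_mod_cast hM2
      rw [hXX] at hM1a
      nlinarith
    have hM1' : (1 : ℝ) ≤ M := by linarith
    have hM1n : 1 ≤ M := by exact_mod_cast hM1'
    have hM0 : (0 : ℝ) < M := by linarith
    rcases le_or_gt ((M : ℝ) ^ (1 / 3 : ℝ)) |t| with hcase | hcase
    · -- van der Corput
      have h1 : |t| ≤ (M : ℝ) ^ k0 := by
        have h2 : (x : ℝ) ^ (10 : ℕ) ≤ X ^ k0 := by
          rw [hX, ← Real.rpow_natCast, ← Real.rpow_natCast, ← Real.rpow_mul hxpos.le]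
          apply Real.rpow_le_rpow_of_exponent_le hx0
          rw [div_le_iff₀ hkap] at hk0
          push_cast
          linarith
        have h3 : X ^ k0 ≤ (M : ℝ) ^ k0 := by
          apply pow_le_pow_left₀ _ hMX
          linarith
        linarith
      have h4 := hvdc M M b β t hM1n le_rfl hb hβ0 hβ1 hcase h1
      refine h4.trans ?_
      have h5 : (M : ℝ) ^ (1 - δ) = M * (1 / (M : ℝ) ^ δ) := by
        rw [Real.rpow_sub hM0, Real.rpow_one]
        ring
      have h6 : 6 * C * Y ≤ (M : ℝ) ^ δ := by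
        refine hxc.trans ?_
        rw [Real.rpow_mul hxpos.le]
        exact Real.rpow_le_rpow (by linarith) hMX hδ.le
      have h7 : 0 < (M : ℝ) ^ δ := Real.rpow_pos_of_pos hM0 _
      rw [h5, hE]
      have h8 : C * (1 / (M : ℝ) ^ δ) ≤ 1 / (6 * Y) := by
        rw [mul_one_div, div_le_div_iff₀ h7 (by positivity)]
        linarith
      calc C * (M * (1 / (M : ℝ) ^ δ)) = M * (C * (1 / (M : ℝ) ^ δ)) := by ring
        _ ≤ M * (1 / (6 * Y)) := mul_le_mul_of_nonneg_left h8 hM0.le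
    · have h1 := low_sum t β M M b hM1n le_rfl hb hβ0 hβ1 ht0
      refine h1.trans ?_
      have h2 : 4 * M / |t| ≤ M * (1 / (12 * Y)) := by
        rw [mul_one_div, div_le_div_iff₀ htpos (by positivity)]
        have h3 : 48 * Y ≤ |t| := hxa.trans ht1
        nlinarith
      have h3 : 7 * |t| ≤ M * (1 / (12 * Y)) := by
        have h4 : (M : ℝ) = (M : ℝ) ^ (1 / 3 : ℝ) * (M : ℝ) ^ (2 / 3 : ℝ) := by
          rw [← Real.rpow_add hM0]
          norm_num
        have h5 : 84 * Y ≤ (M : ℝ) ^ (2 / 3 : ℝ) := by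
          refine hxd.trans ?_
          have h6 : (x : ℝ) ^ (kap / 6) = X ^ (2 / 3 : ℝ) := by
            rw [hX, ← Real.rpow_mul hxpos.le]
            congr 1
            ring
          rw [h6]
          exact Real.rpow_le_rpow (by linarith) hMX (by norm_num)
        have h7 : 0 < (M : ℝ) ^ (1 / 3 : ℝ) := Real.rpow_pos_of_pos hM0 _
        rw [mul_one_div, le_div_iff₀ (by positivity)]
        calc 7 * |t| * (12 * Y) = |t| * (84 * Y) := by ring
          _ ≤ (M : ℝ) ^ (1 / 3 : ℝ) * (M : ℝ) ^ (2 / 3 : ℝ) :=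
            mul_le_mul hcase.le h5 (by positivity) h7.le
          _ = M := h4.symm
      have h8 : M * (1 / (12 * Y)) + M * (1 / (12 * Y)) = M * E := by
        rw [hE]
        field_simp
        norm_num
      linarith)
  have h1 := hdy P hPu
  refine hred.trans ?_
  have hPu' : (P : ℝ) ≤ u := by exact_mod_cast hPu
  have h2 : 3 * E * P ≤ u / (2 * Y) := by
    have h3 : 3 * E * P ≤ 3 * E * u := mul_le_mul_of_nonneg_left hPu' (by positivity)
    refine h3.trans (le_of_eq ?_)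
    rw [hE]
    field_simp
    ring
  have h4 : 1 + (M1 : ℝ) ≤ u / (2 * Y) := by
    rw [le_div_iff₀ (by positivity)]
    have h5 : 1 ≤ X ^ 2 := by nlinarith
    rw [hXX] at hM1b hxe
    have h6 : (1 + (M1 : ℝ)) ≤ 4 * X ^ 2 := by linarith
    calc (1 + (M1 : ℝ)) * (2 * Y) ≤ 4 * X ^ 2 * (2 * Y) :=
          mul_le_mul_of_nonneg_right h6 (by positivity)
      _ = X ^ 2 * (8 * Y) := by ring
      _ ≤ X ^ 2 * X ^ 2 := mul_le_mul_of_nonneg_left hxe (by positivity)
      _ = X ^ 4 := by ring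
      _ ≤ u := by rw [← hXXX]; exact hu1
  have h9 : (u : ℝ) / (2 * Y) + u / (2 * Y) = u / Y := by
    field_simp
    norm_num
  linarith

end Pool.Agent.H65.MS
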