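import Pool.Agent.H65.MS.ZPa
import Pool.Agent.H76.EHB.ZZb

/-!
# MS ZPb: the bound for `ZZ`, power saving

Same proof as `ZZ_bound` in `Pool/Agent/H76/EHB/ZZb.lean` (copy it, with its private lemmas), with `ap_pow (kap/2)` instead of `ap_sum` and
`w = K/x^(7ρ)` instead of `K/(log x)^(c+3)`.  Needed: `x^(7ρ) ≤ x^(kap/2)` (`ρ0 ≤ kap/14`), `7 x^(8ρ) ≤ x^(10ρ)` (then
`|τ| = |t|/(2π) ≥ x^(10ρ)/7 ≥ x^(8ρ)`), `24 ≤ x^ρ` (then `24 w ≤ K/x^(6ρ)`).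
-/

set_option autoImplicit false

namespace Pool.Agent.H65.MS

open Finset
open Pool.Agent.H91.PK (ee)
open Pool.Agent.H76.EHB

private theorem ZPb_abel (f : ℕ → ℝ) (hf : ∀ n, f (n + 1) ≤ f n)
    (a : ℕ → ℂ) (m : ℕ) (M : ℝ) (n : ℕ) (hmn : m + 1 ≤ n)
    (hS : ∀ j, m ≤ j → j ≤ n → ‖∑ k ∈ Ioc m j, a k‖ ≤ M) :
    ‖∑ k ∈ Ioc m n, (f k : ℂ) * a k - (f n : ℂ) * ∑ k ∈ Ioc m n, a k‖ ≤ M * (f (m + 1) - f n) := by
  induction n, hmn using Nat.le_induction with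
  | base =>
    have h1 : Ioc m (m + 1) = {m + 1} := by
      ext j; rw [mem_Ioc, mem_singleton]; omega
    rw [h1, sum_singleton, sum_singleton, sub_self, norm_zero, sub_self, mul_zero]
  | succ n hn ih =>
    have hih := ih (fun j h1 h2 => hS j h1 (h2.trans (Nat.le_succ n)))
    have hsucc : ∀ g : ℕ → ℂ, ∑ k ∈ Ioc m (n + 1), g k = ∑ k ∈ Ioc m n, g k + g (n + 1) := by
      intro g
      exact sum_Ioc_succ_top (by omega) g
    rw [hsucc, hsucc]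
    have hSn := hS n (by omega) (Nat.le_succ n)
    have e : ∑ k ∈ Ioc m n, (f k : ℂ) * a k + (f (n + 1) : ℂ) * a (n + 1)
        - (f (n + 1) : ℂ) * (∑ k ∈ Ioc m n, a k + a (n + 1)) =
        (∑ k ∈ Ioc m n, (f k : ℂ) * a k - (f n : ℂ) * ∑ k ∈ Ioc m n, a k) +
        ((f n - f (n + 1) : ℝ) : ℂ) * ∑ k ∈ Ioc m n, a k := by
      push_cast
      ring
    rw [e]
    refine (norm_add_le _ _).trans ?_
    have h2 : ‖((f n - f (n + 1) : ℝ) : ℂ) * ∑ k ∈ Ioc m n, a k‖ ≤ (f n - f (n + 1)) * M := by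
      rw [norm_mul, Complex.norm_real, Real.norm_of_nonneg (by linarith [hf n])]
      exact mul_le_mul_of_nonneg_left hSn (by linarith [hf n])
    calc _ ≤ M * (f (m + 1) - f n) + (f n - f (n + 1)) * M := add_le_add hih h2
      _ = M * (f (m + 1) - f (n + 1)) := by ring

private theorem ZPb_abel2 (f : ℕ → ℝ) (hf : ∀ n, f (n + 1) ≤ f n) (hf0 : ∀ n, 0 ≤ f n)
    (a : ℕ → ℂ) (m : ℕ) (M : ℝ) (n : ℕ) (hmn : m ≤ n)
    (hS : ∀ j, m ≤ j → j ≤ n → ‖∑ k ∈ Ioc m j, a k‖ ≤ M) :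
    ‖∑ k ∈ Ioc m n, (f k : ℂ) * a k‖ ≤ M * f (m + 1) := by
  have hM : 0 ≤ M := (norm_nonneg _).trans (hS m le_rfl hmn)
  rcases Nat.eq_or_lt_of_le hmn with h | h
  · subst h
    rw [Ioc_self, sum_empty, norm_zero]
    exact mul_nonneg hM (hf0 _)
  · have h1 := ZPb_abel f hf a m M n h hS
    have h2 : ‖(f n : ℂ) * ∑ k ∈ Ioc m n, a k‖ ≤ f n * M := by
      rw [norm_mul, Complex.norm_real, Real.norm_of_nonneg (hf0 n)]
      exact mul_le_mul_of_nonneg_left (hS n hmn le_rfl) (hf0 n)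
    calc ‖∑ k ∈ Ioc m n, (f k : ℂ) * a k‖
        = ‖(∑ k ∈ Ioc m n, (f k : ℂ) * a k - (f n : ℂ) * ∑ k ∈ Ioc m n, a k) +
          (f n : ℂ) * ∑ k ∈ Ioc m n, a k‖ := by rw [sub_add_cancel]
      _ ≤ M * (f (m + 1) - f n) + f n * M := (norm_add_le _ _).trans (add_le_add h1 h2)
      _ = M * f (m + 1) := by ring

private theorem ZPb_sqrt_sum (n : ℕ) :
    ∑ k ∈ Icc 1 n, (k : ℝ) ^ (-(1 / 2) : ℝ) ≤ 2 * Real.sqrt n := by
  induction n with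
  | zero => simp
  | succ n ih =>
    rw [sum_Icc_succ_top (by omega : 1 ≤ n + 1)]
    have h0 : (0 : ℝ) ≤ n := Nat.cast_nonneg n
    have h1 : (((n + 1 : ℕ) : ℝ)) ^ (-(1 / 2) : ℝ) = 1 / Real.sqrt (n + 1) := by
      rw [Real.rpow_neg (by positivity), Real.sqrt_eq_rpow, one_div, one_div]
      push_cast
      rfl
    rw [h1]
    have hs : 0 < Real.sqrt ((n : ℝ) + 1) := Real.sqrt_pos.2 (by linarith)
    have hs0 : 0 ≤ Real.sqrt (n : ℝ) := Real.sqrt_nonneg _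
    have e1 : Real.sqrt ((n : ℝ) + 1) * Real.sqrt ((n : ℝ) + 1) = n + 1 :=
      Real.mul_self_sqrt (by linarith)
    have e2 : Real.sqrt (n : ℝ) * Real.sqrt (n : ℝ) = n := Real.mul_self_sqrt h0
    have h2 : 1 / Real.sqrt ((n : ℝ) + 1) ≤ 2 * Real.sqrt ((n : ℝ) + 1) - 2 * Real.sqrt n := by
      rw [div_le_iff₀ hs]
      nlinarith [sq_nonneg (Real.sqrt ((n : ℝ) + 1) - Real.sqrt n)]
    push_cast
    linarith

private theorem ZPb_term (k : ℕ) (hk : 1 ≤ k) (t : ℝ) :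
    (k : ℂ) ^ (-(1 / 2 : ℂ) + t * Complex.I) =
      (((k : ℝ) ^ (-(1 / 2) : ℝ) : ℝ) : ℂ) * ee (t / (2 * Real.pi) * Real.log k) := by
  have hk0 : (k : ℂ) ≠ 0 := by
    have : k ≠ 0 := by omega
    exact_mod_cast this
  have hkr : (0 : ℝ) < k := by exact_mod_cast hk
  have hpi : (Real.pi : ℂ) ≠ 0 := by exact_mod_cast Real.pi_ne_zero
  rw [Complex.cpow_add _ _ hk0, Complex.ofReal_cpow hkr.le]
  congr 1
  · push_cast
    rfl
  · rw [Complex.cpow_def_of_ne_zero hk0, ee, ← Complex.natCast_log]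
    congr 1
    push_cast
    field_simp

/-- powers -/
private lemma ZPb_pow (s1 s2 C : ℝ) (h : s1 < s2) :
    ∃ x0 : ℕ, ∀ x : ℕ, x0 ≤ x → C * (x : ℝ) ^ s1 ≤ (x : ℝ) ^ s2 := by
  have h1 := (tendsto_rpow_atTop (sub_pos.2 h)).eventually_ge_atTop C
  have h3 := tendsto_natCast_atTop_atTop (R := ℝ) |>.eventually h1
  obtain ⟨x0, hx0⟩ := Filter.eventually_atTop.1 h3
  refine ⟨max x0 1, fun x hx => ?_⟩
  have hx1 : (0 : ℝ) < x := by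
    have : 1 ≤ x := (le_max_right _ _).trans hx
    exact_mod_cast this
  have h4 := hx0 x ((le_max_left _ _).trans hx)
  have h5 : (x : ℝ) ^ s2 = (x : ℝ) ^ (s2 - s1) * (x : ℝ) ^ s1 := by
    rw [← Real.rpow_add hx1]
    congr 1
    ring
  rw [h5]
  exact mul_le_mul_of_nonneg_right h4 (Real.rpow_nonneg hx1.le _)

theorem ZZ_pow (kap : ℝ) (hkap : 0 < kap) : ∃ ρ0 : ℝ, 0 < ρ0 ∧ ∀ ρ : ℝ, 0 < ρ → ρ ≤ ρ0 →
    ∃ x0 : ℕ, ∀ x : ℕ, x0 ≤ x → ∀ (K d : ℕ) (l : ℤ) (t : ℝ), (x : ℝ) ^ kap ≤ K → K ≤ x → 1 ≤ d →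
      (x : ℝ) ^ (10 * ρ) ≤ |t| → |t| ≤ (x : ℝ) ^ (10 : ℕ) →
      ‖ZZ (Sp K d l) t‖ ^ 2 ≤ K / (x : ℝ) ^ (6 * ρ) := by
  obtain ⟨ρ1, hρ1, hap0⟩ := ap_pow (kap / 2) (by positivity)
  refine ⟨min ρ1 (kap / 14), lt_min hρ1 (by positivity), fun ρ hρ hρ0 => ?_⟩
  have hρa : ρ ≤ ρ1 := hρ0.trans (min_le_left _ _)
  have hρb : ρ ≤ kap / 14 := hρ0.trans (min_le_right _ _)
  obtain ⟨x1, hap⟩ := hap0 ρ hρ hρa
  obtain ⟨x3, hx3⟩ := ZPb_pow 0 ρ 24 (by linarith)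
  obtain ⟨x4, hx4⟩ := ZPb_pow (8 * ρ) (10 * ρ) 7 (by linarith)
  refine ⟨max x1 (max x3 (max x4 1)), ?_⟩
  intro x hx K d l t hK1 hK2 hd1 ht1 ht2
  have hxa : x1 ≤ x := (le_max_left _ _).trans hx
  have hxb : x3 ≤ x := ((le_max_left _ _).trans (le_max_right _ _)).trans hx
  have hxc : x4 ≤ x := (((le_max_left _ _).trans (le_max_right _ _)).trans (le_max_right _ _)).trans hx
  have hxd : 1 ≤ x := (((le_max_right _ _).trans (le_max_right _ _)).trans (le_max_right _ _)).trans hx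
  have hx0 : (1 : ℝ) ≤ x := by exact_mod_cast hxd
  have hxpos : (0 : ℝ) < x := by linarith
  have h24x := hx3 x hxb
  rw [Real.rpow_zero, mul_one] at h24x
  have h7x := hx4 x hxc
  obtain ⟨Y, hY⟩ : ∃ Y : ℝ, Y = (x : ℝ) ^ (7 * ρ) := ⟨_, rfl⟩
  have hLp : Y ≤ (x : ℝ) ^ (kap / 2) := by
    rw [hY]
    exact Real.rpow_le_rpow_of_exponent_le hx0 (by linarith)
  have hC0 : 0 < Y := by rw [hY]; exact Real.rpow_pos_of_pos hxpos _
  have hY1 : 1 ≤ Y := by rw [hY]; exact Real.one_le_rpow hx0 (by positivity)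
  have hxk : (x : ℝ) ^ kap = (x : ℝ) ^ (kap / 2) * (x : ℝ) ^ (kap / 2) := by
    rw [← Real.rpow_add (by linarith)]
    congr 1
    ring
  have hxk1 : 1 ≤ (x : ℝ) ^ (kap / 2) := Real.one_le_rpow hx0 (by positivity)
  -- the threshold
  obtain ⟨w, hw⟩ : ∃ w : ℝ, w = (K : ℝ) / Y := ⟨_, rfl⟩
  have hwx : (x : ℝ) ^ (kap / 2) ≤ w := by
    rw [hw, le_div_iff₀ hC0]
    calc (x : ℝ) ^ (kap / 2) * Y ≤ (x : ℝ) ^ (kap / 2) * (x : ℝ) ^ (kap / 2) :=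
          mul_le_mul_of_nonneg_left hLp (by positivity)
      _ = (x : ℝ) ^ kap := hxk.symm
      _ ≤ K := hK1
  have hw1 : 1 ≤ w := hxk1.trans hwx
  have hwK : w ≤ K := by
    rw [hw]
    exact div_le_self (Nat.cast_nonneg K) hY1
  obtain ⟨u0, hu0⟩ : ∃ u0 : ℕ, u0 = ⌈w⌉₊ := ⟨_, rfl⟩
  have hu0w : w ≤ u0 := by rw [hu0]; exact Nat.le_ceil w
  have hu0K : u0 ≤ K := by rw [hu0]; exact Nat.ceil_le.2 hwK
  have hu02 : (u0 : ℝ) ≤ 2 * w := by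
    have := Nat.ceil_lt_add_one (by linarith : (0 : ℝ) ≤ w)
    rw [← hu0] at this
    linarith
  -- the coefficients
  obtain ⟨τ, hτ⟩ : ∃ τ : ℝ, τ = t / (2 * Real.pi) := ⟨_, rfl⟩
  have hpi0 := Real.pi_pos
  have hpi3 := Real.pi_gt_three
  have hpi4 := Real.pi_lt_d2
  have hτabs : |τ| = |t| / (2 * Real.pi) := by
    rw [hτ, abs_div, abs_of_pos (by positivity : (0 : ℝ) < 2 * Real.pi)]
  have hτ1 : (x : ℝ) ^ (8 * ρ) ≤ |τ| := by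
    rw [hτabs, le_div_iff₀ (by positivity)]
    refine le_trans ?_ (h7x.trans ht1)
    rw [mul_comm 7]
    exact mul_le_mul_of_nonneg_left (by linarith) (by positivity)
  have hτ2 : |τ| ≤ (x : ℝ) ^ (10 : ℕ) := by
    refine le_trans ?_ ht2
    rw [hτabs]
    exact div_le_self (abs_nonneg _) (by linarith)
  have hA : ∀ u : ℕ, u0 ≤ u → u ≤ K →
      ‖∑ k ∈ Sp u d l, ee (τ * Real.log k)‖ ≤ w := by
    intro u h1 h2
    have h3 := hap x hxa u d l τ (hwx.trans (hu0w.trans (by exact_mod_cast h1)))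
      (h2.trans hK2) hd1 hτ1 hτ2
    rw [← hY] at h3
    refine h3.trans ?_
    rw [hw]
    exact div_le_div_of_nonneg_right (by exact_mod_cast h2) hC0.le
  obtain ⟨a, ha⟩ : ∃ a : ℕ → ℂ, ∀ k, a k = if (d : ℤ) ∣ (k : ℤ) - l then ee (τ * Real.log k) else 0 :=
    ⟨_, fun _ => rfl⟩
  have hAa : ∀ u : ℕ, ∑ k ∈ Sp u d l, ee (τ * Real.log k) = ∑ k ∈ Icc 1 u, a k := by
    intro u
    rw [Sp, sum_filter]
    exact sum_congr rfl fun k _ => (ha k).symm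
  have hsplit : ∀ (g : ℕ → ℂ) (u : ℕ), u0 ≤ u →
      ∑ k ∈ Icc 1 u, g k = ∑ k ∈ Icc 1 u0, g k + ∑ k ∈ Ioc u0 u, g k := by
    intro g u hu
    have h1 : Icc 1 u = Icc 1 u0 ∪ Ioc u0 u := by
      ext j; rw [mem_union, mem_Icc, mem_Icc, mem_Ioc]; omega
    rw [h1, sum_union]
    rw [disjoint_left]
    intro j h2 h3
    rw [mem_Icc] at h2
    rw [mem_Ioc] at h3
    omega
  have hS : ∀ j, u0 ≤ j → j ≤ K → ‖∑ k ∈ Ioc u0 j, a k‖ ≤ 2 * w := by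
    intro j h1 h2
    have h3 := hA j h1 h2
    have h4 := hA u0 le_rfl hu0K
    rw [hAa] at h3 h4
    have h5 := hsplit a j h1
    have h6 : ∑ k ∈ Ioc u0 j, a k = ∑ k ∈ Icc 1 j, a k - ∑ k ∈ Icc 1 u0, a k := by
      rw [h5]; ring
    rw [h6]
    refine (norm_sub_le _ _).trans ?_
    linarith
  -- the weights
  obtain ⟨f, hf⟩ : ∃ f : ℕ → ℝ, ∀ k, f k = if k = 0 then 1 else (k : ℝ) ^ (-(1 / 2) : ℝ) :=
    ⟨_, fun _ => rfl⟩
  have hf0 : ∀ n, 0 ≤ f n := by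
    intro n
    rw [hf]
    split_ifs
    · exact zero_le_one
    · positivity
  have hfm : ∀ n, f (n + 1) ≤ f n := by
    intro n
    rw [hf, hf, if_neg (Nat.succ_ne_zero n)]
    split_ifs with h
    · subst h
      simp
    · have hn : (0 : ℝ) < n := by exact_mod_cast Nat.pos_of_ne_zero h
      exact Real.rpow_le_rpow_of_nonpos hn (by push_cast; linarith) (by norm_num)
  have hZ : ZZ (Sp K d l) t = ∑ k ∈ Icc 1 u0, (f k : ℂ) * a k + ∑ k ∈ Ioc u0 K, (f k : ℂ) * a k := by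
    rw [← hsplit _ K hu0K, ZZ, Sp, sum_filter]
    refine sum_congr rfl fun k hk => ?_
    rw [mem_Icc] at hk
    rw [ha, hf, if_neg (by omega : k ≠ 0)]
    split_ifs
    · rw [ZPb_term k hk.1 t, hτ]
    · rw [mul_zero]
  have hnee : ∀ y : ℝ, ‖ee y‖ = 1 := by
    intro y
    have : (2 * (Real.pi : ℂ) * (y : ℂ) * Complex.I) = ((2 * Real.pi * y : ℝ) : ℂ) * Complex.I := by
      push_cast
      ring
    rw [ee, this, Complex.norm_exp_ofReal_mul_I]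
  have hpart1 : ‖∑ k ∈ Icc 1 u0, (f k : ℂ) * a k‖ ≤ 2 * Real.sqrt u0 := by
    refine (norm_sum_le _ _).trans (le_trans (sum_le_sum ?_) (ZPb_sqrt_sum u0))
    intro k hk
    rw [mem_Icc] at hk
    rw [norm_mul, Complex.norm_real, Real.norm_of_nonneg (hf0 k), hf, if_neg (by omega : k ≠ 0)]
    refine mul_le_of_le_one_right (by positivity) ?_
    rw [ha]
    split_ifs
    · rw [hnee]
    · rw [norm_zero]; exact zero_le_one
  have hpart2 : ‖∑ k ∈ Ioc u0 K, (f k : ℂ) * a k‖ ≤ 2 * w * f (u0 + 1) :=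
    ZPb_abel2 f hfm hf0 a u0 (2 * w) K hu0K hS
  have hf2 : f (u0 + 1) ^ 2 ≤ 1 / w := by
    rw [hf, if_neg (Nat.succ_ne_zero u0), ← Real.rpow_natCast, ← Real.rpow_mul (by positivity)]
    have e1 : (-(1 / 2) : ℝ) * ((2 : ℕ) : ℝ) = -1 := by norm_num
    rw [e1, Real.rpow_neg_one, ← one_div]
    apply one_div_le_one_div_of_le (by linarith)
    push_cast
    linarith
  have hp1 : ‖∑ k ∈ Icc 1 u0, (f k : ℂ) * a k‖ ^ 2 ≤ 8 * w := by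
    calc ‖∑ k ∈ Icc 1 u0, (f k : ℂ) * a k‖ ^ 2 ≤ (2 * Real.sqrt u0) ^ 2 :=
          pow_le_pow_left₀ (norm_nonneg _) hpart1 2
      _ = 4 * u0 := by
          rw [mul_pow, Real.sq_sqrt (Nat.cast_nonneg u0)]
          norm_num
      _ ≤ 8 * w := by linarith
  have hp2 : ‖∑ k ∈ Ioc u0 K, (f k : ℂ) * a k‖ ^ 2 ≤ 4 * w := by
    calc ‖∑ k ∈ Ioc u0 K, (f k : ℂ) * a k‖ ^ 2 ≤ (2 * w * f (u0 + 1)) ^ 2 :=
          pow_le_pow_left₀ (norm_nonneg _) hpart2 2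
      _ = 4 * w ^ 2 * f (u0 + 1) ^ 2 := by ring
      _ ≤ 4 * w ^ 2 * (1 / w) := mul_le_mul_of_nonneg_left hf2 (by positivity)
      _ = 4 * w := by
          have : w ≠ 0 := by linarith
          field_simp
  have h24 : ‖ZZ (Sp K d l) t‖ ^ 2 ≤ 24 * w := by
    rw [hZ]
    have h1 := norm_add_le (∑ k ∈ Icc 1 u0, (f k : ℂ) * a k) (∑ k ∈ Ioc u0 K, (f k : ℂ) * a k)
    have h2 := pow_le_pow_left₀ (norm_nonneg _) h1 2
    have h3 : ∀ p q : ℝ, (p + q) ^ 2 ≤ 2 * p ^ 2 + 2 * q ^ 2 := by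
      intro p q
      nlinarith [sq_nonneg (p - q)]
    have h4 := h3 ‖∑ k ∈ Icc 1 u0, (f k : ℂ) * a k‖ ‖∑ k ∈ Ioc u0 K, (f k : ℂ) * a k‖
    linarith
  refine h24.trans ?_
  have hY2 : Y = (x : ℝ) ^ (6 * ρ) * (x : ℝ) ^ ρ := by
    rw [hY, ← Real.rpow_add hxpos]
    congr 1
    ring
  rw [hw, ← mul_div_assoc, div_le_div_iff₀ (by positivity) (by positivity), hY2]
  have hnn : 0 ≤ (K : ℝ) * (x : ℝ) ^ (6 * ρ) := by positivity
  calc 24 * (K : ℝ) * (x : ℝ) ^ (6 * ρ) = (K : ℝ) * (x : ℝ) ^ (6 * ρ) * 24 := by ring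
    _ ≤ (K : ℝ) * (x : ℝ) ^ (6 * ρ) * (x : ℝ) ^ ρ := mul_le_mul_of_nonneg_left h24x hnn
    _ = (K : ℝ) * ((x : ℝ) ^ (6 * ρ) * (x : ℝ) ^ ρ) := by ring

end Pool.Agent.H65.MS
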